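import Pool.Agent.H76.GT.Pg

/-!
# H76 GT, PlD: systems of places
-/

set_option autoImplicit false

namespace Pool.Agent.H76.GT

open Pool.Agent.H54.TT

variable {F : Type} [Field F]

/-- a family of discrete valuations of `F` with the finiteness property, for which the everywhere integral elements form a
field -/
structure PlaceSys (F : Type) [Field F] (ι : Type) (v : ι → F → ℤ) : Prop where
  dv : ∀ i, IsDV (v i)
  fin : ∀ x : F, x ≠ 0 → {i | v i x ≠ 0}.Finite
  const : ∀ x : F, x ≠ 0 → (∀ i, 0 ≤ v i x) → ∀ i, v i x = 0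

variable {ι : Type} {v : ι → F → ℤ} (h : PlaceSys F ι v)

/-- the field of constants -/
def kap : Subfield F where
  carrier := {x | ∀ i, Ge (v i) 0 x}
  mul_mem' := by
    intro x y hx hy i
    have := ge_mul (h.dv i) (hx i) (hy i)
    rwa [add_zero] at this
  one_mem' := fun i _ => by rw [(h.dv i).one]
  add_mem' := by
    intro x y hx hy i
    exact ge_add (h.dv i) (hx i) (hy i)
  zero_mem' := fun i => ge_zero (h.dv i) 0
  neg_mem' := by
    intro x hx i
    exact ge_neg (h.dv i) (hx i)
  inv_mem' := by
    intro x hx i hn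
    have h1 : x ≠ 0 := fun hc => hn (by rw [hc, inv_zero])
    rw [(h.dv i).inv h1, h.const x h1 (fun j => hx j h1) i]
    simp

theorem mem_kap {x : F} : x ∈ kap h ↔ ∀ i, Ge (v i) 0 x := Iff.rfl

end Pool.Agent.H76.GT
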