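import Pool.Agent.H98.FJ.P.Ext0

/-!
# Finitely amenable actions: definitions

`Transfer C`: the transfer criterion for the class `C` of groups, for honest actions on compact contractible controlled
finitely dominated metric spaces (transfer reducible over the family of the subgroups in `C`).
-/

set_option autoImplicit false

namespace Pool.Agent.H76.GT

open Pool.Agent.H98.FJ

/-- `K` is a compact polyhedron of dimension at most `N`: a finite union of convex hulls of finite sets each of which spans an
affine subspace of dimension at most `N` -/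
def IsPolyhedron (N : ℕ) {E : Type} [AddCommGroup E] [Module ℝ E] (K : Set E) : Prop :=
  ∃ F : Set (Set E), F.Finite ∧ K = (⋃ f ∈ F, convexHull ℝ f) ∧
    ∀ f ∈ F, f.Finite ∧ Module.finrank ℝ (vectorSpan ℝ f) ≤ N

/-- `X` is controlled `N`-dominated: for every `ε > 0` the identity of `X` is homotopic, by a homotopy which moves no point by
more than `ε`, to a map which factors through a compact polyhedron of dimension at most `N` -/
def Dominated (N : ℕ) (X : Type) [MetricSpace X] : Prop :=
  ∀ ε : ℝ, 0 < ε → ∃ (m : ℕ) (K : Set (Fin m → ℝ)), IsPolyhedron N K ∧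
    ∃ (p : C(X, K)) (i : C(K, X)) (H : C(unitInterval × X, X)),
      (∀ x, H (0, x) = i (p x)) ∧ (∀ x, H (1, x) = x) ∧ ∀ t x, dist (H (t, x)) x ≤ ε

section

variable {G X : Type} [Group G] [MulAction G X]

/-- the translate `g u` of a set `u` of pairs, for the diagonal action -/
def tr (g : G) (u : Set (G × X)) : Set (G × X) := {q | (g⁻¹ * q.1, g⁻¹ • q.2) ∈ u}

theorem mem_tr {g : G} {u : Set (G × X)} {q : G × X} : q ∈ tr g u ↔ (g⁻¹ * q.1, g⁻¹ • q.2) ∈ u := Iff.rfl

theorem tr_one (u : Set (G × X)) : tr 1 u = u := by
  ext q
  rw [mem_tr, inv_one, one_mul, one_smul]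

theorem tr_mul (g h : G) (u : Set (G × X)) : tr (g * h) u = tr g (tr h u) := by
  ext q
  rw [mem_tr, mem_tr, mem_tr, mul_inv_rev, mul_assoc, mul_smul]

/-- the stabiliser of a set of pairs -/
def stb (u : Set (G × X)) : Subgroup G where
  carrier := {g | tr g u = u}
  mul_mem' := by
    intro g h hg hh
    show tr (g * h) u = u
    rw [tr_mul]
    rw [show tr h u = u from hh]
    exact hg
  one_mem' := tr_one u
  inv_mem' := by
    intro g hg
    show tr g⁻¹ u = u
    have h : tr g u = u := hg
    calc tr g⁻¹ u = tr g⁻¹ (tr g u) := by rw [h]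
      _ = u := by rw [← tr_mul, inv_mul_cancel, tr_one]

end

/-- `U` is an invariant open cover of `G × X` of order at most `N + 1`, with stabilisers in `C`, whose members are equal to
or disjoint from their translates, and such that all sets `g S × {x}` are contained in members of `U` -/
structure IsCover (C : (G : Type) → [Group G] → Prop) {G X : Type} [Group G] [TopologicalSpace X] [MulAction G X]
    (N : ℕ) (S : Set G) (U : Set (Set (G × X))) : Prop where
  isOpen : ∀ u ∈ U, ∀ g : G, IsOpen {x : X | (g, x) ∈ u}
  inv : ∀ u ∈ U, ∀ g : G, tr g u ∈ U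
  eq : ∀ u ∈ U, ∀ g : G, (tr g u ∩ u).Nonempty → tr g u = u
  stab : ∀ u ∈ U, C (stb u)
  mult : ∀ q : G × X, {u ∈ U | q ∈ u}.encard ≤ N + 1
  wide : ∀ (g : G) (x : X), ∃ u ∈ U, ∀ s ∈ S, (g * s, x) ∈ u

/-- The transfer criterion: `G` is finitely generated and acts on the compact contractible controlled `N`-dominated metric
space `X`, and for every finite subset `S` of `G` there is a cover of `G × X` as in `IsCover`. Then `G` is in the class. -/
def Transfer (C : (G : Type) → [Group G] → Prop) : Prop :=
  ∀ (G X : Type) [Group G] [MetricSpace X] [CompactSpace X] [ContractibleSpace X] [MulAction G X]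
    [ContinuousConstSMul G X] (N : ℕ), Group.FG G → Dominated N X →
    (∀ S : Set G, S.Finite → ∃ U : Set (Set (G × X)), IsCover C N S U) → C G

end Pool.Agent.H76.GT
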