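import Pool.Agent.H76.GT.DefsT

/-!
# H76 GT, Idx: from indexed families to covers

`IsFam C N W`: the sets `W i g` (`i` in a `G`-set, `g : G`) describe the open sets `{(g, x) : x ∈ W i g}` of `G × X`.
Finitely many such families which are jointly wide give a cover.
-/

set_option autoImplicit false

namespace Pool.Agent.H76.GT

open Pool.Agent.H98.FJ

/-- an equivariant family of open subsets of `G × X` -/
structure IsFam (C : (G : Type) → [Group G] → Prop) {G X : Type} [Group G] [TopologicalSpace X] [MulAction G X]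
    (N : ℕ) {I : Type} [MulAction G I] (W : I → G → Set X) : Prop where
  isOpen : ∀ i g, IsOpen (W i g)
  equiv : ∀ (i : I) (g h : G) (x : X), x ∈ W i h → g • x ∈ W (g • i) (g * h)
  eq : ∀ (i : I) (g h : G) (x : X), x ∈ W i h → x ∈ W (g • i) h → g • i = i
  stab : ∀ (i : I) (h : G) (x : X), x ∈ W i h → C (MulAction.stabilizer G i)
  mult : ∀ (h : G) (x : X), {i | x ∈ W i h}.encard ≤ N

/-- Proof. `U` is the set of all nonempty sets `{(g, x) : x ∈ W t i g}`. Its stabiliser is the stabiliser of `i`: if `g`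
fixes the set `u` of `i` then `tr g u` is the set of `g • i` (by `equiv` for `g` and `g⁻¹`), `u` is not empty, so `g • i = i`
by `eq`. Multiplicity: the map `(t, i) ↦ set` is onto the members which contain the point. -/
theorem exists_cover {C : (G : Type) → [Group G] → Prop} (hC : Inherits C) {G X : Type} [Group G] [TopologicalSpace X]
    [MulAction G X] {m : ℕ} (I : Fin m → Type) [∀ t, MulAction G (I t)] (W : ∀ t, I t → G → Set X) (N : Fin m → ℕ)
    (h : ∀ t, IsFam C (N t) (W t)) {M : ℕ} (hM : ∑ t, N t ≤ M + 1) (S : Set G)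
    (hw : ∀ (g : G) (x : X), ∃ t i, ∀ s ∈ S, x ∈ W t i (g * s)) (hS : S.Nonempty) :
    ∃ U : Set (Set (G × X)), IsCover C M S U := by
  obtain ⟨F, hF⟩ : ∃ F : ∀ t, I t → Set (G × X), ∀ t i (q : G × X), q ∈ F t i ↔ q.2 ∈ W t i q.1 :=
    ⟨fun t i => {q | q.2 ∈ W t i q.1}, fun _ _ _ => Iff.rfl⟩
  have hequiv : ∀ t (i : I t) (g : G), tr g (F t i) = F t (g • i) := by
    intro t i g
    ext q
    rw [mem_tr, hF, hF]
    constructor
    · intro hq
      have h1 := (h t).equiv i g _ _ hq
      rw [smul_inv_smul, mul_inv_cancel_left] at h1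
      exact h1
    · intro hq
      have h1 := (h t).equiv (g • i) g⁻¹ _ _ hq
      rw [inv_smul_smul] at h1
      exact h1
  have heq : ∀ t (i : I t) (g : G), (tr g (F t i) ∩ F t i).Nonempty → g • i = i := by
    intro t i g hq
    obtain ⟨q, h1, h2⟩ := hq
    rw [hequiv] at h1
    exact (h t).eq i g q.1 q.2 ((hF t i q).1 h2) ((hF t (g • i) q).1 h1)
  refine ⟨{u | u.Nonempty ∧ ∃ t i, F t i = u}, ?_, ?_, ?_, ?_, ?_, ?_⟩
  · rintro u ⟨-, t, i, rfl⟩ g
    have h1 : {x : X | (g, x) ∈ F t i} = W t i g := by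
      ext x
      exact hF t i (g, x)
    rw [h1]
    exact (h t).isOpen i g
  · rintro u ⟨⟨q, hq⟩, t, i, rfl⟩ g
    refine ⟨⟨(g * q.1, g • q.2), ?_⟩, t, g • i, (hequiv t i g).symm⟩
    rw [mem_tr]
    show (g⁻¹ * (g * q.1), g⁻¹ • (g • q.2)) ∈ F t i
    rw [inv_mul_cancel_left, inv_smul_smul]
    exact hq
  · rintro u ⟨-, t, i, rfl⟩ g hg
    rw [hequiv, heq t i g hg]
  · rintro u ⟨⟨q, hq⟩, t, i, rfl⟩
    have h1 : stb (F t i) = MulAction.stabilizer G i := by
      ext g
      rw [MulAction.mem_stabilizer_iff]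
      constructor
      · intro hg
        have h2 : tr g (F t i) = F t i := hg
        refine heq t i g ⟨q, ?_, hq⟩
        rw [h2]
        exact hq
      · intro hg
        show tr g (F t i) = F t i
        rw [hequiv, hg]
    rw [h1]
    exact (h t).stab i q.1 q.2 ((hF t i q).1 hq)
  · intro q
    have h1 : {u ∈ {u : Set (G × X) | u.Nonempty ∧ ∃ t i, F t i = u} | q ∈ u} ⊆
        ⋃ t ∈ (Finset.univ : Finset (Fin m)), F t '' {i | q.2 ∈ W t i q.1} := by
      rintro u ⟨⟨-, t, i, rfl⟩, hq⟩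
      exact Set.mem_biUnion (Finset.mem_coe.2 (Finset.mem_univ t)) ⟨i, (hF t i q).1 hq, rfl⟩
    have h2 : ∀ s : Finset (Fin m), (⋃ t ∈ s, F t '' {i | q.2 ∈ W t i q.1}).encard ≤ ((∑ t ∈ s, N t : ℕ) : ℕ∞) := by
      classical
      intro s
      induction s using Finset.induction_on with
      | empty => simp
      | insert a s ha ih =>
        rw [Finset.set_biUnion_insert, Finset.sum_insert ha]
        push_cast
        push_cast at ih
        refine le_trans (Set.encard_union_le _ _) (add_le_add ?_ ih)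
        exact le_trans (Set.encard_image_le _ _) ((h a).mult q.1 q.2)
    refine le_trans (Set.encard_le_encard h1) (le_trans (h2 Finset.univ) ?_)
    exact_mod_cast hM
  · intro g x
    obtain ⟨t, i, h1⟩ := hw g x
    obtain ⟨s, hs⟩ := hS
    exact ⟨F t i, ⟨⟨(g * s, x), (hF t i (g * s, x)).2 (h1 s hs)⟩, t, i, rfl⟩,
      fun s' hs' => (hF t i (g * s', x)).2 (h1 s' hs')⟩

end Pool.Agent.H76.GT
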