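import Pool.Agent.H76.GT.Ex

/-!
# H76 GT, Ray: the path from a vertex to a point of the compactification

`ray T o ψ i` is the vertex at distance `i` from `o` on the path from `o` to `ψ`; if `ψ` lies in the interior of an edge the
last vertex is the far endpoint of this edge, afterwards the sequence is constant.
-/

set_option autoImplicit false

namespace Pool.Agent.H76.GT

variable {V : Type} {T : SimpleGraph V}

open Classical in
/-- the path -/
noncomputable def ray (T : SimpleGraph V) (o : V) (ψ : Th T) : ℕ → V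
  | 0 => o
  | i + 1 => if h : ∃ w, Up T o (ray T o ψ i) w ∧ 0 < ψ (ray T o ψ i) w then h.choose else ray T o ψ i

theorem ray_zero (o : V) (ψ : Th T) : ray T o ψ 0 = o := by
  unfold ray
  rfl

private theorem ray_succ_of {o : V} {ψ : Th T} {i : ℕ} {w : V} (h : Up T o (ray T o ψ i) w)
    (hp : 0 < ψ (ray T o ψ i) w) : ray T o ψ (i + 1) = w := by
  have hex : ∃ w, Up T o (ray T o ψ i) w ∧ 0 < ψ (ray T o ψ i) w := ⟨w, h, hp⟩
  have e : ray T o ψ (i + 1) = hex.choose := by
    rw [ray, dif_pos hex]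
  rw [e]
  exact ψ.uniq hex.choose_spec.2 hp

private theorem ray_succ_not {o : V} {ψ : Th T} {i : ℕ}
    (h : ¬ ∃ w, Up T o (ray T o ψ i) w ∧ 0 < ψ (ray T o ψ i) w) : ray T o ψ (i + 1) = ray T o ψ i := by
  rw [ray, dif_neg h]

/-- two paths with the same current vertex and the same conditions have the same next vertex -/
private theorem ray_succ_eq {o o' : V} {ψ : Th T} {i i' : ℕ} (e : ray T o ψ i = ray T o' ψ i')
    (h : ∀ w, (Up T o (ray T o ψ i) w ∧ 0 < ψ (ray T o ψ i) w) ↔ (Up T o' (ray T o ψ i) w ∧ 0 < ψ (ray T o ψ i) w)) :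
    ray T o ψ (i + 1) = ray T o' ψ (i' + 1) := by
  by_cases hex : ∃ w, Up T o (ray T o ψ i) w ∧ 0 < ψ (ray T o ψ i) w
  · obtain ⟨w, h1, h2⟩ := hex
    rw [ray_succ_of h1 h2]
    obtain ⟨h3, h4⟩ := (h w).1 ⟨h1, h2⟩
    rw [e] at h3 h4
    exact (ray_succ_of h3 h4).symm
  · rw [ray_succ_not hex, e, ray_succ_not]
    rintro ⟨w, h1, h2⟩
    rw [← e] at h1 h2
    exact hex ⟨w, (h w).2 ⟨h1, h2⟩⟩

theorem ray_smul {G : Type} [Group G] [MulAction G V] [Pres G T] (hT : T.IsTree) (g : G) (o : V) (ψ : Th T) (i : ℕ) :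
    ray T (g • o) (g • ψ) i = g • ray T o ψ i := by
  induction i with
  | zero => rw [ray_zero, ray_zero]
  | succ i ih =>
    by_cases hex : ∃ w, Up T o (ray T o ψ i) w ∧ 0 < ψ (ray T o ψ i) w
    · obtain ⟨w, h1, h2⟩ := hex
      rw [ray_succ_of h1 h2]
      apply ray_succ_of
      · rw [ih]
        exact (up_smul hT g _ _ _).2 h1
      · rw [ih, Th.smul_apply_smul]
        exact h2
    · rw [ray_succ_not hex, ← ih]
      apply ray_succ_not
      rintro ⟨w, h1, h2⟩
      rw [ih] at h1 h2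
      refine hex ⟨g⁻¹ • w, ?_, ?_⟩
      · rw [← up_smul hT g, smul_inv_smul]
        exact h1
      · rw [← Th.smul_apply_smul g, smul_inv_smul]
        exact h2

/-- all vertices with a positive dart are on the path, and the darts before are full.
Proof. Induction on `dist o u`: if `u ≠ o` let `Up T o w u`, then `ψ w u = 1` by `Th.eq_one`. -/
theorem ray_of_pos (hT : T.IsTree) {o u v : V} {ψ : Th T} (h : Up T o u v) (hp : 0 < ψ u v) :
    ray T o ψ (T.dist o u) = u ∧ ray T o ψ (T.dist o u + 1) = v ∧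
      ∀ i, i < T.dist o u → Up T o (ray T o ψ i) (ray T o ψ (i + 1)) ∧ ψ (ray T o ψ i) (ray T o ψ (i + 1)) = 1 ∧
        T.dist o (ray T o ψ i) = i := by
  obtain ⟨n, hn⟩ : ∃ n, n = T.dist o u := ⟨_, rfl⟩
  rw [← hn]
  induction n generalizing u v with
  | zero =>
    have hu : o = u := (hT.connected.dist_eq_zero_iff).1 hn.symm
    subst hu
    refine ⟨ray_zero _ _, ?_, fun i hi => absurd hi (Nat.not_lt_zero i)⟩
    apply ray_succ_of
    · rw [ray_zero]
      exact h
    · rw [ray_zero]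
      exact hp
  | succ n ih =>
    have hne : u ≠ o := by
      rintro rfl
      rw [SimpleGraph.dist_self] at hn
      omega
    obtain ⟨w, hw⟩ := exists_up hT hne
    have e1 := hw.dist
    have e2 := h.dist
    have hwv : w ≠ v := by
      rintro rfl
      omega
    have h1 : ψ w u = 1 := ψ.eq_one hw.adj h.adj hwv hp
    obtain ⟨a1, a2, a3⟩ := ih hw (by rw [h1]; norm_num) (by omega)
    refine ⟨a2, ?_, ?_⟩
    · apply ray_succ_of
      · rw [a2]
        exact h
      · rw [a2]
        exact hp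
    · intro i hi
      rcases Nat.lt_succ_iff_lt_or_eq.1 hi with h2 | h2
      · exact a3 i h2
      · rw [h2, a1, a2]
        exact ⟨hw, h1, by omega⟩

/-- the exit function as a sum over the path -/
private theorem ex_ray (hT : T.IsTree) {o : V} {ψ : Th T} {Y : Set V} (hY : Cvx T o Y) :
    ∃ n : ℕ, (∀ i, i < n → Up T o (ray T o ψ i) (ray T o ψ (i + 1)) ∧ T.dist o (ray T o ψ i) = i ∧
        ray T o ψ i ∈ Y ∧ ray T o ψ (i + 1) ∈ Y ∧ 0 < ψ (ray T o ψ i) (ray T o ψ (i + 1))) ∧
      (∀ i, i + 1 < n → ψ (ray T o ψ i) (ray T o ψ (i + 1)) = 1) ∧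
      Ex T o Y ψ = ∑ i ∈ Finset.range n, ψ (ray T o ψ i) (ray T o ψ (i + 1)) := by
  classical
  obtain ⟨P, hP⟩ : ∃ P : Finset (V × V), P = (dr_finite hT o hY.fin).toFinset.filter (fun p => 0 < ψ p.1 p.2) := ⟨_, rfl⟩
  have hPm : ∀ p, p ∈ P ↔ (Up T o p.1 p.2 ∧ p.2 ∈ Y) ∧ 0 < ψ p.1 p.2 := by
    intro p
    rw [hP, Finset.mem_filter, Set.Finite.mem_toFinset]
    rfl
  have hE : Ex T o Y ψ = ∑ p ∈ P, ψ p.1 p.2 := by
    unfold Ex
    rw [finsum_mem_eq_finite_toFinset_sum _ (dr_finite hT o hY.fin), hP]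
    symm
    apply Finset.sum_filter_of_ne
    intro p _ hne
    exact lt_of_le_of_ne (ψ.nonneg _ _) (Ne.symm hne)
  by_cases hne : P.Nonempty
  · obtain ⟨p0, hp0, hmax⟩ := P.exists_max_image (fun p => T.dist o p.1) hne
    obtain ⟨⟨c1, c2⟩, c3⟩ := (hPm p0).1 hp0
    obtain ⟨a1, a2, a3⟩ := ray_of_pos hT c1 c3
    obtain ⟨d, hd⟩ : ∃ d, d = T.dist o p0.1 := ⟨_, rfl⟩
    rw [← hd] at a1 a2 a3
    have up : ∀ i, i < d + 1 → Up T o (ray T o ψ i) (ray T o ψ (i + 1)) ∧ T.dist o (ray T o ψ i) = i := by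
      intro i hi
      rcases Nat.lt_succ_iff_lt_or_eq.1 hi with h2 | h2
      · exact ⟨(a3 i h2).1, (a3 i h2).2.2⟩
      · rw [h2, a1, a2]
        exact ⟨c1, hd.symm⟩
    have pos : ∀ i, i < d + 1 → 0 < ψ (ray T o ψ i) (ray T o ψ (i + 1)) := by
      intro i hi
      rcases Nat.lt_succ_iff_lt_or_eq.1 hi with h2 | h2
      · rw [(a3 i h2).2.1]
        norm_num
      · rw [h2, a1, a2]
        exact c3
    have mem : ∀ k i, i + k = d + 1 → ray T o ψ i ∈ Y := by
      intro k
      induction k with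
      | zero =>
        intro i hi
        have : i = d + 1 := by omega
        rw [this, a2]
        exact c2
      | succ k ih =>
        intro i hi
        exact hY.up _ _ (up i (by omega)).1 (ih (i + 1) (by omega))
    refine ⟨d + 1, fun i hi => ⟨(up i hi).1, (up i hi).2, mem (d + 1 - i) i (by omega), mem (d - i) (i + 1) (by omega),
      pos i hi⟩, fun i hi => (a3 i (by omega)).2.1, ?_⟩
    have hPi : P = (Finset.range (d + 1)).image (fun i => (ray T o ψ i, ray T o ψ (i + 1))) := by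
      ext p
      rw [hPm, Finset.mem_image]
      constructor
      · rintro ⟨⟨b1, b2⟩, b3⟩
        obtain ⟨e1, e2, -⟩ := ray_of_pos hT b1 b3
        refine ⟨T.dist o p.1, Finset.mem_range.2 ?_, ?_⟩
        · have := hmax p ((hPm p).2 ⟨⟨b1, b2⟩, b3⟩)
          have h4 : T.dist o p.1 ≤ T.dist o p0.1 := this
          omega
        · rw [e1, e2]
      · rintro ⟨i, hi, rfl⟩
        have hi' := Finset.mem_range.1 hi
        exact ⟨⟨(up i hi').1, mem (d - i) (i + 1) (by omega)⟩, pos i hi'⟩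
    rw [hE, hPi, Finset.sum_image]
    intro i hi i' hi' hii
    have h1 : ray T o ψ i = ray T o ψ i' := congrArg Prod.fst hii
    have h2 := (up i (Finset.mem_range.1 hi)).2
    have h3 := (up i' (Finset.mem_range.1 hi')).2
    rw [h1] at h2
    exact h2.symm.trans h3
  · rw [Finset.not_nonempty_iff_eq_empty] at hne
    refine ⟨0, fun i hi => absurd hi (Nat.not_lt_zero i), fun i hi => absurd hi (Nat.not_lt_zero _), ?_⟩
    rw [hE, hne, Finset.sum_empty, Finset.range_zero, Finset.sum_empty]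

/-- the beginning of the path inside `Y`. Proof. `Ex T o Y ψ` is the sum of the positive terms; these are the darts
`(ray i, ray (i + 1))`, `i < J`, for some `J` (by `ray_of_pos` and `Cvx.up`), all equal to one except perhaps the last one.
-/
theorem ray_of_lt (hT : T.IsTree) {o : V} {ψ : Th T} {Y : Set V} (hY : Cvx T o Y) {j : ℕ} (h : (j : ℝ) < Ex T o Y ψ) :
    (∀ i, i < j → ψ (ray T o ψ i) (ray T o ψ (i + 1)) = 1) ∧
    (∀ i, i ≤ j → Up T o (ray T o ψ i) (ray T o ψ (i + 1)) ∧ T.dist o (ray T o ψ i) = i ∧ ray T o ψ i ∈ Y) ∧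
    ray T o ψ (j + 1) ∈ Y ∧ 0 < ψ (ray T o ψ j) (ray T o ψ (j + 1)) ∧
    (ψ (ray T o ψ j) (ray T o ψ (j + 1)) < 1 → Ex T o Y ψ = j + ψ (ray T o ψ j) (ray T o ψ (j + 1))) := by
  obtain ⟨n, h1, h2, h3⟩ := ex_ray hT (ψ := ψ) hY
  have hjn : j < n := by
    by_contra hc
    have hle : Ex T o Y ψ ≤ n := by
      rw [h3]
      calc ∑ i ∈ Finset.range n, ψ (ray T o ψ i) (ray T o ψ (i + 1)) ≤ ∑ _i ∈ Finset.range n, (1 : ℝ) :=
            Finset.sum_le_sum fun i _ => ψ.le_one _ _
        _ = n := by rw [Finset.sum_const, Finset.card_range, nsmul_eq_mul, mul_one]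
    have : (n : ℝ) ≤ j := by exact_mod_cast not_lt.1 hc
    linarith
  refine ⟨fun i hi => h2 i (by omega), fun i hi => ⟨(h1 i (by omega)).1, (h1 i (by omega)).2.1, (h1 i (by omega)).2.2.1⟩,
    (h1 j hjn).2.2.2.1, (h1 j hjn).2.2.2.2, fun hlt => ?_⟩
  have hn : n = j + 1 := by
    by_contra hc
    have := h2 j (by omega)
    linarith
  rw [h3, hn, Finset.sum_range_succ]
  congr 1
  rw [Finset.sum_congr rfl fun i hi => h2 i (by have := Finset.mem_range.1 hi; omega), Finset.sum_const,
    Finset.card_range, nsmul_eq_mul, mul_one]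

/-- a full dart at the base point: the path from its end -/
private theorem ray_shift (hT : T.IsTree) {a b : V} {ψ : Th T} (hab : T.Adj a b) (h : ψ a b = 1) (i : ℕ) :
    ray T b ψ i = ray T a ψ (i + 1) := by
  have hba : ψ b a = 0 := by
    have := ψ.add hab
    linarith
  have r1 : ray T a ψ 1 = b := by
    apply ray_succ_of (i := 0)
    · rw [ray_zero]
      exact up_self hab
    · rw [ray_zero, h]
      norm_num
  have far : ∀ i, 1 ≤ T.dist a (ray T a ψ (i + 1)) := by
    intro i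
    induction i with
    | zero =>
      show 1 ≤ T.dist a (ray T a ψ 1)
      rw [r1, SimpleGraph.dist_eq_one_iff_adj.2 hab]
    | succ i ih =>
      by_cases hex : ∃ w, Up T a (ray T a ψ (i + 1)) w ∧ 0 < ψ (ray T a ψ (i + 1)) w
      · obtain ⟨w, h1, h2⟩ := hex
        rw [ray_succ_of h1 h2, h1.dist]
        omega
      · rw [ray_succ_not hex]
        exact ih
  induction i with
  | zero => rw [ray_zero, r1]
  | succ i ih =>
    apply ray_succ_eq ih
    intro w
    rw [ih]
    constructor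
    · rintro ⟨h1, h2⟩
      refine ⟨up_change hT hab.symm h1 ?_, h2⟩
      rintro ⟨h3, h4⟩
      rw [h3, h4, hba] at h2
      exact lt_irrefl _ h2
    · rintro ⟨h1, h2⟩
      refine ⟨up_change hT hab h1 ?_, h2⟩
      rintro ⟨h3, -⟩
      have := far i
      rw [h3, SimpleGraph.dist_self] at this
      omega

/-- Two base points. Proof. Induction on `T.dist o o'`. For adjacent `o`, `o'` (with `1 < Ex`): either `ψ o o' = 1` and
`ray T o' ψ i = ray T o ψ (i + 1)` for all `i`, or `ψ o o' = 0`, `ψ o' o = 1` and `ray T o' ψ (i + 1) = ray T o ψ i` for all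
`i`. (The values of `Ex` for neighbouring base points differ by at most one, `ex_change`.) -/
theorem ray_change (hT : T.IsTree) {o o' : V} {ψ : Th T} {Y : Set V} (hY : Cvx T o Y) (ho : o' ∈ Y) {R : ℕ}
    (hR : T.dist o o' ≤ R) (h : (2 * R + 2 : ℝ) < Ex T o Y ψ) :
    ∃ δ : ℤ, |δ| ≤ R ∧ ∀ i : ℕ, R ≤ i → ray T o' ψ i = ray T o ψ (i + δ).toNat := by
  obtain ⟨ht, hht⟩ := exists_height hT ψ
  have key : ∀ (n : ℕ) (x : V), T.dist o x = n → n ≤ R → x ∈ Y →
      ∃ δ : ℤ, |δ| ≤ n ∧ ∀ i : ℕ, n ≤ i → ray T x ψ i = ray T o ψ (i + δ).toNat := by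
    intro n
    induction n with
    | zero =>
      intro x hx _ _
      have : o = x := (hT.connected.dist_eq_zero_iff).1 hx
      subst this
      refine ⟨0, by simp, fun i _ => ?_⟩
      rw [add_zero, Int.toNat_natCast]
    | succ n ih =>
      intro x hx hnR hxY
      have hne : x ≠ o := by
        rintro rfl
        rw [SimpleGraph.dist_self] at hx
        omega
      obtain ⟨u, hu⟩ := exists_up hT hne
      have e1 := hu.dist
      have huY : u ∈ Y := hY.up _ _ hu hxY
      obtain ⟨δ, hδ, hδ'⟩ := ih u (by omega) (by omega) huY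
      have hExu : (1 : ℝ) < Ex T u Y ψ := by
        have h1 := ex_height hT hht hY huY
        have h2 := height_le hT hht o u
        have h3 : ((T.dist o u : ℕ) : ℝ) ≤ R := by exact_mod_cast (by omega : T.dist o u ≤ R)
        rw [abs_le] at h2
        have h4 : (0 : ℝ) ≤ R := Nat.cast_nonneg _
        linarith [h2.1, h2.2]
      have hz : ψ u x = 1 ∨ ψ x u = 1 := by
        obtain ⟨b1, b2, -⟩ := ray_of_lt hT (ψ := ψ) (hY.change hT huY) (j := 1) (by rw [Nat.cast_one]; exact hExu)
        have b3 := b1 0 (by omega)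
        rw [ray_zero] at b3
        have b4 := (b2 0 (by omega)).1
        rw [ray_zero] at b4
        by_cases hc : ray T u ψ (0 + 1) = x
        · left
          rw [← hc]
          exact b3
        · right
          exact ψ.eq_one hu.adj.symm b4.adj (Ne.symm hc) (by rw [b3]; norm_num)
      rw [abs_le] at hδ
      rcases hz with hz | hz
      · refine ⟨δ + 1, ?_, fun i hi => ?_⟩
        · rw [abs_le]
          push_cast
          constructor <;> omega
        · rw [ray_shift hT hu.adj hz i, hδ' (i + 1) (by omega)]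
          congr 1
          push_cast
          ring_nf
      · refine ⟨δ - 1, ?_, fun i hi => ?_⟩
        · rw [abs_le]
          push_cast
          constructor <;> omega
        · obtain ⟨i', rfl⟩ : ∃ i', i = i' + 1 := ⟨i - 1, by omega⟩
          rw [← ray_shift hT hu.adj.symm hz i', hδ' i' (by omega)]
          congr 1
          push_cast
          ring_nf
  obtain ⟨δ, hδ, hδ'⟩ := key _ o' rfl hR ho
  refine ⟨δ, hδ.trans (by exact_mod_cast hR), fun i hi => hδ' i (hR.trans hi)⟩

/-- the path is locally constant. Proof. `ray T o ψ i = v` for `i ≤ j + 1` and all `ψ'` in a neighbourhood: by `ray_of_lt`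
the values `ψ (ray i) (ray (i + 1))` are positive, this is an open condition, and `ray_of_pos` for the last dart. -/
theorem ray_open (hT : T.IsTree) {o : V} {Y : Set V} (hY : Cvx T o Y) (j : ℕ) (f : ℕ → V) :
    IsOpen {ψ : Th T | (j : ℝ) < Ex T o Y ψ ∧ ∀ i, i ≤ j → ray T o ψ i = f i} := by
  rw [isOpen_iff_forall_mem_open]
  rintro ψ ⟨h1, h2⟩
  obtain ⟨b1, b2, b3, b4, -⟩ := ray_of_lt hT hY h1
  have pos : ∀ i, i ≤ j → 0 < ψ (ray T o ψ i) (ray T o ψ (i + 1)) := by
    intro i hi
    rcases Nat.lt_or_eq_of_le hi with h3 | h3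
    · rw [b1 i h3]
      norm_num
    · rw [h3]
      exact b4
  refine ⟨{φ : Th T | (j : ℝ) < Ex T o Y φ} ∩ ⋂ i ∈ Finset.range (j + 1),
    {φ : Th T | 0 < φ (ray T o ψ i) (ray T o ψ (i + 1))}, ?_, ?_, ?_⟩
  · rintro φ ⟨h3, h4⟩
    refine ⟨h3, fun i hi => ?_⟩
    have h5 : 0 < φ (ray T o ψ i) (ray T o ψ (i + 1)) :=
      Set.mem_iInter₂.1 h4 i (Finset.mem_range.2 (by omega))
    obtain ⟨c1, -, -⟩ := ray_of_pos hT (b2 i hi).1 h5
    rw [(b2 i hi).2.1] at c1
    rw [c1]
    exact h2 i hi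
  · refine IsOpen.inter (isOpen_lt continuous_const (ex_continuous hT o hY.fin)) ?_
    exact isOpen_biInter_finset fun i _ => isOpen_lt continuous_const (Th.continuous_apply _ _)
  · refine ⟨h1, Set.mem_iInter₂.2 fun i hi => ?_⟩
    exact pos i (by have := Finset.mem_range.1 hi; omega)

end Pool.Agent.H76.GT
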