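import Pool.Agent.H76.GT.Up

/-!
# H76 GT, Ex: the exit function

`Ex T o Y ψ` is the distance from `o` to the projection of the point `ψ` to the finite subtree `Y`: the sum of the positions
over the darts of `Y` which point away from `o`.
-/

set_option autoImplicit false

namespace Pool.Agent.H76.GT

variable {V : Type} {T : SimpleGraph V}

/-- the darts which point away from `o` and end in `Y` -/
def Dr (T : SimpleGraph V) (o : V) (Y : Set V) : Set (V × V) := {p | Up T o p.1 p.2 ∧ p.2 ∈ Y}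

/-- the exit function -/
noncomputable def Ex (T : SimpleGraph V) (o : V) (Y : Set V) (ψ : Th T) : ℝ := ∑ᶠ p ∈ Dr T o Y, ψ p.1 p.2

/-- Proof. `p ↦ p.2` is injective on `Dr T o Y` by `up_unique`. -/
theorem dr_finite (hT : T.IsTree) (o : V) {Y : Set V} (hY : Y.Finite) : (Dr T o Y).Finite := by
  apply Set.Finite.of_finite_image (f := Prod.snd)
  · apply hY.subset
    rintro _ ⟨p, hp, rfl⟩
    exact hp.2
  · rintro ⟨u, v⟩ hp ⟨u', v'⟩ hp' h
    have h1 : v = v' := h
    subst h1
    have h2 : u = u' := up_unique hT hp.1 hp'.1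
    rw [h2]

theorem ex_nonneg (o : V) (Y : Set V) (ψ : Th T) : 0 ≤ Ex T o Y ψ := by
  unfold Ex
  exact finsum_nonneg fun p => finsum_nonneg fun _ => ψ.nonneg _ _

private theorem ex_eq_sum (hT : T.IsTree) (o : V) {Y : Set V} (hY : Y.Finite) (ψ : Th T) :
    Ex T o Y ψ = ∑ p ∈ (dr_finite hT o hY).toFinset, ψ p.1 p.2 := by
  unfold Ex
  exact finsum_mem_eq_finite_toFinset_sum _ _

theorem ex_continuous (hT : T.IsTree) (o : V) {Y : Set V} (hY : Y.Finite) : Continuous (Ex T o Y) := by
  have e : Ex T o Y = fun ψ : Th T => ∑ p ∈ (dr_finite hT o hY).toFinset, ψ p.1 p.2 :=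
    funext fun ψ => ex_eq_sum hT o hY ψ
  rw [e]
  exact continuous_finsetSum _ fun p _ => Th.continuous_apply _ _

theorem ex_mono (hT : T.IsTree) (o : V) {Y Y' : Set V} (hY : Y'.Finite) (h : Y ⊆ Y') (ψ : Th T) :
    Ex T o Y ψ ≤ Ex T o Y' ψ := by
  rw [ex_eq_sum hT o (hY.subset h) ψ, ex_eq_sum hT o hY ψ]
  apply Finset.sum_le_sum_of_subset_of_nonneg
  · intro p hp
    rw [Set.Finite.mem_toFinset] at hp ⊢
    exact ⟨hp.1, h hp.2⟩
  · intro p _ _
    exact ψ.nonneg _ _

theorem ex_smul {G : Type} [Group G] [MulAction G V] [Pres G T] (hT : T.IsTree) (g : G) (o : V) (Y : Set V) (ψ : Th T) :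
    Ex T (g • o) ((fun x => g • x) '' Y) (g • ψ) = Ex T o Y ψ := by
  unfold Ex
  symm
  apply finsum_mem_eq_of_bijOn (fun p : V × V => (g • p.1, g • p.2))
  · refine ⟨?_, ?_, ?_⟩
    · rintro ⟨u, v⟩ ⟨h1, h2⟩
      exact ⟨(up_smul hT g o u v).2 h1, ⟨v, h2, rfl⟩⟩
    · rintro ⟨u, v⟩ _ ⟨u', v'⟩ _ h
      have h1 : g • u = g • u' := congrArg Prod.fst h
      have h2 : g • v = g • v' := congrArg Prod.snd h
      rw [smul_left_cancel g h1, smul_left_cancel g h2]
    · rintro ⟨u, v⟩ ⟨h1, ⟨w, hw, hwv⟩⟩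
      have hwv' : g • w = v := hwv
      refine ⟨(g⁻¹ • u, w), ⟨?_, hw⟩, ?_⟩
      · have h3 : Up T (g • o) (g • (g⁻¹ • u)) (g • w) := by
          rw [smul_inv_smul, hwv']
          exact h1
        exact (up_smul hT g o _ _).1 h3
      · show (g • (g⁻¹ • u), g • w) = (u, v)
        rw [smul_inv_smul, hwv']
  · rintro ⟨u, v⟩ _
    exact (Th.smul_apply_smul g ψ u v).symm

/-- heights: on a tree every function on the darts with `f v u = - f u v` is a coboundary. Proof: fix `r` and define `h v` by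
summation along the path from `r` (or by recursion on `dist r v` with `exists_up`, `up_unique`). -/
theorem exists_height (hT : T.IsTree) (ψ : Th T) : ∃ h : V → ℝ, ∀ u v, T.Adj u v → h v - h u = 2 * ψ u v - 1 := by
  classical
  obtain ⟨r⟩ : Nonempty V := hT.connected.nonempty
  obtain ⟨par, hpar⟩ : ∃ par : V → V, ∀ v, v ≠ r → Up T r (par v) v := by
    have h1 : ∀ v : V, ∃ u : V, v ≠ r → Up T r u v := by
      intro v
      by_cases hv : v = r
      · exact ⟨r, fun h => absurd hv h⟩
      · obtain ⟨u, hu⟩ := exists_up hT hv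
        exact ⟨u, fun _ => hu⟩
    choose par hpar using h1
    exact ⟨par, hpar⟩
  obtain ⟨c, hc⟩ : ∃ c : V → V → ℝ, c = fun u v => 2 * ψ u v - 1 := ⟨_, rfl⟩
  obtain ⟨h, hh⟩ : ∃ h : V → ℝ, h = fun v => ∑ i ∈ Finset.range (T.dist r v), c (par^[i + 1] v) (par^[i] v) := ⟨_, rfl⟩
  have hstep : ∀ v, v ≠ r → h v = h (par v) + c (par v) v := by
    intro v hv
    have h1 : T.dist r v = T.dist r (par v) + 1 := (hpar v hv).dist
    rw [hh]
    show ∑ i ∈ Finset.range (T.dist r v), c (par^[i + 1] v) (par^[i] v) =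
      ∑ i ∈ Finset.range (T.dist r (par v)), c (par^[i + 1] (par v)) (par^[i] (par v)) + c (par v) v
    rw [h1, Finset.sum_range_succ']
    rfl
  refine ⟨h, fun u v huv => ?_⟩
  rcases up_or hT r huv with h1 | h1
  · have hv := h1.ne
    have h2 : par v = u := up_unique hT (hpar v hv) h1
    have h3 := hstep v hv
    rw [h2] at h3
    rw [h3, hc]
    ring
  · have hu := h1.ne
    have h2 : par u = v := up_unique hT (hpar u hu) h1
    have h3 := hstep u hu
    rw [h2] at h3
    have h4 := ψ.add huv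
    rw [h3, hc]
    show h v - (h v + (2 * ψ v u - 1)) = 2 * ψ u v - 1
    linarith

/-- Proof. The darts which point away from `o` and those which point away from `o'` differ only in `(o, o')`, `(o', o)`
(`up_change`), and `o, o' ∈ Y`. -/
theorem ex_change (hT : T.IsTree) {o o' : V} (ho : T.Adj o o') {Y : Set V} (hY : Cvx T o Y) (h : o' ∈ Y) (ψ : Th T) :
    Ex T o Y ψ - Ex T o' Y ψ = ψ o o' - ψ o' o := by
  obtain ⟨S, hS⟩ : ∃ S : Set (V × V), S = Dr T o Y ∩ Dr T o' Y := ⟨_, rfl⟩
  have hSf : S.Finite := by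
    rw [hS]
    exact (dr_finite hT o hY.fin).inter_of_left _
  have n1 : (o, o') ∉ S := by
    rw [hS]
    intro hc
    exact (hc.2.1 : Up T o' o o').ne rfl
  have n2 : (o', o) ∉ S := by
    rw [hS]
    intro hc
    exact (hc.1.1 : Up T o o' o).ne rfl
  have e1 : Dr T o Y = insert (o, o') S := by
    ext ⟨u, v⟩
    constructor
    · intro hp
      by_cases hn : u = o ∧ v = o'
      · rw [hn.1, hn.2]
        exact Set.mem_insert _ _
      · apply Set.mem_insert_of_mem
        rw [hS]
        exact ⟨hp, ⟨up_change hT ho hp.1 hn, hp.2⟩⟩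
    · rintro (hp | hp)
      · rw [hp]
        exact ⟨up_self ho, h⟩
      · rw [hS] at hp
        exact hp.1
  have e2 : Dr T o' Y = insert (o', o) S := by
    ext ⟨u, v⟩
    constructor
    · intro hp
      by_cases hn : u = o' ∧ v = o
      · rw [hn.1, hn.2]
        exact Set.mem_insert _ _
      · apply Set.mem_insert_of_mem
        rw [hS]
        exact ⟨⟨up_change hT ho.symm hp.1 hn, hp.2⟩, hp⟩
    · rintro (hp | hp)
      · rw [hp]
        exact ⟨up_self ho.symm, hY.mem⟩
      · rw [hS] at hp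
        exact hp.2
  unfold Ex
  rw [e1, e2, finsum_mem_insert _ n1 hSf, finsum_mem_insert _ n2 hSf]
  ring

/-- the height of the projection to `Y` does not depend on the base point in `Y`. Proof: induction on `T.dist o o'` with
`ex_change`, `exists_up` (for `o`), `Cvx.up`, `Cvx.change`. -/
theorem ex_height (hT : T.IsTree) {ψ : Th T} {h : V → ℝ} (hh : ∀ u v, T.Adj u v → h v - h u = 2 * ψ u v - 1) {o o' : V}
    {Y : Set V} (hY : Cvx T o Y) (ho : o' ∈ Y) : h o + Ex T o Y ψ = h o' + Ex T o' Y ψ := by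
  obtain ⟨n, hn⟩ : ∃ n, n = T.dist o o' := ⟨_, rfl⟩
  induction n generalizing o' with
  | zero =>
    by_cases hc : o' = o
    · rw [hc]
    · obtain ⟨u, hu⟩ := exists_up hT hc
      have := hu.dist
      omega
  | succ n ih =>
    by_cases hc : o' = o
    · rw [hc]
    · obtain ⟨u, hu⟩ := exists_up hT hc
      have h1 := hu.dist
      have huY : u ∈ Y := hY.up u o' hu ho
      have h2 := ih huY (by omega)
      have h3 := ex_change hT hu.adj (hY.change hT huY) ho ψ
      have h4 := hh u o' hu.adj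
      have h5 := ψ.add hu.adj
      linarith

/-- Proof. Along a walk of length `dist o o'` every step changes `h` by at most one. -/
theorem height_le (hT : T.IsTree) {ψ : Th T} {h : V → ℝ} (hh : ∀ u v, T.Adj u v → h v - h u = 2 * ψ u v - 1) (o o' : V) :
    |h o - h o'| ≤ T.dist o o' := by
  obtain ⟨n, hn⟩ : ∃ n, n = T.dist o o' := ⟨_, rfl⟩
  rw [← hn]
  induction n generalizing o' with
  | zero =>
    by_cases hc : o' = o
    · rw [hc, sub_self, abs_zero]
      exact Nat.cast_nonneg _
    · obtain ⟨u, hu⟩ := exists_up hT hc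
      have := hu.dist
      omega
  | succ n ih =>
    by_cases hc : o' = o
    · rw [hc, sub_self, abs_zero]
      exact Nat.cast_nonneg _
    · obtain ⟨u, hu⟩ := exists_up hT hc
      have h1 := hu.dist
      have h2 := ih u (by omega)
      have h4 := hh u o' hu.adj
      have h5 := ψ.nonneg u o'
      have h6 := ψ.le_one u o'
      rw [abs_le] at h2 ⊢
      push_cast
      constructor <;> linarith [h2.1, h2.2]

end Pool.Agent.H76.GT
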