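import Pool.Agent.H76.GT.Pg

/-!
# H76 GT, FfC: the constants are a finite extension
-/

set_option autoImplicit false

namespace Pool.Agent.H76.GT

open Pool.Agent.H54.TT Polynomial

variable (k F : Type) [Field k] [Field F] [Algebra k F]

private theorem lin_ind (x : F) (hx : Transcendental k x) (K : IntermediateField k F)
    (hK : ∀ y ∈ K, IsIntegral k y) {ι : Type} [Fintype ι] (b : ι → K) (hb : LinearIndependent k b) :
    LinearIndependent (IntermediateField.adjoin k {x}) (fun i => (b i : F)) := by
  classical
  have halg : Algebra.IsAlgebraic k K := by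
    refine ⟨fun y => ?_⟩
    have h1 : IsIntegral k (y : F) := hK y y.2
    have h2 : IsAlgebraic k (algebraMap K F y) := h1.isAlgebraic
    exact (isAlgebraic_algebraMap_iff (algebraMap K F).injective).1 h2
  have hxK : Transcendental K x := by
    intro h
    exact hx (IsAlgebraic.restrictScalars k h)
  rw [Fintype.linearIndependent_iff]
  intro c hc
  have hrs : ∀ i, ∃ r s : k[X], s ≠ 0 ∧ (c i : F) * aeval x s = aeval x r := by
    intro i
    obtain ⟨r, s, h⟩ := (IntermediateField.mem_adjoin_simple_iff k (c i : F)).1 (c i).2
    by_cases hs : s = 0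
    · refine ⟨0, 1, one_ne_zero, ?_⟩
      rw [h, hs, map_zero, div_zero, zero_mul]
    · refine ⟨r, s, hs, ?_⟩
      have h1 : aeval x s ≠ 0 := by
        intro h0
        exact hs ((transcendental_iff.1 hx) s h0)
      rw [h, div_mul_cancel₀ _ h1]
  choose r s hs hrs using hrs
  have hsum : ∑ i, aeval x (r i * ∏ j ∈ Finset.univ.erase i, s j) * (b i : F) = 0 := by
    have h1 : ∀ i, aeval x (r i * ∏ j ∈ Finset.univ.erase i, s j) * (b i : F) =
        aeval x (∏ j, s j) * ((c i : F) * (b i : F)) := by
      intro i
      rw [← Finset.mul_prod_erase Finset.univ s (Finset.mem_univ i), map_mul, map_mul, ← hrs i]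
      ring
    rw [Finset.sum_congr rfl fun i _ => h1 i, ← Finset.mul_sum]
    have h2 : ∑ i, (c i : F) * (b i : F) = 0 := hc
    rw [h2, mul_zero]
  have hP : ∑ i, C (b i) * (r i * ∏ j ∈ Finset.univ.erase i, s j).map (algebraMap k K) = 0 := by
    apply (transcendental_iff.1 hxK)
    rw [map_sum, ← hsum]
    refine Finset.sum_congr rfl fun i _ => ?_
    rw [map_mul, aeval_C, aeval_map_algebraMap, mul_comm]
    rfl
  have hp : ∀ i, r i * ∏ j ∈ Finset.univ.erase i, s j = 0 := by
    intro i
    ext n
    have h1 := congrArg (fun p : K[X] => p.coeff n) hP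
    simp only [finsetSum_coeff, coeff_C_mul, coeff_map, coeff_zero] at h1
    have h2 : ∑ i, (r i * ∏ j ∈ Finset.univ.erase i, s j).coeff n • b i = 0 := by
      rw [← h1]
      refine Finset.sum_congr rfl fun i _ => ?_
      rw [Algebra.smul_def, mul_comm]
    exact (Fintype.linearIndependent_iff.1 hb) _ h2 i
  intro i
  have h1 : r i = 0 := by
    rcases mul_eq_zero.1 (hp i) with h | h
    · exact h
    · exact absurd h (Finset.prod_ne_zero_iff.2 fun j _ => hs j)
  have h2 : aeval x (s i) ≠ 0 := by
    intro h0
    exact hs i ((transcendental_iff.1 hx) (s i) h0)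
  have h3 := hrs i
  rw [h1, map_zero] at h3
  rcases mul_eq_zero.1 h3 with h | h
  · exact Subtype.ext h
  · exact absurd h h2

/-- The constants form a finite extension of `k`. Proof. Elements of `F` which are linearly independent and algebraic over
`k` are linearly independent over `k(x)`: the algebraic closure `k'` of `k` in `F` satisfies `[k'(x) : k(x)] = [k' : k]` for
finite subextensions; so `[k' : k] ≤ [F : k(x)]`. (For `z` algebraic over `k` the minimal polynomial over `k(x)` is the one over
`k`, since its coefficients are algebraic over `k` and in `k(x)`. By the bound for simple subextensions and separability, or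
directly: a `k(x)`-linear relation between elements of `k'`, with polynomial coefficients in `x`, of minimal degree: put the
constant terms, using that `x` is transcendental over `k'`.) -/
theorem finite_constants (x : F) (hx : Transcendental k x)
    (hfin : FiniteDimensional (IntermediateField.adjoin k {x}) F) (K : IntermediateField k F)
    (hK : ∀ y ∈ K, IsIntegral k y) : FiniteDimensional k K := by
  have hrank : Module.rank k K ≤ (Module.finrank (IntermediateField.adjoin k {x}) F : ℕ) := by
    refine rank_le fun t ht => ?_
    have h1 := lin_ind k F x hx K hK (fun i : t => (i : K)) ht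
    have h2 := h1.fintype_card_le_finrank
    rwa [Fintype.card_coe] at h2
  exact Module.rank_lt_aleph0_iff.1 (lt_of_le_of_lt hrank Cardinal.natCast_lt_aleph0)

end Pool.Agent.H76.GT
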