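import Pool.Agent.H76.GT.DefsT

/-!
# H76 GT, Th: the compactification of a tree by its ends

`T` is a simplicial tree with vertex set `V`. A point `ψ` of `Th T` gives for every dart `(u, v)` the position `ψ u v` in
`[0, 1]` of its projection to this edge: `0` if the projection is `u`, `1` if the projection is `v`.
-/

set_option autoImplicit false

namespace Pool.Agent.H76.GT

/-- the action of `G` preserves adjacency -/
class Pres (G : Type) {V : Type} [Group G] [MulAction G V] (T : SimpleGraph V) : Prop where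
  adj : ∀ (g : G) (x y : V), T.Adj x y → T.Adj (g • x) (g • y)

theorem Pres.iff {G V : Type} [Group G] [MulAction G V] (T : SimpleGraph V) [Pres G T] (g : G) (x y : V) :
    T.Adj (g • x) (g • y) ↔ T.Adj x y := by
  refine ⟨fun h => ?_, Pres.adj g x y⟩
  have := Pres.adj (T := T) g⁻¹ _ _ h
  rwa [inv_smul_smul, inv_smul_smul] at this

instance {G V : Type} [Group G] [MulAction G V] (T : SimpleGraph V) [Pres G T] (H : Subgroup G) : Pres H T where
  adj g x y h := Pres.adj (T := T) (g : G) x y h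

/-- the conditions on the positions -/
structure IsPos {V : Type} (T : SimpleGraph V) (ψ : V → V → ℝ) : Prop where
  nonneg : ∀ u v, 0 ≤ ψ u v
  off : ∀ u v, ¬ T.Adj u v → ψ u v = 0
  add : ∀ u v, T.Adj u v → ψ u v + ψ v u = 1
  mul : ∀ u v w, T.Adj u v → T.Adj v w → u ≠ w → ψ v w * (1 - ψ u v) = 0

/-- the compactification of the tree -/
def Th {V : Type} (T : SimpleGraph V) : Type := {ψ : V → V → ℝ // IsPos T ψ}

namespace Th

variable {V : Type} {T : SimpleGraph V}

instance : CoeFun (Th T) (fun _ => V → V → ℝ) := ⟨Subtype.val⟩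

instance : TopologicalSpace (Th T) := instTopologicalSpaceSubtype

theorem ext {ψ φ : Th T} (h : ∀ u v, ψ u v = φ u v) : ψ = φ := Subtype.ext (funext fun u => funext fun v => h u v)

theorem nonneg (ψ : Th T) (u v : V) : 0 ≤ ψ u v := ψ.2.nonneg u v

theorem off (ψ : Th T) {u v : V} (h : ¬ T.Adj u v) : ψ u v = 0 := ψ.2.off u v h

theorem add (ψ : Th T) {u v : V} (h : T.Adj u v) : ψ u v + ψ v u = 1 := ψ.2.add u v h

theorem le_one (ψ : Th T) (u v : V) : ψ u v ≤ 1 := by
  by_cases h : T.Adj u v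
  · linarith [ψ.add h, ψ.nonneg v u]
  · rw [ψ.off h]
    norm_num

theorem mul (ψ : Th T) {u v w : V} (h : T.Adj u v) (h' : T.Adj v w) (hn : u ≠ w) : ψ v w * (1 - ψ u v) = 0 :=
  ψ.2.mul u v w h h' hn

/-- if the projection to the edge `(v, w)` is not `v` then the projection to `(u, v)` is `v` -/
theorem eq_one (ψ : Th T) {u v w : V} (h : T.Adj u v) (h' : T.Adj v w) (hn : u ≠ w) (hp : 0 < ψ v w) : ψ u v = 1 := by
  have := ψ.mul h h' hn
  rcases mul_eq_zero.1 this with h1 | h1
  · exact absurd h1 hp.ne'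
  · linarith

/-- only one direction is possible -/
theorem uniq (ψ : Th T) {v w w' : V} (h : 0 < ψ v w) (h' : 0 < ψ v w') : w = w' := by
  by_contra hn
  have a : T.Adj v w := by
    by_contra hc
    rw [ψ.off hc] at h
    exact lt_irrefl _ h
  have a' : T.Adj v w' := by
    by_contra hc
    rw [ψ.off hc] at h'
    exact lt_irrefl _ h'
  have h1 := ψ.eq_one a.symm a' hn h'
  have h2 := ψ.add a
  linarith

theorem continuous_apply (u v : V) : Continuous fun ψ : Th T => ψ u v :=
  (continuous_apply_apply (ρ := fun _ _ => ℝ) u v).comp continuous_subtype_val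

theorem continuous_of {Y : Type*} [TopologicalSpace Y] {f : Y → Th T} (h : ∀ u v, Continuous fun y => f y u v) :
    Continuous f :=
  Continuous.subtype_mk (continuous_pi fun u => continuous_pi fun v => h u v) _

theorem isClosed : IsClosed {ψ : V → V → ℝ | IsPos T ψ} := by
  have c : ∀ u v : V, Continuous fun ψ : V → V → ℝ => ψ u v :=
    fun u v => continuous_apply_apply (ρ := fun _ _ => ℝ) u v
  have e : {ψ : V → V → ℝ | IsPos T ψ} =
      (⋂ (u) (v), {ψ : V → V → ℝ | 0 ≤ ψ u v}) ∩ (⋂ (u) (v) (_ : ¬ T.Adj u v), {ψ : V → V → ℝ | ψ u v = 0}) ∩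
      (⋂ (u) (v) (_ : T.Adj u v), {ψ : V → V → ℝ | ψ u v + ψ v u = 1}) ∩
      (⋂ (u) (v) (w) (_ : T.Adj u v) (_ : T.Adj v w) (_ : u ≠ w), {ψ : V → V → ℝ | ψ v w * (1 - ψ u v) = 0}) := by
    ext ψ
    simp only [Set.mem_inter_iff, Set.mem_iInter, Set.mem_setOf_eq]
    exact ⟨fun h => ⟨⟨⟨h.nonneg, h.off⟩, h.add⟩, h.mul⟩, fun h => ⟨h.1.1.1, h.1.1.2, h.1.2, h.2⟩⟩
  rw [e]
  refine IsClosed.inter (IsClosed.inter (IsClosed.inter ?_ ?_) ?_) ?_
  · exact isClosed_iInter fun u => isClosed_iInter fun v => isClosed_le continuous_const (c u v)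
  · exact isClosed_iInter fun u => isClosed_iInter fun v => isClosed_iInter fun _ => isClosed_eq (c u v) continuous_const
  · exact isClosed_iInter fun u => isClosed_iInter fun v => isClosed_iInter fun _ =>
      isClosed_eq ((c u v).add (c v u)) continuous_const
  · exact isClosed_iInter fun u => isClosed_iInter fun v => isClosed_iInter fun w => isClosed_iInter fun _ =>
      isClosed_iInter fun _ => isClosed_iInter fun _ =>
      isClosed_eq ((c v w).mul (continuous_const.sub (c u v))) continuous_const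

instance : T2Space (Th T) := inferInstanceAs (T2Space {ψ : V → V → ℝ // IsPos T ψ})

instance : CompactSpace (Th T) := by
  have h1 : IsCompact (Set.pi Set.univ fun _ : V => Set.pi Set.univ fun _ : V => Set.Icc (0 : ℝ) 1) :=
    isCompact_univ_pi fun _ => isCompact_univ_pi fun _ => isCompact_Icc
  have h2 : {ψ : V → V → ℝ | IsPos T ψ} ⊆ Set.pi Set.univ fun _ : V => Set.pi Set.univ fun _ : V => Set.Icc (0 : ℝ) 1 := by
    intro ψ hψ u _ v _
    exact ⟨Th.nonneg (T := T) ⟨ψ, hψ⟩ u v, Th.le_one (T := T) ⟨ψ, hψ⟩ u v⟩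
  exact isCompact_iff_compactSpace.1 (h1.of_isClosed_subset isClosed h2)

instance [Countable V] : SecondCountableTopology (Th T) :=
  TopologicalSpace.Subtype.secondCountableTopology {ψ : V → V → ℝ | IsPos T ψ}

section

variable {G : Type} [Group G] [MulAction G V]

theorem isPos_smul [Pres G T] (g : G) {ψ : V → V → ℝ} (h : IsPos T ψ) :
    IsPos T fun u v => ψ (g⁻¹ • u) (g⁻¹ • v) where
  nonneg u v := h.nonneg _ _
  off u v hn := h.off _ _ (by rwa [Pres.iff])
  add u v ha := h.add _ _ (by rwa [Pres.iff])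
  mul u v w h1 h2 hn := h.mul _ _ _ (by rwa [Pres.iff]) (by rwa [Pres.iff]) (fun hc => hn (smul_left_cancel _ hc))

instance [Pres G T] : MulAction G (Th T) where
  smul g ψ := ⟨_, isPos_smul g ψ.2⟩
  one_smul ψ := ext fun u v => by
    show ψ ((1 : G)⁻¹ • u) ((1 : G)⁻¹ • v) = ψ u v
    rw [inv_one, one_smul, one_smul]
  mul_smul g h ψ := ext fun u v => by
    show ψ ((g * h)⁻¹ • u) ((g * h)⁻¹ • v) = ψ (h⁻¹ • g⁻¹ • u) (h⁻¹ • g⁻¹ • v)
    rw [mul_inv_rev, mul_smul, mul_smul]

theorem smul_apply [Pres G T] (g : G) (ψ : Th T) (u v : V) : (g • ψ) u v = ψ (g⁻¹ • u) (g⁻¹ • v) := rfl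

theorem smul_apply_smul [Pres G T] (g : G) (ψ : Th T) (u v : V) : (g • ψ) (g • u) (g • v) = ψ u v := by
  rw [smul_apply, inv_smul_smul, inv_smul_smul]

instance [Pres G T] : ContinuousConstSMul G (Th T) where
  continuous_const_smul g := continuous_of fun _ _ => continuous_apply _ _

end

end Th

end Pool.Agent.H76.GT
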