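import Pool.Agent.H54.TT.Tree
import Pool.Agent.H76.GT.Th

/-!
# H76 GT, Pg: the projective group of degree two, its action on the trees and on the subspaces of the matrix algebra
-/

set_option autoImplicit false

namespace Pool.Agent.H76.GT

open Pool.Agent.H54.TT

variable {F : Type} [Field F]

/-- two by two matrices -/
abbrev M2 (F : Type) : Type := Matrix (Fin 2) (Fin 2) F

/-- the projective linear group of degree two -/
abbrev PG (F : Type) [Field F] : Type := GL (Fin 2) F ⧸ Subgroup.center (GL (Fin 2) F)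

/-- the quotient map -/
def pr (F : Type) [Field F] : GL (Fin 2) F →* PG F := QuotientGroup.mk' _

theorem pr_surj : Function.Surjective (pr F) := QuotientGroup.mk'_surjective _

/-- the central elements are the scalar matrices (`Matrix.GeneralLinearGroup.center_eq_range_scalar` or by hand) -/
theorem mem_center_iff {g : GL (Fin 2) F} : g ∈ Subgroup.center (GL (Fin 2) F) ↔ ∃ c : F, g.val = c • (1 : M2 F) := by
  rw [Matrix.GeneralLinearGroup.mem_center_iff_val_mem_range_scalar]
  constructor
  · rintro ⟨c, hc⟩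
    refine ⟨c, ?_⟩
    rw [← hc, Matrix.smul_one_eq_diagonal]
    rfl
  · rintro ⟨c, hc⟩
    refine ⟨c, ?_⟩
    rw [hc, Matrix.smul_one_eq_diagonal]
    rfl

theorem pr_eq_one {g : GL (Fin 2) F} : pr F g = 1 ↔ ∃ c : F, g.val = c • (1 : M2 F) := by
  unfold pr
  rw [QuotientGroup.mk'_apply, QuotientGroup.eq_one_iff, mem_center_iff]

section

variable {v : F → ℤ} (hv : IsDV v)

/-- scalar matrices act trivially on the tree -/
theorem smul_of_scalar {g : GL (Fin 2) F} {c : F} (h : g.val = c • (1 : M2 F)) (x : Vx hv) : g • x = x := by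
  obtain ⟨y, rfl⟩ := QuotientGroup.mk_surjective x
  show ((g * y : GL (Fin 2) F) : Vx hv) = (y : Vx hv)
  rw [eq_iff]
  have hc : g * y = y * g := Subgroup.mem_center_iff.1 (mem_center_iff.2 ⟨c, h⟩) y |>.symm
  have h1 : (g * y)⁻¹ * y = g⁻¹ := by
    rw [hc, mul_inv_rev, mul_assoc, inv_mul_cancel, mul_one]
  rw [h1]
  refine Ds.inv hv ?_
  have hdet : g.det.val = c * c := by
    show g.val.det = c * c
    rw [h, Matrix.det_smul, Matrix.det_one, Fintype.card_fin, mul_one, pow_two]
  have hc0 : c ≠ 0 := by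
    rintro rfl
    exact g.det.ne_zero (by rw [hdet, zero_mul])
  refine ⟨v c, ?_, ?_⟩
  · intro i j
    rw [h, Matrix.smul_apply, Matrix.one_apply, smul_eq_mul]
    split_ifs
    · rw [mul_one]
      exact fun _ => le_rfl
    · rw [mul_zero]
      exact ge_zero hv _
  · unfold vd
    rw [hdet, hv.mul _ _ hc0 hc0]
    ring

instance : MulAction (PG F) (Vx hv) where
  smul g x := Quotient.liftOn' g (fun a => a • x) (by
    intro a b h
    show a • x = b • x
    have h1 : a⁻¹ * b ∈ Subgroup.center (GL (Fin 2) F) := QuotientGroup.leftRel_apply.1 h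
    obtain ⟨c, hc⟩ := mem_center_iff.1 h1
    have h2 := smul_of_scalar hv hc x
    rw [mul_smul] at h2
    exact (inv_smul_eq_iff.1 h2).symm)
  one_smul x := one_smul (GL (Fin 2) F) x
  mul_smul g h x := by
    obtain ⟨a, rfl⟩ := QuotientGroup.mk_surjective g
    obtain ⟨b, rfl⟩ := QuotientGroup.mk_surjective h
    exact mul_smul a b x

theorem pr_smul (g : GL (Fin 2) F) (x : Vx hv) : pr F g • x = g • x := rfl

instance : Pres (PG F) (Tv hv) where
  adj g x y h := by
    obtain ⟨a, rfl⟩ := pr_surj g
    rw [pr_smul, pr_smul]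
    exact adj_smul hv a x y h

instance [Countable F] : Countable (GL (Fin 2) F) := by
  have : Countable (M2 F) := inferInstanceAs (Countable (Fin 2 → Fin 2 → F))
  exact Function.Injective.countable (f := fun g : GL (Fin 2) F => (g.val : M2 F)) Units.val_injective

instance [Countable F] : Countable (Vx hv) := Function.Surjective.countable QuotientGroup.mk_surjective

end

/-- conjugation -/
def cj (g : GL (Fin 2) F) (x : M2 F) : M2 F := g.val * x * (g⁻¹).val

/-- the subspaces of the matrix algebra, as a type of its own (with the conjugation action) -/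
def Sp (F : Type) [Field F] : Type := Submodule F (M2 F)

/-- the subspace -/
def Sp.sub (A : Sp F) : Submodule F (M2 F) := A

/-- conjugation of subspaces -/
def cjS (g : GL (Fin 2) F) (A : Submodule F (M2 F)) : Submodule F (M2 F) where
  carrier := {x | cj g⁻¹ x ∈ A}
  add_mem' := by
    intro x y hx hy
    show cj g⁻¹ (x + y) ∈ A
    unfold cj
    rw [mul_add, add_mul]
    exact A.add_mem hx hy
  zero_mem' := by
    show cj g⁻¹ 0 ∈ A
    unfold cj
    rw [mul_zero, zero_mul]
    exact A.zero_mem
  smul_mem' := by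
    intro c x hx
    show cj g⁻¹ (c • x) ∈ A
    unfold cj
    rw [Matrix.mul_smul, Matrix.smul_mul]
    exact A.smul_mem c hx

theorem mem_cjS {g : GL (Fin 2) F} {A : Submodule F (M2 F)} {x : M2 F} : x ∈ cjS g A ↔ cj g⁻¹ x ∈ A := Iff.rfl

theorem cj_one (x : M2 F) : cj 1 x = x := by
  unfold cj
  simp

theorem cj_mul (g h : GL (Fin 2) F) (x : M2 F) : cj (g * h) x = cj g (cj h x) := by
  unfold cj
  rw [mul_inv_rev]
  simp only [Units.val_mul, mul_assoc]

theorem cj_scalar {g : GL (Fin 2) F} {c : F} (h : g.val = c • (1 : M2 F)) (x : M2 F) : cj g x = x := by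
  have h1 : g.val * (g⁻¹).val = 1 := by
    rw [← Units.val_mul, mul_inv_cancel, Units.val_one]
  rw [h, Matrix.smul_mul, one_mul] at h1
  unfold cj
  rw [h, Matrix.smul_mul, one_mul, Matrix.smul_mul, ← Matrix.mul_smul, h1, mul_one]

instance : MulAction (PG F) (Sp F) where
  smul g A := Quotient.liftOn' g (fun a => (cjS a A : Submodule F (M2 F))) (by
    intro a b h
    have h1 : a⁻¹ * b ∈ Subgroup.center (GL (Fin 2) F) := QuotientGroup.leftRel_apply.1 h
    obtain ⟨c, hc⟩ := mem_center_iff.1 h1
    refine Submodule.ext fun x => ?_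
    rw [mem_cjS, mem_cjS]
    have h2 : cj (a⁻¹ * b) (cj b⁻¹ x) = cj a⁻¹ x := by
      rw [← cj_mul]
      congr 1
      group
    rw [← h2, cj_scalar hc])
  one_smul A := by
    refine Submodule.ext fun x => ?_
    show cj (1 : GL (Fin 2) F)⁻¹ x ∈ A.sub ↔ x ∈ A.sub
    rw [inv_one, cj_one]
  mul_smul g h A := by
    obtain ⟨a, rfl⟩ := QuotientGroup.mk_surjective g
    obtain ⟨b, rfl⟩ := QuotientGroup.mk_surjective h
    refine Submodule.ext fun x => ?_
    show cj (a * b)⁻¹ x ∈ A.sub ↔ cj b⁻¹ (cj a⁻¹ x) ∈ A.sub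
    rw [mul_inv_rev, cj_mul]

theorem pr_smul_sp (g : GL (Fin 2) F) (A : Sp F) : pr F g • A = (cjS g A.sub : Submodule F (M2 F)) := rfl

/-- the preimage in the linear group -/
def pre (P : Subgroup (PG F)) : Subgroup (GL (Fin 2) F) := P.comap (pr F)

/-- the span of a set of invertible matrices -/
def spn (P : Subgroup (GL (Fin 2) F)) : Submodule F (M2 F) := Submodule.span F {x | ∃ g ∈ P, x = g.val}

theorem mem_spn {P : Subgroup (GL (Fin 2) F)} {g : GL (Fin 2) F} (h : g ∈ P) : g.val ∈ spn P :=
  Submodule.subset_span ⟨g, h, rfl⟩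

/-- the algebra of a group element: the span of the powers, i.e. of `1` and `g` -/
def sp1 (g : GL (Fin 2) F) : Submodule F (M2 F) := Submodule.span F {1, g.val}

/-- the normaliser of a subspace -/
def nz (A : Submodule F (M2 F)) : Subgroup (GL (Fin 2) F) where
  carrier := {g | cjS g A = A}
  mul_mem' := by
    intro g h hg hh
    show cjS (g * h) A = A
    have hg' : cjS g A = A := hg
    have hh' : cjS h A = A := hh
    refine Submodule.ext fun x => ?_
    rw [mem_cjS, mul_inv_rev, cj_mul, ← mem_cjS, hh', ← mem_cjS, hg']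
  one_mem' := by
    show cjS 1 A = A
    refine Submodule.ext fun x => ?_
    rw [mem_cjS, inv_one, cj_one]
  inv_mem' := by
    intro g hg
    show cjS g⁻¹ A = A
    have hg' : cjS g A = A := hg
    refine Submodule.ext fun x => ?_
    rw [mem_cjS, inv_inv]
    nth_rewrite 1 [← hg']
    rw [mem_cjS, ← cj_mul, inv_mul_cancel, cj_one]

theorem mem_nz {g : GL (Fin 2) F} {A : Submodule F (M2 F)} : g ∈ nz A ↔ cjS g A = A := Iff.rfl

end Pool.Agent.H76.GT
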