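import Mathlib.RingTheory.DedekindDomain.IntegralClosure
import Pool.Agent.H25.GF.Chart
import Pool.Agent.H76.GT.Pg

/-!
# H76 GT, FfD: Dedekind domains in function fields
-/

set_option autoImplicit false

namespace Pool.Agent.H76.GT

open Pool.Agent.H54.TT Polynomial IntermediateField
open scoped algebraAdjoinAdjoin

variable (k F : Type) [Field k] [Field F] [Algebra k F]

/-- The integral closure of the polynomial ring `k[x]` (mapped to `F` by `X ↦ x`) in `F` is a Dedekind domain with field of
fractions `F`. Proof. `k(x) = FractionRing k[X]` or `RatFunc k` maps to `F` as `x` is transcendental; Mathlib: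
`integralClosure.isDedekindDomain`, `integralClosure.isFractionRing_of_finite_extension`. Formulated with a ring `A` of its own.
-/
theorem exists_dedekind (x : F) (hx : Transcendental k x)
    (hfin : FiniteDimensional (IntermediateField.adjoin k {x}) F)
    (hsep : Algebra.IsSeparable (IntermediateField.adjoin k {x}) F) :
    ∃ (A : Type) (_ : CommRing A) (_ : IsDedekindDomain A) (_ : Algebra A F) (_ : IsFractionRing A F),
      (∃ a : A, algebraMap A F a = x) ∧ (∀ c : k, ∃ a : A, algebraMap A F a = algebraMap k F c) ∧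
      ∀ a : A, ∃ q : k[X][X], q.Monic ∧ (q.map (aeval (R := k) x : k[X] →ₐ[k] F).toRingHom).eval (algebraMap A F a) = 0 := by
  have h1 := Pool.Agent.H25.GF.ded_adjoin (κ := k) x
  have h2 : IsDedekindDomain (integralClosure (Algebra.adjoin k {x}) F) :=
    integralClosure.isDedekindDomain (Algebra.adjoin k {x}) k⟮x⟯ F
  have h3 : IsFractionRing (integralClosure (Algebra.adjoin k {x}) F) F :=
    integralClosure.isFractionRing_of_finite_extension k⟮x⟯ F
  refine ⟨integralClosure (Algebra.adjoin k {x}) F, inferInstance, h2, inferInstance, h3, ?_, ?_, ?_⟩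
  · exact ⟨algebraMap (Algebra.adjoin k {x}) _ ⟨x, Algebra.subset_adjoin rfl⟩, rfl⟩
  · intro c
    exact ⟨algebraMap (Algebra.adjoin k {x}) _ ⟨algebraMap k F c, Subalgebra.algebraMap_mem _ c⟩, rfl⟩
  · rintro ⟨a, ha⟩
    obtain ⟨p, hp, hpa⟩ := ha
    have hs : ∀ y : Algebra.adjoin k {x}, ∃ r : k[X], aeval x r = (y : F) := by
      rintro ⟨y, hy⟩
      rw [Algebra.adjoin_singleton_eq_range_aeval] at hy
      exact hy
    let f : k[X] →+* Algebra.adjoin k {x} :=
      { toFun := fun p => ⟨Polynomial.aeval x p, by
          rw [Algebra.adjoin_singleton_eq_range_aeval]; exact ⟨p, rfl⟩⟩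
        map_one' := Subtype.ext (map_one _)
        map_mul' := fun p q => Subtype.ext (map_mul _ _ _)
        map_zero' := Subtype.ext (map_zero _)
        map_add' := fun p q => Subtype.ext (map_add _ _ _) }
    have hf : Function.Surjective f := fun y => by
      obtain ⟨r, hr⟩ := hs y
      exact ⟨r, Subtype.ext hr⟩
    obtain ⟨q, hq1, -, hq2⟩ := Polynomial.lifts_and_natDegree_eq_and_monic
      (f := f) (p := p) ((Polynomial.mem_lifts p).2 (Polynomial.map_surjective f hf p)) hp
    refine ⟨q, hq2, ?_⟩
    have hc : (aeval (R := k) x : k[X] →ₐ[k] F).toRingHom = (algebraMap (Algebra.adjoin k {x}) F).comp f := by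
      ext y <;> rfl
    rw [hc, ← Polynomial.map_map, hq1, Polynomial.eval_map]
    exact hpa

end Pool.Agent.H76.GT
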