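import Pool.Agent.H76.GT.Pg

/-!
# H76 GT, FfI: integrality over the constants
-/

set_option autoImplicit false

namespace Pool.Agent.H76.GT

open Pool.Agent.H54.TT Polynomial

variable (k F : Type) [Field k] [Field F] [Algebra k F]

open scoped IntermediateField IntermediateField.algebraAdjoinAdjoin in
/-- the minimal polynomial over `k(x)` of an element integral over `k[x]` has coefficients in `k[x]` -/
private theorem coeff_of_integral (x : F) (hx : Transcendental k x) (y : F)
    (h1 : ∃ q : k[X][X], q.Monic ∧ (q.map (aeval (R := k) x : k[X] →ₐ[k] F).toRingHom).eval y = 0) :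
    ((minpoly k⟮x⟯ y).map (algebraMap k⟮x⟯ F)).Monic ∧
      ((minpoly k⟮x⟯ y).map (algebraMap k⟮x⟯ F)).eval y = 0 ∧
      ∀ i, ∃ a : k[X], ((minpoly k⟮x⟯ y).map (algebraMap k⟮x⟯ F)).coeff i = aeval x a := by
  obtain ⟨q, hq, hq0⟩ := h1
  have hic : IsIntegrallyClosed (Algebra.adjoin k {x}) :=
    IsIntegrallyClosed.of_equiv (Polynomial.algEquivOfTranscendental k x hx).toRingEquiv
  have hint : IsIntegral (Algebra.adjoin k {x}) y := by
    refine ⟨q.map (Polynomial.algEquivOfTranscendental k x hx).toRingEquiv.toRingHom, hq.map _, ?_⟩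
    rw [eval₂_map]
    rw [eval_map] at hq0
    have h : (algebraMap (Algebra.adjoin k {x}) F).comp
        (Polynomial.algEquivOfTranscendental k x hx).toRingEquiv.toRingHom =
        (aeval (R := k) x : k[X] →ₐ[k] F).toRingHom := by
      apply RingHom.ext
      intro p
      show (((Polynomial.algEquivOfTranscendental k x hx) p : Algebra.adjoin k {x}) : F) = aeval x p
      simp
    rw [h]
    exact hq0
  have hmin : minpoly k⟮x⟯ y = (minpoly (Algebra.adjoin k {x}) y).map
      (algebraMap (Algebra.adjoin k {x}) k⟮x⟯) :=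
    minpoly.isIntegrallyClosed_eq_field_fractions' k⟮x⟯ hint
  have hint' : IsIntegral k⟮x⟯ y := hint.tower_top
  refine ⟨(minpoly.monic hint').map _, ?_, ?_⟩
  · rw [eval_map]
    exact minpoly.aeval _ _
  · intro i
    rw [hmin, coeff_map, coeff_map]
    obtain ⟨c, hc⟩ : ∃ c : Algebra.adjoin k {x}, c = (minpoly (Algebra.adjoin k {x}) y).coeff i := ⟨_, rfl⟩
    rw [← hc]
    have h3 : (algebraMap k⟮x⟯ F) (algebraMap (Algebra.adjoin k {x}) k⟮x⟯ c) = (c : F) := rfl
    rw [h3]
    obtain ⟨p, hp⟩ := (Algebra.adjoin_singleton_eq_range_aeval k x ▸ c.2 : (c : F) ∈ (aeval (R := k) x).range)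
    exact ⟨p, hp.symm⟩

/-- `k[x] ∩ k[x⁻¹] = k` -/
private theorem const_of_both (x : F) (hx : Transcendental k x) (a b : k[X])
    (h : aeval x a = aeval x⁻¹ b) : ∃ c : k, aeval x a = algebraMap k F c := by
  have hx0 : x ≠ 0 := by
    rintro rfl
    exact hx (isAlgebraic_zero)
  have hinj := transcendental_iff_injective.1 hx
  let _ : Invertible (x⁻¹) := invertibleOfNonzero (inv_ne_zero hx0)
  have h1 := eval₂_reverse_mul_pow (algebraMap k F) (x⁻¹) b
  have h2 : ⅟(x⁻¹) = x := by
    rw [invOf_eq_inv, inv_inv]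
  rw [h2] at h1
  have h3 : aeval x (X ^ b.natDegree * a) = aeval x b.reverse := by
    rw [map_mul, map_pow, aeval_X, h, aeval_def, ← h1, aeval_def]
    have h4 : x ^ b.natDegree * (x⁻¹) ^ b.natDegree = 1 := by
      rw [← mul_pow, mul_inv_cancel₀ hx0, one_pow]
    calc x ^ b.natDegree * (eval₂ (algebraMap k F) x b.reverse * x⁻¹ ^ b.natDegree)
        = (x ^ b.natDegree * x⁻¹ ^ b.natDegree) * eval₂ (algebraMap k F) x b.reverse := by ring
      _ = eval₂ (algebraMap k F) x b.reverse := by rw [h4, one_mul]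
  have h5 := hinj h3
  rcases eq_or_ne a 0 with rfl | ha
  · exact ⟨0, by simp⟩
  · have h6 : (X ^ b.natDegree * a).natDegree = b.natDegree + a.natDegree := by
      rw [natDegree_mul (pow_ne_zero _ X_ne_zero) ha, natDegree_X_pow]
    have h7 : b.reverse.natDegree ≤ b.natDegree := reverse_natDegree_le b
    rw [← h5, h6] at h7
    have h8 : a.natDegree = 0 := by omega
    refine ⟨a.coeff 0, ?_⟩
    rw [eq_C_of_natDegree_eq_zero h8, aeval_C, coeff_C_zero]

/-- An element which is integral over `k[x]` and over `k[x⁻¹]` is integral over `k`. Proof. Let `m` be its minimal polynomial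
over `k(x)`. Its coefficients are in `k[x]` (`k[x]` is integrally closed: `minpoly.isIntegrallyClosed_eq_field_fractions'`), and
for the same reason in `k[x⁻¹]`. And `k[x] ∩ k[x⁻¹] = k` in `k(x)` (degrees). -/
theorem isIntegral_of_both (x : F) (hx : Transcendental k x) (y : F)
    (h1 : ∃ q : k[X][X], q.Monic ∧ (q.map (aeval (R := k) x : k[X] →ₐ[k] F).toRingHom).eval y = 0)
    (h2 : ∃ q : k[X][X], q.Monic ∧ (q.map (aeval (R := k) x⁻¹ : k[X] →ₐ[k] F).toRingHom).eval y = 0) : IsIntegral k y := by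
  have hx' : Transcendental k x⁻¹ := fun h => hx (by simpa using h.inv)
  obtain ⟨hm, he, hc⟩ := coeff_of_integral k F x hx y h1
  obtain ⟨-, -, hc'⟩ := coeff_of_integral k F x⁻¹ hx' y h2
  have hL : IntermediateField.adjoin k {x} = IntermediateField.adjoin k {x⁻¹} := by
    apply le_antisymm
    · rw [IntermediateField.adjoin_simple_le_iff]
      have := (IntermediateField.adjoin k {x⁻¹}).inv_mem (IntermediateField.mem_adjoin_simple_self k x⁻¹)
      rwa [inv_inv] at this
    · rw [IntermediateField.adjoin_simple_le_iff]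
      exact (IntermediateField.adjoin k {x}).inv_mem (IntermediateField.mem_adjoin_simple_self k x)
  have hgen : ∀ L L' : IntermediateField k F, L = L' →
      (minpoly L y).map (algebraMap L F) = (minpoly L' y).map (algebraMap L' F) := by
    rintro L L' rfl
    rfl
  have hP := hgen _ _ hL
  obtain ⟨P, hPdef⟩ : ∃ P : F[X], P = (minpoly (IntermediateField.adjoin k {x}) y).map
      (algebraMap (IntermediateField.adjoin k {x}) F) := ⟨_, rfl⟩
  rw [← hPdef] at hm he hc hP
  rw [← hP] at hc'
  have hlift : P ∈ Polynomial.lifts (algebraMap k F) := by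
    rw [lifts_iff_coeff_lifts]
    intro i
    obtain ⟨a, ha⟩ := hc i
    obtain ⟨b, hb⟩ := hc' i
    obtain ⟨c, hcc⟩ := const_of_both k F x hx a b (by rw [← ha, hb])
    exact ⟨c, by rw [ha, hcc]⟩
  obtain ⟨Q, hQ, -, hQm⟩ := lifts_and_degree_eq_and_monic hlift hm
  refine ⟨Q, hQm, ?_⟩
  rw [← eval_map, hQ]
  exact he

end Pool.Agent.H76.GT
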