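import Pool.Agent.H76.GT.Dk
import Pool.Agent.H76.GT.PlD
import Pool.Agent.H76.GT.FfD
import Pool.Agent.H76.GT.FfI
import Pool.Agent.H76.GT.FfC

/-!
# H76 GT, Ff: places of function fields
-/

set_option autoImplicit false

namespace Pool.Agent.H76.GT

open Pool.Agent.H54.TT Polynomial

variable (k F : Type) [Field k] [Field F] [Algebra k F]

/-- elements integral over `k` are in `A` -/
private theorem mem_of_integral {A : Type} [CommRing A] [IsDedekindDomain A] [Algebra A F] [IsFractionRing A F]
    (hA : ∀ c : k, ∃ a : A, algebraMap A F a = algebraMap k F c) {y : F} (hy : IsIntegral k y) :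
    ∃ a : A, algebraMap A F a = y := by
  have hinj : Function.Injective (algebraMap A F) := IsFractionRing.injective A F
  obtain ⟨e, he⟩ : ∃ e : A ≃+* (algebraMap A F).range, ∀ a, (e a : F) = algebraMap A F a :=
    ⟨RingEquiv.ofBijective (algebraMap A F).rangeRestrict
      ⟨fun a b hab => hinj (congrArg Subtype.val hab), (algebraMap A F).rangeRestrict_surjective⟩, fun a => rfl⟩
  obtain ⟨p, hp, hp0⟩ := hy
  let φ : k →+* A := (e.symm : (algebraMap A F).range →+* A).comp
    ((algebraMap k F).codRestrict (algebraMap A F).range hA)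
  have hφ : (algebraMap A F).comp φ = algebraMap k F := by
    ext c
    show algebraMap A F (e.symm _) = _
    rw [← he, RingEquiv.apply_symm_apply]
    rfl
  have hint : IsIntegral A y := ⟨p.map φ, hp.map φ, by rw [eval₂_map, hφ]; exact hp0⟩
  exact IsIntegrallyClosed.isIntegral_iff.1 hint

/-- The places. Proof. `exists_dedekind` for `x` and for `x⁻¹` gives `A`, `B`; `ι` is the sum of the two spectra. Everywhere
integral elements come from `A` and from `B` (`dkv_int`), so they are integral over `k` (`isIntegral_of_both`), and conversely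
elements integral over `k` are integral at all places (in `A`, `B`: integrally closed). An inverse of an integral element of
`F` over the field `k` is integral. -/
theorem exists_places (x : F) (hx : Transcendental k x)
    (hfin : FiniteDimensional (IntermediateField.adjoin k {x}) F)
    (hsep : Algebra.IsSeparable (IntermediateField.adjoin k {x}) F) :
    ∃ (ι : Type) (v : ι → F → ℤ) (h : PlaceSys F ι v), ∀ y : F, y ∈ kap h ↔ IsIntegral k y := by
  have hadj : IntermediateField.adjoin k {x⁻¹} = IntermediateField.adjoin k {x} := by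
    apply le_antisymm
    · rw [IntermediateField.adjoin_simple_le_iff]
      exact inv_mem (IntermediateField.mem_adjoin_simple_self k x)
    · rw [IntermediateField.adjoin_simple_le_iff]
      have h1 := inv_mem (IntermediateField.mem_adjoin_simple_self k x⁻¹)
      rwa [inv_inv] at h1
  have hx' : Transcendental k x⁻¹ := by
    intro hc
    apply hx
    have h1 := hc.inv
    rwa [inv_inv] at h1
  have hfin' : FiniteDimensional (IntermediateField.adjoin k {x⁻¹}) F := by
    rw [hadj]
    exact hfin
  have hsep' : Algebra.IsSeparable (IntermediateField.adjoin k {x⁻¹}) F := by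
    rw [hadj]
    exact hsep
  obtain ⟨A, iA1, iA2, iA3, iA4, -, hAk, hAi⟩ := exists_dedekind k F x hx hfin hsep
  obtain ⟨B, iB1, iB2, iB3, iB4, -, hBk, hBi⟩ := exists_dedekind k F x⁻¹ hx' hfin' hsep'
  let v : IsDedekindDomain.HeightOneSpectrum A ⊕ IsDedekindDomain.HeightOneSpectrum B → F → ℤ :=
    Sum.elim (dkv A F) (dkv B F)
  have hint : ∀ y : F, y ≠ 0 → (∀ i, 0 ≤ v i y) → IsIntegral k y := by
    intro y hy h
    obtain ⟨a, ha⟩ := dkv_int A F y hy (fun p => h (Sum.inl p))
    obtain ⟨b, hb⟩ := dkv_int B F y hy (fun p => h (Sum.inr p))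
    apply isIntegral_of_both k F x hx y
    · rw [← ha]
      exact hAi a
    · rw [← hb]
      exact hBi b
  have hnn : ∀ y : F, y ≠ 0 → IsIntegral k y → ∀ i, 0 ≤ v i y := by
    intro y hy h i
    rcases i with p | p
    · obtain ⟨a, rfl⟩ := mem_of_integral k F hAk h
      exact dkv_nonneg A F a hy p
    · obtain ⟨b, rfl⟩ := mem_of_integral k F hBk h
      exact dkv_nonneg B F b hy p
  have hdv : ∀ i, IsDV (v i) := by
    intro i
    rcases i with p | p
    · exact dkv_isDV A F p
    · exact dkv_isDV B F p
  have hP : PlaceSys F (IsDedekindDomain.HeightOneSpectrum A ⊕ IsDedekindDomain.HeightOneSpectrum B) v := by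
    refine ⟨hdv, ?_, ?_⟩
    · intro y hy
      have h1 := (dkv_fin A F y hy).image (Sum.inl (β := IsDedekindDomain.HeightOneSpectrum B))
      have h2 := (dkv_fin B F y hy).image (Sum.inr (α := IsDedekindDomain.HeightOneSpectrum A))
      refine (h1.union h2).subset ?_
      rintro (p | p) hp
      · exact Or.inl ⟨p, hp, rfl⟩
      · exact Or.inr ⟨p, hp, rfl⟩
    · intro y hy h i
      have h1 : IsIntegral k y⁻¹ := (hint y hy h).isAlgebraic.inv.isIntegral
      have h2 := hnn y⁻¹ (inv_ne_zero hy) h1 i
      rw [(hdv i).inv hy] at h2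
      have h3 := h i
      omega
  refine ⟨_, v, hP, fun y => ?_⟩
  by_cases hy : y = 0
  · subst hy
    exact ⟨fun _ => isIntegral_zero, fun _ => (kap hP).zero_mem⟩
  · constructor
    · intro h
      exact hint y hy (fun i => h i hy)
    · intro h i _
      exact hnn y hy h i

end Pool.Agent.H76.GT
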