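import Pool.Agent.H76.GT.Ind
import Pool.Agent.H76.GT.Ff
import Mathlib.FieldTheory.SeparablyGenerated
import Mathlib.FieldTheory.FinTrdeg
import Mathlib.FieldTheory.AlgebraicClosure
import Mathlib.SetTheory.Cardinal.Subfield

/-!
# H76 GT, FldS: the step of the induction on the transcendence degree
-/

set_option autoImplicit false

namespace Pool.Agent.H76.GT

open Pool.Agent.H54.TT Pool.Agent.H98.FJ

section fls

open IntermediateField Cardinal

/-- finitely generated fields over countable fields are countable -/
private theorem fls_cnt (k F : Type) [Field k] [Countable k] [Field F] [Algebra k F]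
    [Algebra.EssFiniteType k F] : Countable F := by
  obtain ⟨s, hs⟩ := IntermediateField.fg_top k F
  have h1 : #(adjoin k (s : Set F)) ≤ ℵ₀ := by
    refine (IntermediateField.cardinalMk_adjoin_le k (s : Set F)).trans ?_
    refine max_le (max_le ?_ ?_) le_rfl
    · exact Cardinal.mk_le_aleph0
    · exact Cardinal.mk_le_aleph0
  rw [hs] at h1
  have h2 : Countable (⊤ : IntermediateField k F) := Cardinal.mk_le_aleph0_iff.1 h1
  exact (IntermediateField.topEquiv (F := k) (E := F)).symm.toEquiv.countable_iff.2 h2

/-- a separating transcendence basis, the last element singled out -/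
private theorem fls_sep (k F : Type) [Field k] [PerfectField k] [Field F] [Algebra k F]
    [Algebra.EssFiniteType k F] (m : ℕ) (hF : Algebra.trdeg k F = m + 1) :
    ∃ (K : IntermediateField k F) (x : F), Algebra.EssFiniteType k K ∧ Algebra.trdeg k K = m ∧
      Transcendental K x ∧ FiniteDimensional (adjoin K {x}) F ∧
      Algebra.IsSeparable (adjoin K {x}) F := by
  classical
  obtain ⟨s, hs, hsep⟩ := exists_isTranscendenceBasis_and_isSeparable_of_perfectField k F
  have hcard : (s.card : Cardinal) = m + 1 := by
    rw [← hF, ← hs.cardinalMk_eq_trdeg]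
    simp
  have hne : s.Nonempty := by
    rw [← Finset.card_pos]
    have : s.card = m + 1 := by exact_mod_cast hcard
    omega
  obtain ⟨x, hx⟩ := hne
  obtain ⟨s', hs'⟩ : ∃ s', s' = s.erase x := ⟨_, rfl⟩
  obtain ⟨K, hK⟩ : ∃ K : IntermediateField k F, K = adjoin k (s' : Set F) := ⟨_, rfl⟩
  have hsx : (s' : Set F) ∪ {x} = s := by
    rw [hs']
    simp [hx]
  have hB : (adjoin K {x}).restrictScalars k = adjoin k (s : Set F) := by
    subst hK
    rw [adjoin_adjoin_left, hsx]
  have hsepB : Algebra.IsSeparable (adjoin K {x}) F := by
    have h1 : Algebra.IsSeparable ((adjoin K {x}).restrictScalars k) F := by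
      rw [hB]
      exact hsep
    exact h1
  have hfin : FiniteDimensional (adjoin K {x}) F := by
    have e1 : Algebra.EssFiniteType K F := Algebra.EssFiniteType.of_comp k K F
    have e2 : Algebra.EssFiniteType (adjoin K {x}) F := Algebra.EssFiniteType.of_comp K (adjoin K {x}) F
    have : Algebra.IsAlgebraic (adjoin K {x}) F := inferInstance
    exact Algebra.finite_of_essFiniteType_of_isAlgebraic
  have htr : Transcendental K x := by
    have h1 := hs.1.transcendental_adjoin (s := {j | (j : F) ≠ x}) (i := ⟨x, hx⟩) (by simp)
    have h2 : (fun j : s => (j : F)) '' {j | (j : F) ≠ x} = (s' : Set F) := by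
      ext y
      rw [hs']
      simp
      tauto
    rw [h2] at h1
    subst hK
    intro h3
    exact h1 (isAlgebraic_adjoin_iff.1 h3)
  refine ⟨K, x, ?_, ?_, htr, hfin, hsepB⟩
  · rw [essFiniteType_iff, hK]
    exact fg_adjoin_finset s'
  · have h1 : Algebra.trdeg k K + Algebra.trdeg K F = Algebra.trdeg k F := trdeg_add_eq k K
    have h2 : Algebra.trdeg K F = 1 := by
      have h3 : IsTranscendenceBasis K (fun _ : Unit => x) := by
        rw [isTranscendenceBasis_iff_algebraicIndependent_isAlgebraic]
        refine ⟨algebraicIndependent_unique_type_iff.2 htr, ?_⟩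
        rw [Set.range_const]
        have h4 : Algebra.IsAlgebraic (adjoin K {x}) F := inferInstance
        rw [isAlgebraic_adjoin_iff_top] at h4
        exact h4
      rw [← h3.cardinalMk_eq_trdeg]
      simp
    rw [h2, hF] at h1
    exact Cardinal.add_one_inj.1 h1

end fls

/-- `F` is finitely generated over the perfect field `k` (prime field), `m` is the transcendence degree -/
theorem pg_step {C : (G : Type) → [Group G] → Prop} (hC : Inherits C) (hT : Transfer C)
    (hsol : ∀ (G : Type) [Group G], IsSolvable G → C G) (k : Type) [Field k] [PerfectField k] [Countable k]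
    (m : ℕ) (hm : ∀ (K : Type) [Field K] [Algebra k K] [Algebra.EssFiniteType k K], Algebra.trdeg k K = m → C (PG K))
    (F : Type) [Field F] [Algebra k F] [Algebra.EssFiniteType k F] (hF : Algebra.trdeg k F = m + 1) : C (PG F) := by
  have hcF : Countable F := fls_cnt k F
  obtain ⟨K0, x, hfg, htr, hx, hfin, hsep⟩ := fls_sep k F m hF
  obtain ⟨ι, v, h, hkap⟩ := exists_places K0 F x hx hfin hsep
  have hfc : FiniteDimensional K0 (algebraicClosure K0 F) :=
    finite_constants K0 F x hx hfin (algebraicClosure K0 F) fun y hy => mem_algebraicClosure_iff'.1 hy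
  have heq : kap h = (algebraicClosure K0 F).toSubfield := by
    ext y
    rw [hkap]
    exact mem_algebraicClosure_iff'.symm
  have key : ∀ (S : Subfield F), S = (algebraicClosure K0 F).toSubfield →
      ∀ (K : Type) [Field K] [Algebra S K] [Module.Finite S K], C (PG K) := by
    intro S hS
    subst hS
    intro K _ alg fin
    let aL : Algebra (algebraicClosure K0 F) K := alg
    have fL : Module.Finite (algebraicClosure K0 F) K := fin
    let a0 : Algebra K0 K := ((algebraMap (algebraicClosure K0 F) K).comp
      (algebraMap K0 (algebraicClosure K0 F))).toAlgebra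
    have t0 : IsScalarTower K0 (algebraicClosure K0 F) K := IsScalarTower.of_algebraMap_eq fun _ => rfl
    have f0 : Module.Finite K0 K := Module.Finite.trans (algebraicClosure K0 F) K
    let ak : Algebra k K := ((algebraMap K0 K).comp (algebraMap k K0)).toAlgebra
    have tk : IsScalarTower k K0 K := IsScalarTower.of_algebraMap_eq fun _ => rfl
    have e1 : Algebra.EssFiniteType K0 K := inferInstance
    have e2 : Algebra.EssFiniteType k K := Algebra.EssFiniteType.comp k K0 K
    refine hm K ?_
    have h1 : Algebra.trdeg k K0 + Algebra.trdeg K0 K = Algebra.trdeg k K := trdeg_add_eq k K0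
    have h2 : Algebra.trdeg K0 K = 0 := trdeg_eq_zero_iff.2 inferInstance
    rw [← h1, htr, h2, add_zero]
  exact pg_mem h hC hT hsol fun K _ _ _ _ => key (kap h) heq K

end Pool.Agent.H76.GT
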