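import Pool.Agent.H76.GT.FldN
import Pool.Agent.H76.GT.FldS

/-!
# H76 GT, Fld: all fields
-/

set_option autoImplicit false

namespace Pool.Agent.H76.GT

open Pool.Agent.H54.TT Pool.Agent.H98.FJ

/-- a group with a central kernel over a cyclic group is solvable -/
private theorem solv_of_central {A B : Type} [Group A] [Group B] (f : A →* B) (hk : ∀ a b : A, f a = 1 → a * b = b * a)
    [Group.IsSolvable B] : Group.IsSolvable A := by
  have h1 : Group.IsSolvable f.ker := Group.isSolvable_of_comm fun a b => Subtype.ext (hk a.1 b.1 a.2)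
  exact Group.isSolvable_of_ker_le_range f.ker.subtype f (by rw [Subgroup.range_subtype])

/-- from the projective group to the linear group -/
private theorem gl_of_pg {C : (G : Type) → [Group G] → Prop} (hC : Inherits C) (hE : Extension C)
    (hsol : ∀ (G : Type) [Group G], Group.IsSolvable G → C G) (K : Type) [Field K] (h : C (PG K)) : C (GL (Fin 2) K) := by
  refine hE (GL (Fin 2) K) (PG K) (pr K) pr_surj h ?_
  intro V hV
  obtain ⟨v, hv⟩ := hV
  have hs : Function.Surjective ((pr K).subgroupComap V) :=
    MonoidHom.subgroupComap_surjective_of_surjective (pr K) V pr_surj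
  let H : Subgroup (V.comap (pr K)) := (Subgroup.zpowers v).comap ((pr K).subgroupComap V)
  have hfi : H.FiniteIndex := by
    refine ⟨?_⟩
    show ((Subgroup.zpowers v).comap ((pr K).subgroupComap V)).index ≠ 0
    rw [Subgroup.index_comap_of_surjective _ hs]
    exact hv.index_ne_zero
  refine hC.index _ H hfi (hsol _ ?_)
  have hz : Group.IsSolvable (Subgroup.zpowers v) := by
    refine Group.isSolvable_of_comm ?_
    rintro ⟨_, m, rfl⟩ ⟨_, n, rfl⟩
    exact Subtype.ext (((Commute.refl v).zpow_zpow m n).eq)
  refine solv_of_central (((pr K).subgroupComap V).subgroupComap (Subgroup.zpowers v)) ?_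
  intro a b ha
  have h1 : pr K a.1.1 = 1 := congrArg (fun t => t.1.1) ha
  have h2 : a.1.1 ∈ Subgroup.center (GL (Fin 2) K) := (QuotientGroup.eq_one_iff _).1 h1
  apply Subtype.ext
  apply Subtype.ext
  exact (Subgroup.mem_center_iff.1 h2 b.1.1).symm

/-- a field is the directed union of its finitely generated subfields -/
private theorem gl_union {C : (G : Type) → [Group G] → Prop} (hC : Inherits C) (k : Type) [Field k] (F : Type) [Field F]
    [Algebra k F] (h : ∀ (K : Type) [Field K] [Algebra k K] [Algebra.EssFiniteType k K], C (GL (Fin 2) K)) :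
    C (GL (Fin 2) F) := by
  classical
  have hinj : ∀ (K : IntermediateField k F), Function.Injective
      (Matrix.GeneralLinearGroup.map (n := Fin 2) (algebraMap K F)) := by
    intro K a b hab
    apply Units.ext
    ext i j
    have h1 : (Matrix.GeneralLinearGroup.map (n := Fin 2) (algebraMap K F) a).val i j
        = (Matrix.GeneralLinearGroup.map (n := Fin 2) (algebraMap K F) b).val i j := by rw [hab]
    exact h1
  refine hC.union (ι := Finset F) (fun s =>
    (Matrix.GeneralLinearGroup.map (n := Fin 2) (algebraMap (IntermediateField.adjoin k (s : Set F)) F)).range) ?_ ?_ ?_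
  · intro s t hst
    rintro _ ⟨g, rfl⟩
    have hle : IntermediateField.adjoin k (s : Set F) ≤ IntermediateField.adjoin k (t : Set F) :=
      IntermediateField.adjoin.mono k _ _ (by exact_mod_cast hst)
    refine ⟨Matrix.GeneralLinearGroup.map (n := Fin 2) (IntermediateField.inclusion hle).toRingHom g, ?_⟩
    apply Units.ext
    ext i j
    rfl
  · intro g
    let s : Finset F := Finset.univ.image fun q : Fin 2 × Fin 2 => g.val q.1 q.2
    refine ⟨s, ?_⟩
    have hm : ∀ i j, g.val i j ∈ IntermediateField.adjoin k (s : Set F) := by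
      intro i j
      apply IntermediateField.subset_adjoin
      exact Finset.mem_coe.2 (Finset.mem_image.2 ⟨(i, j), Finset.mem_univ _, rfl⟩)
    let A : Matrix (Fin 2) (Fin 2) (IntermediateField.adjoin k (s : Set F)) := Matrix.of fun i j => ⟨g.val i j, hm i j⟩
    have hA : (algebraMap (IntermediateField.adjoin k (s : Set F)) F).mapMatrix A = g.val := by
      ext i j
      rfl
    have hdet : A.det ≠ 0 := by
      intro h0
      have h1 : (algebraMap (IntermediateField.adjoin k (s : Set F)) F) A.det = g.val.det := by
        rw [RingHom.map_det, hA]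
      rw [h0, map_zero] at h1
      have h2 : IsUnit g.val.det := (Matrix.isUnit_iff_isUnit_det _).1 g.isUnit
      rw [← h1] at h2
      exact not_isUnit_zero h2
    refine ⟨Matrix.GeneralLinearGroup.mkOfDetNeZero A hdet, ?_⟩
    apply Units.ext
    exact hA
  · intro s
    have h1 : Algebra.EssFiniteType k (IntermediateField.adjoin k (s : Set F)) :=
      IntermediateField.essFiniteType_iff.2 (IntermediateField.fg_adjoin_finset s)
    exact hC.iso _ _ (MonoidHom.ofInjective (hinj _)) (h (IntermediateField.adjoin k (s : Set F)))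

/-- Proof. Induction on the transcendence degree (finite for finitely generated fields) with `pg_step` (`ℚ` is perfect); degree
zero: `F` is algebraic and finitely generated, so finite over `ℚ`, `pg_number`. -/
theorem pg_fg_rat {C : (G : Type) → [Group G] → Prop} (hC : Inherits C) (hT : Transfer C)
    (hsol : ∀ (G : Type) [Group G], IsSolvable G → C G) (hQ : ∀ n : ℕ, C (GL (Fin n) ℚ))
    (F : Type) [Field F] [Algebra ℚ F] [Algebra.EssFiniteType ℚ F] : C (PG F) := by
  have key : ∀ n : ℕ, ∀ (F : Type) [Field F] [Algebra ℚ F] [Algebra.EssFiniteType ℚ F],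
      Algebra.trdeg ℚ F = n → C (PG F) := by
    intro n
    induction n with
    | zero =>
      intro F _ _ _ h0
      have h1 : Algebra.IsAlgebraic ℚ F := trdeg_eq_zero_iff.1 (by rw [h0, Nat.cast_zero])
      have h2 : FiniteDimensional ℚ F := Algebra.finite_of_essFiniteType_of_isAlgebraic
      exact pg_number hC hQ F
    | succ m ih =>
      intro F _ _ _ hm
      exact pg_step hC hT hsol ℚ m ih F (by rw [hm, Nat.cast_add, Nat.cast_one])
  obtain ⟨n, hn⟩ := Cardinal.lt_aleph0.1 (trdeg_lt_aleph0 ℚ F)
  exact key n F hn

/-- Proof. As `pg_fg_rat`; in degree zero `F` is finite, and so is the group. -/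
theorem pg_fg_zmod {C : (G : Type) → [Group G] → Prop} (hC : Inherits C) (hT : Transfer C)
    (hsol : ∀ (G : Type) [Group G], IsSolvable G → C G) (p : ℕ) [Fact p.Prime]
    (F : Type) [Field F] [Algebra (ZMod p) F] [Algebra.EssFiniteType (ZMod p) F] : C (PG F) := by
  have key : ∀ n : ℕ, ∀ (F : Type) [Field F] [Algebra (ZMod p) F] [Algebra.EssFiniteType (ZMod p) F],
      Algebra.trdeg (ZMod p) F = n → C (PG F) := by
    intro n
    induction n with
    | zero =>
      intro F _ _ _ h0
      have h1 : Algebra.IsAlgebraic (ZMod p) F := trdeg_eq_zero_iff.1 (by rw [h0, Nat.cast_zero])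
      have h2 : Module.Finite (ZMod p) F := Algebra.finite_of_essFiniteType_of_isAlgebraic
      have h3 : Finite F := Module.finite_of_finite (ZMod p)
      have h4 : Finite (PG F) := Finite.of_surjective _ (pr_surj (F := F))
      exact hC.fin _ h4
    | succ m ih =>
      intro F _ _ _ hm
      exact pg_step hC hT hsol (ZMod p) m ih F (by rw [hm, Nat.cast_add, Nat.cast_one])
  obtain ⟨n, hn⟩ := Cardinal.lt_aleph0.1 (trdeg_lt_aleph0 (ZMod p) F)
  exact key n F hn

/-- Proof. `F` is the directed union of its finitely generated subfields; `PG` of a subfield maps injectively to `PG F`. Or: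
`GL₂(F)` is the directed union of the groups `GL₂(K)`, and `GL₂(K) → PG K` has a central kernel (`Extension`, solvable groups,
virtually solvable by finite index). -/
theorem gl_field {C : (G : Type) → [Group G] → Prop} (hC : Inherits C) (hE : Extension C) (hT : Transfer C)
    (hsol : ∀ (G : Type) [Group G], IsSolvable G → C G) (hQ : ∀ n : ℕ, C (GL (Fin n) ℚ)) (F : Type) [Field F] :
    C (GL (Fin 2) F) := by
  rcases CharP.exists' F with h0 | ⟨p, hp, hpF⟩
  · let _ : Algebra ℚ F := DivisionRing.toRatAlgebra
    exact gl_union hC ℚ F fun K _ _ _ => gl_of_pg hC hE hsol K (pg_fg_rat hC hT hsol hQ K)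
  · let _ : Algebra (ZMod p) F := ZMod.algebra F p
    exact gl_union hC (ZMod p) F fun K _ _ _ => gl_of_pg hC hE hsol K (pg_fg_zmod hC hT hsol p K)

end Pool.Agent.H76.GT
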