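import Pool.Agent.H76.GT.Pg

/-!
# H76 GT, AlgA: spans of groups of matrices
-/

set_option autoImplicit false

namespace Pool.Agent.H76.GT

variable {F : Type} [Field F]

/-- `A` is a subalgebra -/
structure IsAlg (A : Submodule F (M2 F)) : Prop where
  one : (1 : M2 F) ∈ A
  mul : ∀ x ∈ A, ∀ y ∈ A, x * y ∈ A

/-- Proof. `Submodule.span_induction` twice. -/
theorem spn_alg (P : Subgroup (GL (Fin 2) F)) : IsAlg (spn P) := by
  refine ⟨?_, fun x hx => ?_⟩
  · have h : ((1 : GL (Fin 2) F)).val ∈ spn P := mem_spn P.one_mem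
    simpa using h
  · unfold spn at hx
    induction hx using Submodule.span_induction with
    | mem x hx =>
      obtain ⟨g, hg, rfl⟩ := hx
      intro y hy
      unfold spn at hy
      induction hy using Submodule.span_induction with
      | mem y hy =>
        obtain ⟨h, hh, rfl⟩ := hy
        have := mem_spn (P.mul_mem hg hh)
        rwa [Units.val_mul] at this
      | zero => rw [mul_zero]; exact Submodule.zero_mem _
      | add y z _ _ ihy ihz => rw [mul_add]; exact Submodule.add_mem _ ihy ihz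
      | smul c y _ ihy => rw [Matrix.mul_smul]; exact Submodule.smul_mem _ c ihy
    | zero => intro y _; rw [zero_mul]; exact Submodule.zero_mem _
    | add x z _ _ ihx ihz => intro y hy; rw [add_mul]; exact Submodule.add_mem _ (ihx y hy) (ihz y hy)
    | smul c x _ ihx => intro y hy; rw [Matrix.smul_mul]; exact Submodule.smul_mem _ c (ihx y hy)

theorem spn_mono {P Q : Subgroup (GL (Fin 2) F)} (h : P ≤ Q) : spn P ≤ spn Q := by
  unfold spn
  refine Submodule.span_mono ?_
  rintro x ⟨g, hg, rfl⟩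
  exact ⟨g, h hg, rfl⟩

private theorem cj_inv (g : GL (Fin 2) F) (x : M2 F) : cj g (cj g⁻¹ x) = x := by
  rw [← cj_mul, mul_inv_cancel, cj_one]

private theorem cj_inv' (g : GL (Fin 2) F) (x : M2 F) : cj g⁻¹ (cj g x) = x := by
  rw [← cj_mul, inv_mul_cancel, cj_one]

/-- conjugation as a linear equivalence -/
private def cjL (g : GL (Fin 2) F) : M2 F ≃ₗ[F] M2 F where
  toFun := cj g
  map_add' x y := by
    unfold cj
    rw [mul_add, add_mul]
  map_smul' c x := by
    unfold cj
    rw [Matrix.mul_smul, Matrix.smul_mul]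
    rfl
  invFun := cj g⁻¹
  left_inv := cj_inv' g
  right_inv := cj_inv g

private theorem cjS_map (g : GL (Fin 2) F) (A : Submodule F (M2 F)) :
    cjS g A = A.map (cjL g : M2 F →ₗ[F] M2 F) := by
  ext x
  rw [mem_cjS, Submodule.mem_map]
  constructor
  · intro h
    exact ⟨cj g⁻¹ x, h, cj_inv g x⟩
  · rintro ⟨y, hy, rfl⟩
    change cj g⁻¹ (cj g y) ∈ A
    rwa [cj_inv']

theorem spn_conj (g : GL (Fin 2) F) (P Q : Subgroup (GL (Fin 2) F)) (h : ∀ x, x ∈ Q ↔ g⁻¹ * x * g ∈ P) :
    spn Q = cjS g (spn P) := by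
  rw [cjS_map]
  unfold spn
  rw [Submodule.map_span]
  congr 1
  ext x
  constructor
  · rintro ⟨q, hq, rfl⟩
    refine ⟨(g⁻¹ * q * g).val, ⟨g⁻¹ * q * g, (h q).1 hq, rfl⟩, ?_⟩
    change g.val * (g⁻¹ * q * g).val * (g⁻¹).val = q.val
    rw [← Units.val_mul, ← Units.val_mul]
    congr 1
    group
  · rintro ⟨y, ⟨p, hp, rfl⟩, rfl⟩
    refine ⟨g * p * g⁻¹, (h _).2 ?_, ?_⟩
    · have e : g⁻¹ * (g * p * g⁻¹) * g = p := by group
      rwa [e]
    · change g.val * p.val * (g⁻¹).val = _
      rw [← Units.val_mul, ← Units.val_mul]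

theorem finrank_cjS (g : GL (Fin 2) F) (A : Submodule F (M2 F)) : Module.finrank F (cjS g A) = Module.finrank F A := by
  rw [cjS_map]
  exact LinearEquiv.finrank_map_eq (cjL g) A

theorem finrank_le_four (A : Submodule F (M2 F)) : Module.finrank F A ≤ 4 := by
  have h : Module.finrank F (M2 F) = 4 := by
    rw [Module.finrank_matrix]
    simp
  rw [← h]
  exact Submodule.finrank_le A

end Pool.Agent.H76.GT
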