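import Pool.Agent.H76.GT.AlgA

/-!
# H76 GT, AlgA2: the algebra of one element
-/

set_option autoImplicit false

namespace Pool.Agent.H76.GT

variable {F : Type} [Field F]

private theorem mem_sp1 {g : GL (Fin 2) F} {x : M2 F} :
    x ∈ sp1 g ↔ ∃ a b : F, a • (1 : M2 F) + b • g.val = x := Submodule.mem_span_pair

private theorem sp1_sq (g : M2 F) :
    g * g = (g 0 0 + g 1 1) • g + (g 0 1 * g 1 0 - g 0 0 * g 1 1) • (1 : M2 F) := by
  ext i j
  fin_cases i <;> fin_cases j <;>
    simp only [Fin.zero_eta, Fin.mk_one, Fin.isValue, Matrix.mul_apply, Fin.sum_univ_two, Matrix.add_apply,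
      Matrix.smul_apply, smul_eq_mul, Matrix.one_apply_eq, ne_eq, zero_ne_one, not_false_eq_true,
      Matrix.one_apply_ne, one_ne_zero] <;> ring

/-- `sp1 g` is commutative and is a subalgebra (Cayley-Hamilton for two by two matrices) -/
theorem sp1_alg (g : GL (Fin 2) F) : IsAlg (sp1 g) := by
  refine ⟨mem_sp1.2 ⟨1, 0, by simp⟩, fun x hx y hy => ?_⟩
  obtain ⟨a, b, rfl⟩ := mem_sp1.1 hx
  obtain ⟨c, e, rfl⟩ := mem_sp1.1 hy
  refine mem_sp1.2 ⟨a * c + b * e * (g.val 0 1 * g.val 1 0 - g.val 0 0 * g.val 1 1),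
    a * e + b * c + b * e * (g.val 0 0 + g.val 1 1), ?_⟩
  have h : (a • (1 : M2 F) + b • g.val) * (c • (1 : M2 F) + e • g.val) =
      (a * c) • (1 : M2 F) + (a * e + b * c) • g.val + (b * e) • (g.val * g.val) := by
    simp only [add_mul, mul_add, smul_mul_assoc, mul_smul_comm, one_mul, mul_one, smul_add, smul_smul, add_smul]
    rw [mul_comm c a, mul_comm e a, mul_comm c b, mul_comm e b]
    abel
  rw [h, sp1_sq]
  module

theorem sp1_comm (g : GL (Fin 2) F) : ∀ x ∈ sp1 g, ∀ y ∈ sp1 g, x * y = y * x := by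
  intro x hx y hy
  obtain ⟨a, b, rfl⟩ := mem_sp1.1 hx
  obtain ⟨c, e, rfl⟩ := mem_sp1.1 hy
  simp only [add_mul, mul_add, smul_mul_assoc, mul_smul_comm, one_mul, mul_one, smul_add, smul_smul]
  rw [mul_comm c a, mul_comm e a, mul_comm c b, mul_comm e b]
  abel

theorem sp1_conj (g h : GL (Fin 2) F) : sp1 (g * h * g⁻¹) = cjS g (sp1 h) := by
  have hg1 : (g⁻¹).val * g.val = 1 := by
    rw [← Units.val_mul, inv_mul_cancel, Units.val_one]
  have key : ∀ a b : F, cj g⁻¹ (a • (1 : M2 F) + b • (g * h * g⁻¹).val) = a • (1 : M2 F) + b • h.val := by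
    intro a b
    have e1 : cj g⁻¹ (a • (1 : M2 F) + b • (g * h * g⁻¹).val) =
        a • cj g⁻¹ (1 : M2 F) + b • cj g⁻¹ (g * h * g⁻¹).val := by
      unfold cj
      simp only [mul_add, add_mul, mul_smul_comm, smul_mul_assoc]
    have e2 : cj g⁻¹ (1 : M2 F) = 1 := by
      unfold cj
      rw [mul_one, inv_inv, hg1]
    have e3 : cj g⁻¹ (g * h * g⁻¹).val = h.val := by
      unfold cj
      rw [← Units.val_mul, ← Units.val_mul]
      have : g⁻¹ * (g * h * g⁻¹) * g⁻¹⁻¹ = h := by group
      rw [this]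
    rw [e1, e2, e3]
  refine Submodule.ext fun x => ?_
  rw [mem_cjS]
  constructor
  · intro hx
    obtain ⟨a, b, rfl⟩ := mem_sp1.1 hx
    rw [key]
    exact mem_sp1.2 ⟨a, b, rfl⟩
  · intro hx
    obtain ⟨a, b, hab⟩ := mem_sp1.1 hx
    refine mem_sp1.2 ⟨a, b, ?_⟩
    rw [← key] at hab
    have h1 := congrArg (cj g) hab
    rw [← cj_mul, ← cj_mul, mul_inv_cancel, cj_one, cj_one] at h1
    exact h1

/-- the centraliser of a matrix which is not scalar -/
theorem mem_sp1_of_comm {g : GL (Fin 2) F} (hg : ¬ ∃ c : F, g.val = c • (1 : M2 F)) {x : M2 F} (h : x * g.val = g.val * x) :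
    x ∈ sp1 g := by
  have h00 := congrFun (congrFun h 0) 0
  have h01 := congrFun (congrFun h 0) 1
  have h10 := congrFun (congrFun h 1) 0
  rw [Matrix.mul_apply, Matrix.mul_apply, Fin.sum_univ_two, Fin.sum_univ_two] at h00 h01 h10
  set G : M2 F := g.val with hG
  have fin : ∀ l : F, x 0 1 = l * G 0 1 → x 1 0 = l * G 1 0 → x 0 0 - x 1 1 = l * (G 0 0 - G 1 1) → x ∈ sp1 g := by
    intro l e1 e2 e3
    refine mem_sp1.2 ⟨x 1 1 - l * G 1 1, l, ?_⟩
    rw [← hG]
    ext i j
    fin_cases i <;> fin_cases j <;>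
      simp only [Fin.zero_eta, Fin.mk_one, Fin.isValue, Matrix.add_apply,
        Matrix.smul_apply, smul_eq_mul, Matrix.one_apply_eq, ne_eq, zero_ne_one, not_false_eq_true,
        Matrix.one_apply_ne, one_ne_zero]
    · linear_combination -e3
    · linear_combination -e1
    · linear_combination -e2
    · ring
  by_cases hq : G 0 1 = 0
  · by_cases hr : G 1 0 = 0
    · by_cases hp : G 0 0 - G 1 1 = 0
      · exfalso
        apply hg
        refine ⟨G 1 1, ?_⟩
        ext i j
        fin_cases i <;> fin_cases j <;>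
          simp only [Fin.zero_eta, Fin.mk_one, Fin.isValue,
            Matrix.smul_apply, smul_eq_mul, Matrix.one_apply_eq, ne_eq, zero_ne_one, not_false_eq_true,
            Matrix.one_apply_ne, one_ne_zero]
        · linear_combination hp
        · rw [hq, mul_zero]
        · rw [hr, mul_zero]
        · ring
      · refine fin ((x 0 0 - x 1 1) / (G 0 0 - G 1 1)) ?_ ?_ ?_
        · have : x 0 1 * (G 0 0 - G 1 1) = 0 := by
            rw [hq] at h01
            linear_combination -h01
          rw [hq, mul_zero]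
          exact (mul_eq_zero.1 this).resolve_right hp
        · have : x 1 0 * (G 0 0 - G 1 1) = 0 := by
            rw [hr] at h10
            linear_combination h10
          rw [hr, mul_zero]
          exact (mul_eq_zero.1 this).resolve_right hp
        · rw [div_mul_cancel₀ _ hp]
    · refine fin (x 1 0 / G 1 0) ?_ ?_ ?_
      · field_simp
        linear_combination h00
      · field_simp
      · field_simp
        linear_combination -h10
  · refine fin (x 0 1 / G 0 1) ?_ ?_ ?_
    · field_simp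
    · field_simp
      linear_combination -h00
    · field_simp
      linear_combination h01

theorem finrank_sp1 {g : GL (Fin 2) F} (hg : ¬ ∃ c : F, g.val = c • (1 : M2 F)) : Module.finrank F (sp1 g) = 2 := by
  have hli : LinearIndependent F ![(1 : M2 F), g.val] := by
    rw [LinearIndependent.pair_iff]
    intro s t hst
    have ht : t = 0 := by
      by_contra ht
      apply hg
      refine ⟨-(t⁻¹ * s), ?_⟩
      have h1 : t • g.val = -(s • (1 : M2 F)) := by
        rw [eq_neg_iff_add_eq_zero, add_comm]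
        exact hst
      calc g.val = t⁻¹ • (t • g.val) := by rw [smul_smul, inv_mul_cancel₀ ht, one_smul]
        _ = -(t⁻¹ * s) • (1 : M2 F) := by rw [h1, smul_neg, smul_smul, neg_smul]
    refine ⟨?_, ht⟩
    rw [ht, zero_smul, add_zero] at hst
    exact (smul_eq_zero.1 hst).resolve_right one_ne_zero
  have h := finrank_span_eq_card hli
  have e : Set.range ![(1 : M2 F), g.val] = {1, g.val} := by
    simp only [Matrix.range_cons, Matrix.range_empty, Set.union_empty, Set.singleton_union]
  rw [e, Fintype.card_fin] at h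
  exact h

/-- scalars do not change the algebra -/
theorem sp1_of_pr {g h : GL (Fin 2) F} (e : pr F g = pr F h) : sp1 g = sp1 h := by
  have h1 : pr F (g⁻¹ * h) = 1 := by
    rw [map_mul, map_inv, e, inv_mul_cancel]
  obtain ⟨c, hc⟩ := pr_eq_one.1 h1
  have hh : h.val = c • g.val := by
    have h2 : g.val * (g⁻¹ * h).val = h.val := by
      rw [← Units.val_mul, mul_inv_cancel_left]
    rw [← h2, hc, mul_smul_comm, mul_one]
  have hc0 : c ≠ 0 := by
    rintro rfl
    rw [zero_smul] at hc
    exact (g⁻¹ * h).ne_zero hc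
  refine le_antisymm ?_ ?_
  · intro x hx
    obtain ⟨a, b, rfl⟩ := mem_sp1.1 hx
    refine mem_sp1.2 ⟨a, b * c⁻¹, ?_⟩
    rw [hh, smul_smul, mul_assoc, inv_mul_cancel₀ hc0, mul_one]
  · intro x hx
    obtain ⟨a, b, rfl⟩ := mem_sp1.1 hx
    refine mem_sp1.2 ⟨a, b * c, ?_⟩
    rw [hh, smul_smul]

end Pool.Agent.H76.GT
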