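import Pool.Agent.H76.GT.AlgA2

/-!
# H76 GT, AlgA3: commuting elements of the projective group
-/

set_option autoImplicit false

namespace Pool.Agent.H76.GT

variable {F : Type} [Field F]

private theorem sp1_le {g h : GL (Fin 2) F} (hg : ¬ ∃ c : F, g.val = c • (1 : M2 F))
    (e : h.val * g.val = g.val * h.val) : sp1 h ≤ sp1 g := by
  unfold sp1
  rw [Submodule.span_le]
  intro x hx
  rcases hx with rfl | hx
  · exact (sp1_alg g).one
  · rw [Set.mem_singleton_iff] at hx
    rw [hx]
    exact mem_sp1_of_comm hg e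

private theorem not_scalar {g : GL (Fin 2) F} (hg : pr F g ≠ 1) : ¬ ∃ c : F, g.val = c • (1 : M2 F) :=
  fun h => hg (pr_eq_one.2 h)

/-- Commuting elements of the projective group. Proof. `g h = c h g` with `c ^ 2 = 1` (determinants). If `c = 1` use
`mem_sp1_of_comm` in both directions. If `c = - 1` then `h` commutes with `g ^ 2`, which is not scalar, and so does `g`; hence
`g, h ∈ sp1 (g ^ 2)`, which is commutative. -/
theorem sp1_eq_of_comm {g h : GL (Fin 2) F} (hc : Commute (pr F g) (pr F h)) (hg : pr F g ^ 2 ≠ 1)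
    (hh : pr F h ^ 2 ≠ 1) : sp1 g = sp1 h := by
  have hg1 : pr F g ≠ 1 := fun e => hg (by rw [e, one_pow])
  have hh1 : pr F h ≠ 1 := fun e => hh (by rw [e, one_pow])
  have key : g.val * h.val = h.val * g.val → sp1 g = sp1 h := fun e =>
    le_antisymm (sp1_le (not_scalar hh1) e) (sp1_le (not_scalar hg1) e.symm)
  have h1 : pr F ((h * g)⁻¹ * (g * h)) = 1 := by
    rw [map_mul, map_inv, map_mul, map_mul, hc.eq, inv_mul_cancel]
  obtain ⟨c, hcc⟩ := pr_eq_one.1 h1
  have h2 : g.val * h.val = c • (h.val * g.val) := by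
    have e1 : g * h = (h * g) * ((h * g)⁻¹ * (g * h)) := by rw [mul_inv_cancel_left]
    have e2 := congrArg Units.val e1
    rw [Units.val_mul, Units.val_mul, hcc, Units.val_mul, Matrix.mul_smul, mul_one] at e2
    exact e2
  have hd : c ^ 2 = 1 := by
    have e1 := congrArg Matrix.det h2
    rw [Matrix.det_smul, Matrix.det_mul, Matrix.det_mul, Fintype.card_fin] at e1
    have hg0 : g.val.det ≠ 0 := (Matrix.isUnit_iff_isUnit_det g.val).1 g.isUnit |>.ne_zero
    have hh0 : h.val.det ≠ 0 := (Matrix.isUnit_iff_isUnit_det h.val).1 h.isUnit |>.ne_zero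
    have h3 : h.val.det * g.val.det ≠ 0 := mul_ne_zero hh0 hg0
    have h4 : c ^ 2 * (h.val.det * g.val.det) = 1 * (h.val.det * g.val.det) := by
      rw [← e1, one_mul, mul_comm]
    exact mul_right_cancel₀ h3 h4
  have h5 : c = 1 ∨ c = -1 := by
    rw [← sub_eq_zero, ← sub_eq_zero (a := c) (b := -1), ← mul_eq_zero]
    linear_combination hd
  rcases h5 with h3 | h3
  · rw [h3, one_smul] at h2
    exact key h2
  · rw [h3, neg_smul, one_smul] at h2
    have hsq : ¬ ∃ c : F, (g ^ 2).val = c • (1 : M2 F) := not_scalar (by rw [map_pow]; exact hg)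
    have m1 : h.val ∈ sp1 (g ^ 2) := by
      refine mem_sp1_of_comm hsq ?_
      rw [Units.val_pow_eq_pow_val, pow_two, ← mul_assoc]
      have e3 : h.val * g.val = - (g.val * h.val) := by rw [h2, neg_neg]
      rw [e3, neg_mul, mul_assoc, e3, mul_neg, neg_neg, mul_assoc]
    have m2 : g.val ∈ sp1 (g ^ 2) := by
      refine mem_sp1_of_comm hsq ?_
      rw [Units.val_pow_eq_pow_val, ← pow_succ, ← pow_succ']
    exact key (sp1_comm (g ^ 2) _ m2 _ m1)

end Pool.Agent.H76.GT
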