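import Pool.Agent.H76.GT.AlgB3

/-!
# H76 GT, AlgB4: normalisers of subalgebras of dimension three
-/

set_option autoImplicit false

namespace Pool.Agent.H76.GT

variable {F : Type} [Field F]

open Matrix

private lemma sh {a : M2 F} {w : Fin 2 → F} (hw : w ≠ 0) (ha : a *ᵥ w = w) (da : a.det = 1) :
    ∃ t : F, a = 1 + t • !![-(w 1 * w 0), w 0 * w 0; -(w 1 * w 1), w 1 * w 0] := by
  have e1 : a 0 0 * w 0 + a 0 1 * w 1 = w 0 := by
    have := congrFun ha 0
    rwa [mulVec, dotProduct, Fin.sum_univ_two] at this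
  have e2 : a 1 0 * w 0 + a 1 1 * w 1 = w 1 := by
    have := congrFun ha 1
    rwa [mulVec, dotProduct, Fin.sum_univ_two] at this
  rw [det_fin_two] at da
  by_cases h0 : w 0 = 0
  · have h1 : w 1 ≠ 0 := by
      intro h1
      apply hw
      ext i
      fin_cases i
      · exact h0
      · exact h1
    rw [h0, mul_zero, zero_add] at e1 e2
    have a01 : a 0 1 = 0 := (mul_eq_zero.1 e1).resolve_right h1
    have a11 : a 1 1 = 1 := mul_right_cancel₀ h1 (by rw [e2, one_mul])
    rw [a01, a11, mul_one, zero_mul, sub_zero] at da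
    refine ⟨-(a 1 0 / (w 1 * w 1)), ?_⟩
    ext i j
    fin_cases i <;> fin_cases j
    · simp [h0, da]
    · simp [h0, a01]
    · simp [h1]
    · simp [h0, a11]
  · have f1 : w 0 * a 1 1 - a 0 1 * w 1 = w 0 := by
      linear_combination w 0 * da - a 1 1 * e1 + a 0 1 * e2
    refine ⟨a 0 1 / (w 0 * w 0), ?_⟩
    ext i j
    fin_cases i <;> fin_cases j
    · simp
      field_simp
      linear_combination e1
    · simp [h0]
    · simp
      field_simp
      linear_combination w 0 * e2 - w 1 * f1
    · simp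
      field_simp
      linear_combination f1

private lemma cm {a b : M2 F} {w : Fin 2 → F} (hw : w ≠ 0) (ha : a *ᵥ w = w) (da : a.det = 1)
    (hb : b *ᵥ w = w) (db : b.det = 1) : a * b = b * a := by
  obtain ⟨t, ht⟩ := sh hw ha da
  obtain ⟨s, hs⟩ := sh hw hb db
  rw [ht, hs]
  generalize (!![-(w 1 * w 0), w 0 * w 0; -(w 1 * w 1), w 1 * w 0] : M2 F) = K
  rw [add_mul, add_mul, mul_add, mul_add, mul_add, mul_add, one_mul, one_mul, one_mul, mul_one, mul_one,
    smul_mul_smul_comm, smul_mul_smul_comm, mul_comm t s]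
  abel

private lemma ker_line {z : M2 F} (hz : z ≠ 0) {w v : Fin 2 → F} (hw : w ≠ 0) (h1 : z *ᵥ w = 0)
    (h2 : z *ᵥ v = 0) : ∃ c : F, v = c • w := by
  have hd : w 0 * v 1 = w 1 * v 0 := by
    by_contra hne
    have hne' : w 0 * v 1 - w 1 * v 0 ≠ 0 := sub_ne_zero.2 hne
    apply hz
    have k1 : ∀ i, z i 0 * w 0 + z i 1 * w 1 = 0 := by
      intro i
      have := congrFun h1 i
      rwa [mulVec, dotProduct, Fin.sum_univ_two] at this
    have k2 : ∀ i, z i 0 * v 0 + z i 1 * v 1 = 0 := by
      intro i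
      have := congrFun h2 i
      rwa [mulVec, dotProduct, Fin.sum_univ_two] at this
    have k3 : ∀ i, z i 0 = 0 := fun i =>
      (mul_eq_zero.1 (show z i 0 * (w 0 * v 1 - w 1 * v 0) = 0 by
        linear_combination v 1 * k1 i - w 1 * k2 i)).resolve_right hne'
    have k4 : ∀ i, z i 1 = 0 := fun i =>
      (mul_eq_zero.1 (show z i 1 * (w 0 * v 1 - w 1 * v 0) = 0 by
        linear_combination w 0 * k2 i - v 0 * k1 i)).resolve_right hne'
    ext i j
    fin_cases j
    · exact k3 i
    · exact k4 i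
  by_cases h0 : w 0 = 0
  · have hw1 : w 1 ≠ 0 := by
      intro h1
      apply hw
      ext i
      fin_cases i
      · exact h0
      · exact h1
    have hv0 : v 0 = 0 := by
      rw [h0, zero_mul] at hd
      exact (mul_eq_zero.1 hd.symm).resolve_left hw1
    refine ⟨v 1 / w 1, ?_⟩
    ext i
    fin_cases i
    · show v 0 = v 1 / w 1 * w 0
      rw [h0, hv0, mul_zero]
    · show v 1 = v 1 / w 1 * w 1
      rw [div_mul_cancel₀ _ hw1]
  · refine ⟨v 0 / w 0, ?_⟩
    ext i
    fin_cases i
    · show v 0 = v 0 / w 0 * w 0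
      rw [div_mul_cancel₀ _ h0]
    · show v 1 = v 0 / w 0 * w 1
      field_simp
      linear_combination hd

private lemma smul_cancel {w : Fin 2 → F} (hw : w ≠ 0) {c d : F} (h : c • w = d • w) : c = d := by
  by_contra hne
  apply hw
  have h1 : (c - d) • w = 0 := by rw [sub_smul, h, sub_self]
  exact (smul_eq_zero.1 h1).resolve_left (sub_ne_zero.2 hne)

/-- Dimension three. Proof. With `z` as in `three_shape`: for `n ∈ nz A` the element `z' = n z n⁻¹` also has `z' a z' = 0` for
all `a ∈ A` and square zero. So `z' = c z` (the left ideal structure: `z a z = 0 ↔ a` maps `im z` to `ker z = im z`; the line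
`im z` is determined by `A`). So `n` maps the line `im z` to itself; choose a basis of `F²` whose first vector spans `im z`:
`nz A` is conjugate to a group of upper triangular matrices, and is solvable: the map to the diagonal entries is a homomorphism
to an abelian group, with abelian kernel. -/
theorem nz_solvable_three {A : Submodule F (M2 F)} (hA : IsAlg A) (h : Module.finrank F A = 3) : IsSolvable (nz A) := by
  obtain ⟨z, hz, hzz, hA'⟩ := three_shape hA h
  have hzA : z ∈ A := (hA' z).2 (by rw [hzz, zero_mul])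
  -- the line
  obtain ⟨u, hu⟩ : ∃ u : Fin 2 → F, z *ᵥ u ≠ 0 := by
    by_contra hcon
    push Not at hcon
    exact hz (Matrix.ext_of_mulVec_single fun i => by rw [hcon, Matrix.zero_mulVec])
  obtain ⟨w, hw⟩ : ∃ w : Fin 2 → F, w = z *ᵥ u := ⟨_, rfl⟩
  have hw0 : w ≠ 0 := by rw [hw]; exact hu
  have hzw : z *ᵥ w = 0 := by rw [hw, mulVec_mulVec, hzz, zero_mulVec]
  have hline : ∀ n : nz A, ∃ c : F, (n : GL (Fin 2) F).val *ᵥ w = c • w := by
    rintro ⟨n, hn⟩
    show ∃ c : F, n.val *ᵥ w = c • w
    have h1 : z ∈ cjS n A := by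
      rw [mem_nz.1 hn]
      exact hzA
    rw [mem_cjS, hA'] at h1
    unfold cj at h1
    rw [inv_inv] at h1
    have h2 : z *ᵥ ((n⁻¹).val *ᵥ (z *ᵥ (n.val *ᵥ w))) = 0 := by
      have h3 := congrArg (fun x : M2 F => x *ᵥ u) h1
      simp only [zero_mulVec] at h3
      rw [hw, mulVec_mulVec, mulVec_mulVec, mulVec_mulVec, mulVec_mulVec, ← h3]
      congr 1
      simp only [mul_assoc]
    obtain ⟨c, hc⟩ := ker_line hz hw0 hzw h2
    have h4 : z *ᵥ (n.val *ᵥ w) = c • (n.val *ᵥ w) := by
      have h5 := congrArg (fun x => n.val *ᵥ x) hc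
      simp only [mulVec_smul] at h5
      rw [← h5, mulVec_mulVec _ n.val, ← Units.val_mul, mul_inv_cancel, Units.val_one, one_mulVec]
    have h6 : z *ᵥ (n.val *ᵥ w) = 0 := by
      have h7 := congrArg (fun x => z *ᵥ x) h4
      simp only [mulVec_smul] at h7
      rw [mulVec_mulVec _ z z, hzz, zero_mulVec] at h7
      rcases smul_eq_zero.1 h7.symm with h8 | h8
      · rw [h4, h8, zero_smul]
      · exact h8
    exact ker_line hz hw0 hzw h6
  choose f hf using hline
  let φ : nz A →* F :=
    { toFun := f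
      map_one' := by
        apply smul_cancel hw0
        rw [← hf 1, one_smul]
        show ((1 : GL (Fin 2) F)).val *ᵥ w = w
        rw [Units.val_one, one_mulVec]
      map_mul' := fun a b => by
        apply smul_cancel hw0
        rw [← hf (a * b)]
        show ((a : GL (Fin 2) F) * (b : GL (Fin 2) F)).val *ᵥ w = _
        rw [Units.val_mul, ← mulVec_mulVec, hf b, mulVec_smul, hf a, smul_smul, mul_comm (f b)] }
  let χ : nz A →* Fˣ × Fˣ := φ.toHomUnits.prod (Matrix.GeneralLinearGroup.det.comp (nz A).subtype)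
  have hk : ∀ n ∈ χ.ker, (n : GL (Fin 2) F).val *ᵥ w = w ∧ ((n : GL (Fin 2) F).val).det = 1 := by
    intro n hn
    have h1 : χ n = 1 := hn
    have h2 : φ.toHomUnits n = 1 := congrArg Prod.fst h1
    have h3 : Matrix.GeneralLinearGroup.det (n : GL (Fin 2) F) = 1 := congrArg Prod.snd h1
    refine ⟨?_, congrArg Units.val h3⟩
    have h4 : f n = 1 := congrArg Units.val h2
    rw [hf n, h4, one_smul]
  have hker : Group.IsSolvable χ.ker := by
    refine Group.isSolvable_of_comm ?_
    rintro ⟨a, ha⟩ ⟨b, hb⟩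
    apply Subtype.ext
    apply Subtype.ext
    apply Units.ext
    exact cm hw0 (hk a ha).1 (hk a ha).2 (hk b hb).1 (hk b hb).2
  exact Group.isSolvable_of_ker_le_range χ.ker.subtype χ (by rw [Subgroup.range_subtype])

end Pool.Agent.H76.GT
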