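import Pool.Agent.H76.GT.AlgB2
import Pool.Agent.H76.GT.AlgB4

/-!
# H76 GT, AlgB: normalisers of proper subalgebras are solvable
-/

set_option autoImplicit false

namespace Pool.Agent.H76.GT

variable {F : Type} [Field F]

/-- the stabiliser in the projective group is the image of `nz A` -/
theorem stab_solvable {A : Sp F} (hA : IsAlg A.sub) (h : Module.finrank F A.sub = 2 ∨ Module.finrank F A.sub = 3) :
    IsSolvable (MulAction.stabilizer (PG F) A) := by
  have hs : Group.IsSolvable (nz A.sub) := by
    rcases h with h | h
    · exact nz_solvable_two hA h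
    · exact nz_solvable_three hA h
  have hst : ∀ n : nz A.sub, pr F (n : GL (Fin 2) F) ∈ MulAction.stabilizer (PG F) A := by
    intro n
    rw [MulAction.mem_stabilizer_iff, pr_smul_sp]
    exact n.2
  let f : nz A.sub →* MulAction.stabilizer (PG F) A :=
    { toFun := fun n => ⟨pr F (n : GL (Fin 2) F), hst n⟩
      map_one' := by
        apply Subtype.ext
        show pr F ((1 : nz A.sub) : GL (Fin 2) F) = 1
        rw [Subgroup.coe_one, map_one]
      map_mul' := fun a b => by
        apply Subtype.ext
        show pr F ((a * b : nz A.sub) : GL (Fin 2) F) = pr F (a : GL (Fin 2) F) * pr F (b : GL (Fin 2) F)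
        rw [Subgroup.coe_mul, map_mul] }
  have hf : Function.Surjective f := by
    rintro ⟨g, hg⟩
    obtain ⟨a, rfl⟩ := pr_surj g
    refine ⟨⟨a, ?_⟩, rfl⟩
    rw [MulAction.mem_stabilizer_iff, pr_smul_sp] at hg
    exact hg
  exact Group.isSolvable_of_surjective hf

end Pool.Agent.H76.GT
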