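import Pool.Agent.H76.GT.AlgA2

/-!
# H76 GT, AlgB2: normalisers of subalgebras of dimension two
-/

set_option autoImplicit false

namespace Pool.Agent.H76.GT

variable {F : Type} [Field F]

/-- two matrices which commute with a matrix which is not scalar commute -/
private theorem b2_comm {x y z : M2 F} (hx : ¬ ∃ c : F, x = c • (1 : M2 F)) (hy : y * x = x * y) (hz : z * x = x * z) :
    y * z = z * y := by
  have y0 := congrFun (congrFun hy 0) 0
  have y1 := congrFun (congrFun hy 0) 1
  have y2 := congrFun (congrFun hy 1) 0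
  have z0 := congrFun (congrFun hz 0) 0
  have z1 := congrFun (congrFun hz 0) 1
  have z2 := congrFun (congrFun hz 1) 0
  simp only [Matrix.mul_apply, Fin.sum_univ_two] at y0 y1 y2 z0 z1 z2
  have key : y 0 1 * z 1 0 = z 0 1 * y 1 0 ∧ (y 0 0 - y 1 1) * z 0 1 = (z 0 0 - z 1 1) * y 0 1 ∧
      (y 0 0 - y 1 1) * z 1 0 = (z 0 0 - z 1 1) * y 1 0 := by
    by_cases h1 : x 0 1 = 0
    · by_cases h2 : x 1 0 = 0
      · by_cases h3 : x 0 0 - x 1 1 = 0
        · exfalso
          apply hx
          refine ⟨x 0 0, ?_⟩
          ext i j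
          fin_cases i <;> fin_cases j
          · simp
          · simp [h1]
          · simp [h2]
          · simp
            linear_combination -h3
        · refine ⟨?_, ?_, ?_⟩
          · apply mul_left_cancel₀ h3
            linear_combination -z 1 0 * y1 + y 1 0 * z1 + ((y 0 0 - y 1 1) * z 1 0 - (z 0 0 - z 1 1) * y 1 0) * h1
          · apply mul_left_cancel₀ h3
            linear_combination -(y 0 0 - y 1 1) * z1 + (z 0 0 - z 1 1) * y1
          · apply mul_left_cancel₀ h3
            linear_combination (y 0 0 - y 1 1) * z2 - (z 0 0 - z 1 1) * y2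
      · have k1 : y 0 1 * z 1 0 = z 0 1 * y 1 0 := by
          apply mul_left_cancel₀ h2
          linear_combination z 1 0 * y0 - y 1 0 * z0
        refine ⟨k1, ?_, ?_⟩
        · apply mul_left_cancel₀ h2
          linear_combination -(x 0 0 - x 1 1) * k1 - z 0 1 * y2 + y 0 1 * z2
        · apply mul_left_cancel₀ h2
          linear_combination -z 1 0 * y2 + y 1 0 * z2
    · have k1 : y 0 1 * z 1 0 = z 0 1 * y 1 0 := by
        apply mul_left_cancel₀ h1
        linear_combination z 0 1 * y0 - y 0 1 * z0
      refine ⟨k1, ?_, ?_⟩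
      · apply mul_left_cancel₀ h1
        linear_combination z 0 1 * y1 - y 0 1 * z1
      · apply mul_left_cancel₀ h1
        linear_combination z 1 0 * y1 - y 1 0 * z1 + (x 0 0 - x 1 1) * k1
  obtain ⟨k1, k2, k3⟩ := key
  ext i j
  fin_cases i <;> fin_cases j <;> simp only [Matrix.mul_apply, Fin.sum_univ_two, Fin.zero_eta, Fin.mk_one, Fin.isValue]
  · linear_combination k1
  · linear_combination k2
  · linear_combination -k3
  · linear_combination -k1

/-- uniqueness of the coordinates with respect to `x`, `1` -/
private theorem b2_uniq {x : M2 F} (hx : ¬ ∃ c : F, x = c • (1 : M2 F)) {a b a' b' : F}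
    (h : a • x + b • (1 : M2 F) = a' • x + b' • (1 : M2 F)) : a = a' ∧ b = b' := by
  have h1 : (a - a') • x = (b' - b) • (1 : M2 F) := by
    rw [sub_smul, sub_smul, sub_eq_sub_iff_add_eq_add, h, add_comm]
  have ha : a = a' := by
    by_contra hne
    have h0 : a - a' ≠ 0 := sub_ne_zero.2 hne
    apply hx
    refine ⟨(a - a')⁻¹ * (b' - b), ?_⟩
    rw [mul_smul, ← h1, smul_smul, inv_mul_cancel₀ h0, one_smul]
  refine ⟨ha, ?_⟩
  rw [ha, sub_self, zero_smul] at h1
  have h2 := congrFun (congrFun h1 0) 0
  simp at h2
  exact (sub_eq_zero.1 h2.symm).symm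

private theorem b2_coord {A : Submodule F (M2 F)} (hA : IsAlg A) (h : Module.finrank F A = 2) :
    ∃ x ∈ A, (¬ ∃ c : F, x = c • (1 : M2 F)) ∧ ∀ y ∈ A, ∃ a b : F, y = a • x + b • (1 : M2 F) := by
  have h1 : ∃ x ∈ A, ¬ ∃ c : F, x = c • (1 : M2 F) := by
    by_contra hcon
    push_neg at hcon
    have h2 : A ≤ Submodule.span F {(1 : M2 F)} := by
      intro y hy
      obtain ⟨c, hc⟩ := hcon y hy
      rw [Submodule.mem_span_singleton]
      exact ⟨c, hc.symm⟩
    have h3 := Submodule.finrank_mono h2
    have h4 := finrank_span_le_card (R := F) ({(1 : M2 F)} : Set (M2 F))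
    rw [Set.toFinset_singleton, Finset.card_singleton] at h4
    omega
  obtain ⟨x, hxA, hx⟩ := h1
  refine ⟨x, hxA, hx, ?_⟩
  have hli : LinearIndependent F ![x, (1 : M2 F)] := by
    rw [LinearIndependent.pair_iff]
    intro s t hst
    have := b2_uniq hx (a := s) (b := t) (a' := 0) (b' := 0) (by rw [hst]; simp)
    exact this
  have hle : Submodule.span F (Set.range ![x, (1 : M2 F)]) ≤ A := by
    rw [Submodule.span_le]
    rintro y ⟨i, rfl⟩
    fin_cases i
    · exact hxA
    · exact hA.one
  have hfr : Module.finrank F (Submodule.span F (Set.range ![x, (1 : M2 F)])) = Module.finrank F A := by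
    rw [finrank_span_eq_card hli, h]
    rfl
  have heq := Submodule.eq_of_le_of_finrank_eq hle hfr
  intro y hy
  rw [← heq, Matrix.range_cons, Matrix.range_cons, Matrix.range_empty, Set.union_empty, Set.singleton_union,
    Submodule.mem_span_pair] at hy
  obtain ⟨a, b, hab⟩ := hy
  exact ⟨a, b, hab.symm⟩

/-- Dimension two. Proof. `A = F 1 + F x` for some `x` which is not scalar. For `n ∈ nz A`: `n⁻¹ x n = a x + b` with unique
`a b : F`, `a ≠ 0`, and `n ↦ (a, b)` is (up to the order) a homomorphism to the affine group of `F` (which is metabelian). Its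
kernel centralises `x`, so it is contained in `A` (as in `mem_sp1_of_comm`, for a matrix `x` instead of a group element: the
centraliser of a non scalar matrix is `F 1 + F x`) and commutative. Suggested form: for `n, m ∈ ⁅nz A, nz A⁆` the coefficient
`a` is one, for elements of the second derived group also `b = 0`, and the third derived group is trivial
(`isSolvable_def`, `derivedSeries`). -/
theorem nz_solvable_two {A : Submodule F (M2 F)} (hA : IsAlg A) (h : Module.finrank F A = 2) : IsSolvable (nz A) := by
  obtain ⟨x, hxA, hx, hco⟩ := b2_coord hA h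
  have hex : ∀ n : nz A, ∃ a b : F, cj (n : GL (Fin 2) F)⁻¹ x = a • x + b • (1 : M2 F) := by
    intro n
    apply hco
    have hn : cjS (n : GL (Fin 2) F) A = A := n.2
    rw [← mem_cjS, hn]
    exact hxA
  choose a b hab using hex
  have hcj1 : ∀ g : GL (Fin 2) F, cj g (1 : M2 F) = 1 := by
    intro g
    unfold cj
    rw [mul_one, ← Units.val_mul, mul_inv_cancel, Units.val_one]
  have hlin : ∀ (g : GL (Fin 2) F) (s t : F) (y z : M2 F), cj g (s • y + t • z) = s • cj g y + t • cj g z := by
    intro g s t y z
    unfold cj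
    rw [mul_add, add_mul, Matrix.mul_smul, Matrix.smul_mul, Matrix.mul_smul, Matrix.smul_mul]
  have hmul : ∀ n m : nz A, a (n * m) = a n * a m ∧ b (n * m) = a n * b m + b n := by
    intro n m
    apply b2_uniq hx
    rw [← hab (n * m)]
    have e : ((n * m : nz A) : GL (Fin 2) F)⁻¹ = (m : GL (Fin 2) F)⁻¹ * (n : GL (Fin 2) F)⁻¹ := by
      rw [Subgroup.coe_mul, mul_inv_rev]
    rw [e, cj_mul, hab n, hlin, hcj1, hab m, smul_add, smul_smul, smul_smul, add_smul, add_assoc]
  have hone : a 1 = 1 ∧ b 1 = 0 := by
    apply b2_uniq hx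
    rw [← hab 1, Subgroup.coe_one, inv_one, cj_one]
    simp
  let α : nz A →* F := { toFun := a, map_one' := hone.1, map_mul' := fun n m => (hmul n m).1 }
  let K1 : Subgroup (nz A) := α.toHomUnits.ker
  have hK1 : ∀ n : nz A, n ∈ K1 → a n = 1 := by
    intro n hn
    have h1 : α.toHomUnits n = 1 := hn
    have h2 := congrArg Units.val h1
    rw [MonoidHom.coe_toHomUnits, Units.val_one] at h2
    exact h2
  let β : K1 →* Multiplicative F :=
    { toFun := fun n => Multiplicative.ofAdd (b n)
      map_one' := by
        show Multiplicative.ofAdd (b ((1 : K1) : nz A)) = 1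
        rw [Subgroup.coe_one, hone.2]
        rfl
      map_mul' := by
        intro n m
        show Multiplicative.ofAdd (b ((n * m : K1) : nz A)) = Multiplicative.ofAdd (b n) * Multiplicative.ofAdd (b m)
        rw [Subgroup.coe_mul, (hmul _ _).2, hK1 n n.2, one_mul, ← ofAdd_add, add_comm] }
  have hK2 : ∀ n : K1, n ∈ β.ker → ((n : nz A) : GL (Fin 2) F).val * x = x * ((n : nz A) : GL (Fin 2) F).val := by
    intro n hn
    have h1 : β n = 1 := hn
    have h2 : b n = 0 := Multiplicative.ofAdd.injective h1
    have h3 := hab (n : nz A)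
    rw [hK1 n n.2, h2, one_smul, zero_smul, add_zero] at h3
    unfold cj at h3
    rw [inv_inv] at h3
    have h4 := congrArg (fun y => ((n : nz A) : GL (Fin 2) F).val * y) h3
    simp only [← mul_assoc] at h4
    rw [← Units.val_mul, mul_inv_cancel, Units.val_one, one_mul] at h4
    exact h4.symm
  have s2 : Group.IsSolvable β.ker := by
    refine Group.isSolvable_of_comm fun n m => ?_
    apply Subtype.ext
    apply Subtype.ext
    apply Subtype.ext
    apply Units.ext
    exact b2_comm hx (hK2 n n.2) (hK2 m m.2)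
  have s1 : Group.IsSolvable K1 :=
    Group.isSolvable_of_ker_le_range β.ker.subtype β (by rw [Subgroup.range_subtype])
  exact Group.isSolvable_of_ker_le_range K1.subtype α.toHomUnits (by rw [Subgroup.range_subtype])

end Pool.Agent.H76.GT
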