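import Pool.Agent.H76.GT.AlgA

/-!
# H76 GT, AlgB3: subalgebras of dimension three
-/

set_option autoImplicit false

namespace Pool.Agent.H76.GT

variable {F : Type} [Field F]

private theorem b3_nd {w : M2 F} (h : ∀ x : M2 F, (w * x).trace = 0) : w = 0 := by
  have h00 := h !![1, 0; 0, 0]
  have h01 := h !![0, 1; 0, 0]
  have h10 := h !![0, 0; 1, 0]
  have h11 := h !![0, 0; 0, 1]
  simp only [Matrix.trace_fin_two, Matrix.mul_apply, Fin.sum_univ_two] at h00 h01 h10 h11
  simp at h00 h01 h10 h11
  ext i j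
  fin_cases i <;> fin_cases j
  · exact h00
  · exact h10
  · exact h01
  · exact h11

private theorem b3_rep (f : M2 F →ₗ[F] F) : ∃ z : M2 F, ∀ x, f x = (z * x).trace := by
  refine ⟨!![f !![1, 0; 0, 0], f !![0, 0; 1, 0]; f !![0, 1; 0, 0], f !![0, 0; 0, 1]], fun x => ?_⟩
  have hx : x = x 0 0 • !![1, 0; 0, 0] + x 0 1 • !![0, 1; 0, 0] + x 1 0 • !![0, 0; 1, 0] +
      x 1 1 • !![0, 0; 0, 1] := by
    ext i j
    fin_cases i <;> fin_cases j <;> simp
  conv_lhs => rw [hx]
  rw [map_add, map_add, map_add, map_smul, map_smul, map_smul, map_smul]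
  simp only [Matrix.trace_fin_two, Matrix.mul_apply, Fin.sum_univ_two, smul_eq_mul]
  simp
  ring

/-- a functional which vanishes on the kernel of another one -/
private theorem b3_prop {z w : M2 F} (hz : z ≠ 0) (h : ∀ x : M2 F, (z * x).trace = 0 → (w * x).trace = 0) :
    ∃ c : F, w = c • z := by
  obtain ⟨x₀, hx₀⟩ : ∃ x, (z * x).trace ≠ 0 := by
    by_contra hcon
    push Not at hcon
    exact hz (b3_nd hcon)
  refine ⟨(w * x₀).trace / (z * x₀).trace, ?_⟩
  rw [← sub_eq_zero]
  apply b3_nd
  intro x
  have h1 := h (x - ((z * x).trace / (z * x₀).trace) • x₀) (by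
    rw [mul_sub, Matrix.trace_sub, mul_smul_comm, Matrix.trace_smul, smul_eq_mul, div_mul_cancel₀ _ hx₀, sub_self])
  rw [mul_sub, Matrix.trace_sub, mul_smul_comm, Matrix.trace_smul, smul_eq_mul] at h1
  rw [sub_mul, Matrix.trace_sub, smul_mul_assoc, Matrix.trace_smul, smul_eq_mul]
  field_simp at h1 ⊢
  linear_combination h1

private theorem b3_ch (z : M2 F) (ht : z.trace = 0) : z * z = (-z.det) • (1 : M2 F) := by
  rw [Matrix.trace_fin_two] at ht
  have h11 : z 1 1 = -z 0 0 := by linear_combination ht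
  ext i j
  rw [Matrix.det_fin_two]
  fin_cases i <;> fin_cases j <;> simp [Matrix.mul_apply, Fin.sum_univ_two, h11] <;> ring

private theorem b3_ne {z : M2 F} (hz : z ≠ 0) : ∃ a : M2 F, z * a * z ≠ 0 := by
  by_contra hcon
  push Not at hcon
  have key : ∀ i j k l, z i j * z k l = 0 := by
    intro i j k l
    have h1 := congrFun (congrFun (hcon (Matrix.single j k 1)) i) l
    rw [Matrix.mul_apply, Fin.sum_univ_two] at h1
    simp only [Matrix.mul_apply, Fin.sum_univ_two] at h1
    fin_cases j <;> fin_cases k <;> simpa [Matrix.single] using h1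
  apply hz
  ext i j
  exact mul_self_eq_zero.1 (key i j i j)

/-- Dimension three: the shape. Proof. The annihilator of `A` for the trace form `(x, y) ↦ trace (x * y)` is `F z`, `z ≠ 0`
(the form is nondegenerate). For `a ∈ A`: `a z` and `z a` are again in the annihilator. So `a z = c z`, `z a = c' z`. If `z`
were invertible then `a` would be scalar, for all `a ∈ A`. `trace z = 0` since `1 ∈ A`. So `z ^ 2 = 0` (Cayley-Hamilton). So
`z a z = 0` for `a ∈ A`, and `{a | z a z = 0}` has dimension three (it is the kernel of one nonzero linear form). -/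
theorem three_shape {A : Submodule F (M2 F)} (hA : IsAlg A) (h : Module.finrank F A = 3) :
    ∃ z : M2 F, z ≠ 0 ∧ z * z = 0 ∧ ∀ a : M2 F, a ∈ A ↔ z * a * z = 0 := by
  classical
  have hfr : Module.finrank F (M2 F) = 4 := by
    show Module.finrank F (Matrix (Fin 2) (Fin 2) F) = 4
    rw [Module.finrank_matrix]
    simp
  have hlt : A < ⊤ := by
    rw [lt_top_iff_ne_top]
    intro h1
    rw [h1, finrank_top, hfr] at h
    omega
  obtain ⟨f, hf0, hfA⟩ := Submodule.exists_le_ker_of_lt_top A hlt
  obtain ⟨z, hz⟩ := b3_rep f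
  have hz0 : z ≠ 0 := by
    rintro rfl
    apply hf0
    ext x
    rw [hz]
    simp
  have hker : A = LinearMap.ker f := by
    refine Submodule.eq_of_le_of_finrank_le hfA ?_
    have h1 : LinearMap.ker f ≠ ⊤ := fun h1 => hf0 (LinearMap.ker_eq_top.1 h1)
    have h2 := Submodule.finrank_lt h1
    rw [hfr] at h2
    omega
  have hmem : ∀ x, x ∈ A ↔ (z * x).trace = 0 := by
    intro x
    rw [hker, LinearMap.mem_ker, hz]
  have hl : ∀ a ∈ A, ∃ c : F, z * a = c • z := by
    intro a ha
    refine b3_prop hz0 fun x hx => ?_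
    have h1 := (hmem _).1 (hA.mul a ha x ((hmem x).2 hx))
    rwa [← mul_assoc] at h1
  have hr : ∀ a ∈ A, ∃ c : F, a * z = c • z := by
    intro a ha
    refine b3_prop hz0 fun x hx => ?_
    have h1 := (hmem _).1 (hA.mul x ((hmem x).2 hx) a ha)
    rw [← mul_assoc, Matrix.trace_mul_comm, ← mul_assoc] at h1
    exact h1
  have htr : z.trace = 0 := by
    have h1 := (hmem 1).1 hA.one
    rwa [mul_one] at h1
  have hch := b3_ch z htr
  have hdet : z.det = 0 := by
    by_contra hd
    -- all elements of `A` are scalars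
    have h1 : A ≤ Submodule.span F {(1 : M2 F)} := by
      intro a ha
      obtain ⟨c, hc⟩ := hr a ha
      rw [Submodule.mem_span_singleton]
      refine ⟨c, ?_⟩
      have h2 : a * z * z = c • z * z := by rw [hc]
      rw [mul_assoc, hch, smul_mul_assoc, hch, mul_smul_comm, mul_one, smul_comm] at h2
      exact (smul_right_injective (M2 F) (neg_ne_zero.2 hd) h2).symm
    have h2 := Submodule.finrank_mono h1
    have h3 := finrank_span_singleton (K := F) (one_ne_zero : (1 : M2 F) ≠ 0)
    omega
  have hzz : z * z = 0 := by rw [hch, hdet, neg_zero, zero_smul]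
  refine ⟨z, hz0, hzz, ?_⟩
  -- the subspace
  let W : Submodule F (M2 F) :=
    { carrier := {a | z * a * z = 0}
      add_mem' := fun {a b} ha hb => by
        show z * (a + b) * z = 0
        rw [mul_add, add_mul, show z * a * z = 0 from ha, show z * b * z = 0 from hb, add_zero]
      zero_mem' := by
        show z * 0 * z = 0
        rw [mul_zero, zero_mul]
      smul_mem' := fun c a ha => by
        show z * (c • a) * z = 0
        rw [mul_smul_comm, smul_mul_assoc, show z * a * z = 0 from ha, smul_zero] }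
  have hW : ∀ a, a ∈ W ↔ z * a * z = 0 := fun a => Iff.rfl
  have hAW : A ≤ W := by
    intro a ha
    obtain ⟨c, hc⟩ := hl a ha
    rw [hW, hc, smul_mul_assoc, hzz, smul_zero]
  have hWt : W ≠ ⊤ := by
    intro h1
    obtain ⟨a, ha⟩ := b3_ne hz0
    apply ha
    rw [← hW, h1]
    exact Submodule.mem_top
  have hWA : A = W := by
    refine Submodule.eq_of_le_of_finrank_le hAW ?_
    have h2 := Submodule.finrank_lt hWt
    rw [hfr] at h2
    omega
  intro a
  rw [hWA, hW]

end Pool.Agent.H76.GT
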