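import Pool.Agent.H76.GT.AlgC1
import Pool.Agent.H76.GT.AlgB

/-!
# H76 GT, AlgC: groups whose commutators have trace two
-/

set_option autoImplicit false

namespace Pool.Agent.H76.GT

open scoped commutatorElement

variable {F : Type} [Field F]

private theorem com_le (P : Subgroup (GL (Fin 2) F)) : ⁅P, P⁆ ≤ P := by
  rw [Subgroup.commutator_le]
  intro a ha b hb
  rw [commutatorElement_def]
  exact P.mul_mem (P.mul_mem (P.mul_mem ha hb) (P.inv_mem ha)) (P.inv_mem hb)

private theorem com_det (P : Subgroup (GL (Fin 2) F)) : ∀ g ∈ ⁅P, P⁆, g.val.det = 1 := by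
  intro g hg
  have h : ⁅P, P⁆ ≤ (Matrix.GeneralLinearGroup.det : GL (Fin 2) F →* Fˣ).ker := by
    rw [Subgroup.commutator_le]
    intro a _ b _
    rw [MonoidHom.mem_ker, map_commutatorElement, commutatorElement_def, mul_comm
      (Matrix.GeneralLinearGroup.det a) (Matrix.GeneralLinearGroup.det b)]
    simp
  have h2 := MonoidHom.mem_ker.1 (h hg)
  have h3 := congrArg Units.val h2
  simpa using h3

private theorem com_conj (P : Subgroup (GL (Fin 2) F)) {g p : GL (Fin 2) F} (hg : g ∈ ⁅P, P⁆)
    (hp : p ∈ P) : p⁻¹ * g * p ∈ ⁅P, P⁆ := by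
  have h1 : ⁅p⁻¹, g⁆ ∈ ⁅P, P⁆ := Subgroup.commutator_mem_commutator (P.inv_mem hp) (com_le P hg)
  have h2 := (⁅P, P⁆).mul_mem h1 hg
  have h3 : ⁅p⁻¹, g⁆ * g = p⁻¹ * g * p := by
    rw [commutatorElement_def]
    group
  rwa [h3] at h2

/-- the kernel of a nonzero matrix with nonzero kernel is a line -/
private theorem ker_line {n : M2 F} (hn : n ≠ 0) {x y : Fin 2 → F} (hx0 : x ≠ 0)
    (hx : n.mulVec x = 0) (hy : n.mulVec y = 0) : ∃ c : F, y = c • x := by
  have hx' : ∀ i, n i 0 * x 0 + n i 1 * x 1 = 0 := by
    intro i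
    have := congrFun hx i
    simpa [Matrix.mulVec, dotProduct, Fin.sum_univ_two] using this
  have hy' : ∀ i, n i 0 * y 0 + n i 1 * y 1 = 0 := by
    intro i
    have := congrFun hy i
    simpa [Matrix.mulVec, dotProduct, Fin.sum_univ_two] using this
  have hi : ∃ i, n i 0 ≠ 0 ∨ n i 1 ≠ 0 := by
    by_contra hcon
    push Not at hcon
    apply hn
    ext i j
    fin_cases j
    · exact (hcon i).1
    · exact (hcon i).2
  obtain ⟨i, hi⟩ := hi
  have hd : x 0 * y 1 = x 1 * y 0 := by
    have h1 := hx' i
    have h2 := hy' i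
    rcases hi with hi | hi
    · have h3 : n i 0 * (x 0 * y 1 - x 1 * y 0) = 0 := by linear_combination y 1 * h1 - x 1 * h2
      have h4 := (mul_eq_zero.1 h3).resolve_left hi
      linear_combination h4
    · have h3 : n i 1 * (x 0 * y 1 - x 1 * y 0) = 0 := by
        linear_combination x 0 * h2 - y 0 * h1
      have h4 := (mul_eq_zero.1 h3).resolve_left hi
      linear_combination h4
  by_cases h0 : x 0 = 0
  · have h1 : x 1 ≠ 0 := by
      intro h1
      apply hx0
      ext j
      fin_cases j
      · exact h0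
      · exact h1
    refine ⟨y 1 / x 1, ?_⟩
    ext j
    fin_cases j
    · show y 0 = y 1 / x 1 * x 0
      rw [h0, mul_zero]
      rw [h0, zero_mul] at hd
      exact (mul_eq_zero.1 hd.symm).resolve_left h1
    · show y 1 = y 1 / x 1 * x 1
      rw [div_mul_cancel₀ _ h1]
  · refine ⟨y 0 / x 0, ?_⟩
    ext j
    fin_cases j
    · show y 0 = y 0 / x 0 * x 0
      rw [div_mul_cancel₀ _ h0]
    · show y 1 = y 0 / x 0 * x 1
      field_simp
      linear_combination hd

private theorem spn_top {P : Subgroup (GL (Fin 2) F)} (h : ¬ Module.finrank F (spn P) ≤ 3) :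
    spn P = ⊤ := by
  apply Submodule.eq_top_of_finrank_eq
  have h1 := finrank_le_four (spn P)
  have h2 : Module.finrank F (M2 F) = 4 := by
    rw [Module.finrank_matrix]
    simp
  omega

/-- Proof. `U = ⁅P, P⁆`. If `U` is trivial then `spn P` is commutative, so it is not all of `M2 F`. Otherwise let `1 ≠ g ∈ U`
and `x ≠ 0` in the kernel of `g - 1` (it exists as `(g - 1) ^ 2 = 0`). The common kernel is exactly `F x` (as `g ≠ 1`) and it is
invariant under `P` (`P` normalises `U`: `p⁻¹ g p ∈ U` so `(g - 1) p x = p (p⁻¹ g p - 1) x = 0`). So all elements of `spn P`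
have `x` as an eigenvector, and `spn P ≠ ⊤`; a proper subspace of a space of dimension four has dimension at most three. -/
theorem finrank_spn_le_three (P : Subgroup (GL (Fin 2) F)) (ht : ∀ g ∈ ⁅P, P⁆, g.val.trace = 2) :
    Module.finrank F (spn P) ≤ 3 := by
  by_contra hcon
  have htop := spn_top hcon
  by_cases hU : ∀ g ∈ ⁅P, P⁆, g = 1
  · -- commutative
    have hc : ∀ a ∈ P, ∀ b ∈ P, a.val * b.val = b.val * a.val := by
      intro a ha b hb
      have h1 := hU _ (Subgroup.commutator_mem_commutator ha hb)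
      rw [commutatorElement_eq_one_iff_mul_comm] at h1
      exact congrArg Units.val h1
    have h1 : ∀ a ∈ P, ∀ y ∈ spn P, a.val * y = y * a.val := by
      intro a ha y hy
      unfold spn at hy
      induction hy using Submodule.span_induction with
      | mem y hy =>
        obtain ⟨b, hb, rfl⟩ := hy
        exact hc a ha b hb
      | zero => rw [mul_zero, zero_mul]
      | add y z _ _ h1 h2 => rw [mul_add, add_mul, h1, h2]
      | smul c y _ h1 => rw [Matrix.mul_smul, Matrix.smul_mul, h1]
    have h2 : ∀ x ∈ spn P, ∀ y ∈ spn P, x * y = y * x := by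
      intro x hx y hy
      unfold spn at hx
      induction hx using Submodule.span_induction with
      | mem x hx =>
        obtain ⟨a, ha, rfl⟩ := hx
        exact h1 a ha y hy
      | zero => rw [mul_zero, zero_mul]
      | add x z _ _ h1 h2 => rw [mul_add, add_mul, h1, h2]
      | smul c x _ h1 => rw [Matrix.mul_smul, Matrix.smul_mul, h1]
    have h3 := h2 !![0, 1; 0, 0] (by rw [htop]; trivial) !![0, 0; 1, 0] (by rw [htop]; trivial)
    have h4 := congrFun (congrFun h3 0) 0
    simp [Matrix.mul_apply, Fin.sum_univ_two] at h4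
  · push Not at hU
    obtain ⟨g, hg, hg1⟩ := hU
    have hdet : (g.val - 1).det = 0 := by
      have h1 := com_det P g hg
      have h2 := ht g hg
      rw [Matrix.det_fin_two] at h1 ⊢
      rw [Matrix.trace_fin_two] at h2
      simp only [Matrix.sub_apply, Matrix.one_apply_eq, ne_eq, zero_ne_one, not_false_eq_true,
        Matrix.one_apply_ne, one_ne_zero, sub_zero]
      linear_combination h1 - h2
    obtain ⟨x, hx0, hx⟩ := Matrix.exists_mulVec_eq_zero_iff.2 hdet
    have hn : g.val - 1 ≠ 0 := by
      intro h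
      apply hg1
      apply Units.ext
      rw [Units.val_one]
      exact sub_eq_zero.1 h
    have hp : ∀ p ∈ P, ∃ c : F, p.val.mulVec x = c • x := by
      intro p hp
      have h1 := common_kernel ⁅P, P⁆ (com_det P) ht hg (com_conj P hg hp) hg1 hx
      apply ker_line hn hx0 hx
      rw [Matrix.sub_mulVec, Matrix.one_mulVec, sub_eq_zero] at h1 ⊢
      have h2 : g.val * p.val = p.val * (p⁻¹ * g * p).val := by
        rw [← Units.val_mul, ← Units.val_mul]
        congr 1
        group
      rw [Matrix.mulVec_mulVec, h2, ← Matrix.mulVec_mulVec, h1]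
    have hs : ∀ m ∈ spn P, ∃ c : F, m.mulVec x = c • x := by
      intro m hm
      unfold spn at hm
      induction hm using Submodule.span_induction with
      | mem m hm =>
        obtain ⟨p, hpP, rfl⟩ := hm
        exact hp p hpP
      | zero => exact ⟨0, by rw [Matrix.zero_mulVec, zero_smul]⟩
      | add a b _ _ h1 h2 =>
        obtain ⟨c, hc⟩ := h1
        obtain ⟨d, hd⟩ := h2
        exact ⟨c + d, by rw [Matrix.add_mulVec, hc, hd, add_smul]⟩
      | smul a m _ h1 =>
        obtain ⟨c, hc⟩ := h1
        exact ⟨a * c, by rw [Matrix.smul_mulVec, hc, smul_smul]⟩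
    by_cases h0 : x 0 = 0
    · have h1 : x 1 ≠ 0 := by
        intro h1
        apply hx0
        ext j
        fin_cases j
        · exact h0
        · exact h1
      obtain ⟨c, hc⟩ := hs !![0, 1; 0, 0] (by rw [htop]; trivial)
      have h2 := congrFun hc 0
      simp [Matrix.mulVec, dotProduct, Fin.sum_univ_two, h0] at h2
      exact h1 h2
    · obtain ⟨c, hc⟩ := hs !![0, 0; 1, 0] (by rw [htop]; trivial)
      have h2 := congrFun hc 0
      have h3 := congrFun hc 1
      simp [Matrix.mulVec, dotProduct, Fin.sum_univ_two] at h2 h3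
      rcases h2 with h2 | h2
      · rw [h2, zero_mul] at h3
        exact h0 h3
      · exact h0 h2

end Pool.Agent.H76.GT
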