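import Pool.Agent.H76.GT.AlgA

/-!
# H76 GT, AlgC1: unipotent groups have a common kernel
-/

set_option autoImplicit false

namespace Pool.Agent.H76.GT

variable {F : Type} [Field F]

private theorem ck_aux {p q r s t m x0 x1 : F} (ha : ¬ (p = 0 ∧ q = 0 ∧ r = 0))
    (na : p * p + q * r = 0) (nb : s * s + t * m = 0) (T : 2 * (p * s) + q * m + r * t = 0)
    (e1 : p * x0 + q * x1 = 0) (e2 : r * x0 - p * x1 = 0) :
    s * x0 + t * x1 = 0 ∧ m * x0 - s * x1 = 0 := by
  by_cases hq : q = 0
  · subst hq
    have hp : p = 0 := by
      have : p * p = 0 := by linear_combination na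
      exact mul_self_eq_zero.1 this
    subst hp
    have hr : r ≠ 0 := fun h => ha ⟨rfl, rfl, h⟩
    have hx0 : x0 = 0 := by
      have : r * x0 = 0 := by linear_combination e2
      exact (mul_eq_zero.1 this).resolve_left hr
    have ht : t = 0 := by
      have : r * t = 0 := by linear_combination T
      exact (mul_eq_zero.1 this).resolve_left hr
    have hs : s = 0 := by
      have : s * s = 0 := by rw [ht] at nb; linear_combination nb
      exact mul_self_eq_zero.1 this
    subst hx0 ht hs
    constructor <;> ring
  · have T' : 2 * (p * s) * q + q * q * m - p * p * t = 0 := by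
      linear_combination q * T - t * na
    have hA : s * q - t * p = 0 := by
      have : (s * q - t * p) * (s * q - t * p) = 0 := by
        linear_combination q * q * nb - t * T'
      exact mul_self_eq_zero.1 this
    have hB : m * q + s * p = 0 := by
      have : q * (m * q + s * p) = 0 := by
        linear_combination T' - p * hA
      exact (mul_eq_zero.1 this).resolve_left hq
    constructor
    · have : q * (s * x0 + t * x1) = 0 := by
        linear_combination t * e1 + x0 * hA
      exact (mul_eq_zero.1 this).resolve_left hq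
    · have : q * (m * x0 - s * x1) = 0 := by
        linear_combination x0 * hB - s * e1
      exact (mul_eq_zero.1 this).resolve_left hq

/-- Two by two nilpotent matrices `a`, `b` with `trace (a * b) = 0` and `a ≠ 0 ≠ b` have the same kernel. Here: group elements
`1 + a`, `1 + b`. `det (1 + a) = 1 + trace a + det a`, so `trace a = 0 = det a` and `a ^ 2 = 0`. -/
theorem common_kernel (U : Subgroup (GL (Fin 2) F)) (hd : ∀ g ∈ U, g.val.det = 1) (ht : ∀ g ∈ U, g.val.trace = 2)
    {g h : GL (Fin 2) F} (hg : g ∈ U) (hh : h ∈ U) (hn : g ≠ 1) {x : Fin 2 → F} (hx : (g.val - 1).mulVec x = 0) :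
    (h.val - 1).mulVec x = 0 := by
  have d1 := hd g hg
  have d2 := hd h hh
  have t1 := ht g hg
  have t2 := ht h hh
  have t3 := ht (g * h) (U.mul_mem hg hh)
  rw [Units.val_mul, Matrix.trace_fin_two, Matrix.mul_apply, Matrix.mul_apply,
    Fin.sum_univ_two, Fin.sum_univ_two] at t3
  rw [Matrix.det_fin_two] at d1 d2
  rw [Matrix.trace_fin_two] at t1 t2
  have x0 := congrFun hx 0
  have x1 := congrFun hx 1
  simp only [Matrix.mulVec, dotProduct, Fin.sum_univ_two, Matrix.sub_apply, Pi.zero_apply,
    Matrix.one_apply_eq, Matrix.one_apply_ne (zero_ne_one : (0 : Fin 2) ≠ 1),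
    Matrix.one_apply_ne (one_ne_zero : (1 : Fin 2) ≠ 0), sub_zero] at x0 x1
  have key := ck_aux (p := g.val 0 0 - 1) (q := g.val 0 1) (r := g.val 1 0)
    (s := h.val 0 0 - 1) (t := h.val 0 1) (m := h.val 1 0) (x0 := x 0) (x1 := x 1)
    (by
      rintro ⟨h1, h2, h3⟩
      apply hn
      ext i j
      fin_cases i <;> fin_cases j
      · simpa [sub_eq_zero] using h1
      · simpa using h2
      · simpa using h3
      · have : g.val 1 1 = 1 := by linear_combination t1 - h1
        simpa using this)
    (by linear_combination g.val 0 0 * t1 - d1)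
    (by linear_combination h.val 0 0 * t2 - d2)
    (by linear_combination t3 - h.val 1 1 * t1 - (2 - g.val 0 0) * t2)
    (by linear_combination x0)
    (by linear_combination x1 - x 1 * t1)
  refine funext (Fin.forall_fin_two.2 ⟨?_, ?_⟩)
  · simp only [Matrix.mulVec, dotProduct, Fin.sum_univ_two, Matrix.sub_apply, Pi.zero_apply,
      Matrix.one_apply_eq, Matrix.one_apply_ne (zero_ne_one : (0 : Fin 2) ≠ 1), sub_zero]
    linear_combination key.1
  · simp only [Matrix.mulVec, dotProduct, Fin.sum_univ_two, Matrix.sub_apply, Pi.zero_apply,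
      Matrix.one_apply_eq, Matrix.one_apply_ne (one_ne_zero : (1 : Fin 2) ≠ 0), sub_zero]
    linear_combination key.2 + x 1 * t2

end Pool.Agent.H76.GT
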