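import Pool.Agent.H76.GT.Pg

/-!
# H76 GT, PlE: the traces of commutators of elements which fix an edge
-/

set_option autoImplicit false

namespace Pool.Agent.H76.GT

open Pool.Agent.H54.TT

variable {F : Type} [Field F]

variable {v : F → ℤ} (hv : IsDV v)

open scoped commutatorElement in
private theorem comm_le {G : Type} [Group G] {P N : Subgroup G} (h : ∀ a ∈ P, ∀ b ∈ P, a * b * a⁻¹ * b⁻¹ ∈ N) :
    ⁅P, P⁆ ≤ N := by
  rw [Subgroup.commutator_le]
  intro a ha b hb
  rw [commutatorElement_def]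
  exact h a ha b hb

/-- the entries of a vector have valuation at least `n` -/
private def GeV (v : F → ℤ) (n : ℤ) (w : Fin 2 → F) : Prop := ∀ i, Ge v n (w i)

private theorem exists_val {v : F → ℤ} (hv : IsDV v) (n : ℤ) : ∃ q : F, q ≠ 0 ∧ v q = n := by
  obtain ⟨p, hp, hvp⟩ := hv.unif
  induction n using Int.induction_on with
  | zero => exact ⟨1, one_ne_zero, hv.one⟩
  | succ i ih =>
    obtain ⟨q, hq, h⟩ := ih
    exact ⟨q * p, mul_ne_zero hq hp, by rw [hv.mul _ _ hq hp, h, hvp]⟩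
  | pred i ih =>
    obtain ⟨q, hq, h⟩ := ih
    refine ⟨q * p⁻¹, mul_ne_zero hq (inv_ne_zero hp), ?_⟩
    rw [hv.mul _ _ hq (inv_ne_zero hp), h, hv.inv hp, hvp]
    ring

private theorem geV_mulVec {v : F → ℤ} (hv : IsDV v) {n : ℤ} {A : M2 F} {w : Fin 2 → F} (hA : GeM v 0 A)
    (hw : GeV v n w) : GeV v n (A.mulVec w) := by
  intro i
  have h : (A.mulVec w) i = A i 0 * w 0 + A i 1 * w 1 := by
    simp [Matrix.mulVec, dotProduct, Fin.sum_univ_two]
  rw [h]
  have h0 := ge_mul hv (hA i 0) (hw 0)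
  have h1 := ge_mul hv (hA i 1) (hw 1)
  rw [zero_add] at h0 h1
  exact ge_add hv h0 h1

private theorem geV_add {v : F → ℤ} (hv : IsDV v) {n : ℤ} {w w' : Fin 2 → F} (hw : GeV v n w) (hw' : GeV v n w') :
    GeV v n (w + w') := fun i => ge_add hv (hw i) (hw' i)

private theorem geV_neg {v : F → ℤ} (hv : IsDV v) {n : ℤ} {w : Fin 2 → F} (hw : GeV v n w) :
    GeV v n (-w) := fun i => ge_neg hv (hw i)

private theorem geV_smul {v : F → ℤ} (hv : IsDV v) {n : ℤ} {c : F} {w : Fin 2 → F} (hc : Ge v 0 c) (hw : GeV v n w) :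
    GeV v n (c • w) := by
  intro i
  have := ge_mul hv hc (hw i)
  rwa [zero_add] at this

/-- congruence of vectors modulo the maximal ideal -/
private def Cg (v : F → ℤ) (w w' : Fin 2 → F) : Prop := GeV v 1 (w - w')

private theorem cg_refl {v : F → ℤ} (w : Fin 2 → F) : Cg v w w := by
  intro i
  have : (w - w) i = 0 := by simp
  rw [this]
  exact fun h => absurd rfl h

private theorem cg_symm {v : F → ℤ} (hv : IsDV v) {w w' : Fin 2 → F} (h : Cg v w w') : Cg v w' w := by
  have h1 := geV_neg hv h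
  have h2 : -(w - w') = w' - w := by abel
  rw [h2] at h1
  exact h1

private theorem cg_trans {v : F → ℤ} (hv : IsDV v) {w w' w'' : Fin 2 → F} (h : Cg v w w') (h' : Cg v w' w'') :
    Cg v w w'' := by
  have h1 := geV_add hv h h'
  have h2 : w - w' + (w' - w'') = w - w'' := by abel
  rw [h2] at h1
  exact h1

private theorem cg_mulVec {v : F → ℤ} (hv : IsDV v) {A : M2 F} (hA : GeM v 0 A) {w w' : Fin 2 → F} (h : Cg v w w') :
    Cg v (A.mulVec w) (A.mulVec w') := by
  have h1 := geV_mulVec hv hA h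
  rw [Matrix.mulVec_sub] at h1
  exact h1

private theorem cg_smul {v : F → ℤ} (hv : IsDV v) {c : F} (hc : Ge v 0 c) {w w' : Fin 2 → F} (h : Cg v w w') :
    Cg v (c • w) (c • w') := by
  have h1 := geV_smul hv hc h
  rw [smul_sub] at h1
  exact h1

private theorem ge_div {v : F → ℤ} (hv : IsDV v) {n m : ℤ} {x y : F} (hx : Ge v n x) (hy : y ≠ 0) (hm : v y = m) :
    Ge v (n - m) (x * y⁻¹) := by
  have h : Ge v (-m) y⁻¹ := by
    intro _
    rw [hv.inv hy, hm]
  have := ge_mul hv hx h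
  rwa [← sub_eq_add_neg] at this

/-- if the exterior product of `u` and `w` is small then `w` is congruent to a multiple of `u` -/
private theorem cg_of_wedge {v : F → ℤ} (hv : IsDV v) {u w : Fin 2 → F} {i : Fin 2} (hi : u i ≠ 0) (hvi : v (u i) = 0)
    (hw : GeV v 0 w) (h : Ge v 1 (u 0 * w 1 - u 1 * w 0)) :
    ∃ c, Ge v 0 c ∧ Cg v w (c • u) := by
  refine ⟨w i * (u i)⁻¹, ?_, ?_⟩
  · have := ge_div hv (hw i) hi hvi
    rwa [sub_zero] at this
  · have h1 := ge_div hv h hi hvi
    have h1' := ge_neg hv h1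
    rw [sub_zero] at h1 h1'
    intro j
    show Ge v 1 (w j - (w i * (u i)⁻¹) * u j)
    fin_cases i <;> fin_cases j
    · have : w 0 - (w 0 * (u 0)⁻¹) * u 0 = 0 := by
        have : u 0 ≠ 0 := hi
        field_simp
        ring
      show Ge v 1 (w 0 - (w 0 * (u 0)⁻¹) * u 0)
      rw [this]
      exact fun h => absurd rfl h
    · have h2 : w 1 - (w 0 * (u 0)⁻¹) * u 1 = (u 0 * w 1 - u 1 * w 0) * (u 0)⁻¹ := by
        have : u 0 ≠ 0 := hi
        field_simp
      show Ge v 1 (w 1 - (w 0 * (u 0)⁻¹) * u 1)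
      rw [h2]
      exact h1
    · have h2 : w 0 - (w 1 * (u 1)⁻¹) * u 0 = -((u 0 * w 1 - u 1 * w 0) * (u 1)⁻¹) := by
        have : u 1 ≠ 0 := hi
        field_simp
        ring
      show Ge v 1 (w 0 - (w 1 * (u 1)⁻¹) * u 0)
      rw [h2]
      exact h1'
    · have : w 1 - (w 1 * (u 1)⁻¹) * u 1 = 0 := by
        have : u 1 ≠ 0 := hi
        field_simp
        ring
      show Ge v 1 (w 1 - (w 1 * (u 1)⁻¹) * u 1)
      rw [this]
      exact fun h => absurd rfl h

/-- the vector of the edge -/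
private theorem exists_vec {v : F → ℤ} (hv : IsDV v) {m : GL (Fin 2) F} (hm : Ds v 1 m) :
    ∃ u : Fin 2 → F, GeV v 0 u ∧ (∃ i, u i ≠ 0 ∧ v (u i) = 0) ∧
      ∀ (A B : M2 F), GeM v 0 A → GeM v 0 B → A * m.val = m.val * B → ∃ c, Ge v 0 c ∧ Cg v (A.mulVec u) (c • u) := by
  obtain ⟨n, h1, h2⟩ := hm
  obtain ⟨q, hq, hvq⟩ := exists_val hv (-n)
  have hdet : m.val.det ≠ 0 := m.det.ne_zero
  have h2' : v m.val.det = 2 * n + 1 := h2
  have hex : ∃ i j, m.val i j ≠ 0 ∧ v (m.val i j) = n := by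
    by_contra hcon
    push Not at hcon
    have h3 : ∀ i j, Ge v (n + 1) (m.val i j) := by
      intro i j h0
      have := hcon i j h0
      have := h1 i j h0
      omega
    have h4 : Ge v (n + 1 + (n + 1)) m.val.det := by
      rw [Matrix.det_fin_two, sub_eq_add_neg]
      exact ge_add hv (ge_mul hv (h3 _ _) (h3 _ _)) (ge_neg hv (ge_mul hv (h3 _ _) (h3 _ _)))
    have := h4 hdet
    omega
  obtain ⟨i, j, h3, h4⟩ := hex
  have hu0 : GeV v 0 (fun l => q * m.val l j) := by
    intro l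
    have h5 : Ge v (-n) q := fun _ => hvq.ge
    have := ge_mul hv h5 (h1 l j)
    rwa [neg_add_cancel] at this
  refine ⟨fun l => q * m.val l j, hu0, ⟨i, mul_ne_zero hq h3, ?_⟩, ?_⟩
  · rw [hv.mul _ _ hq h3, hvq, h4]
    ring
  · intro A B hA hB hAB
    refine cg_of_wedge hv (i := i) (mul_ne_zero hq h3) ?_ (geV_mulVec hv hA hu0) ?_
    · rw [hv.mul _ _ hq h3, hvq, h4]
      ring
    · have e : ∀ l, A.mulVec (fun l => q * m.val l j) l = q * (m.val l 0 * B 0 j + m.val l 1 * B 1 j) := by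
        intro l
        have e1 : (A * m.val) l j = (m.val * B) l j := by rw [hAB]
        rw [Matrix.mul_apply, Matrix.mul_apply, Fin.sum_univ_two, Fin.sum_univ_two] at e1
        have e2 : A.mulVec (fun l => q * m.val l j) l = A l 0 * (q * m.val 0 j) + A l 1 * (q * m.val 1 j) := by
          simp [Matrix.mulVec, dotProduct, Fin.sum_univ_two]
        rw [e2]
        linear_combination q * e1
      have hb : ∃ b : F, Ge v 0 b ∧ (q * m.val 0 j) * (A.mulVec (fun l => q * m.val l j) 1) -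
          (q * m.val 1 j) * (A.mulVec (fun l => q * m.val l j) 0) = q * q * m.val.det * b := by
        rw [e 0, e 1, Matrix.det_fin_two]
        fin_cases j
        · refine ⟨B 1 0, hB 1 0, ?_⟩
          show q * m.val 0 0 * (q * (m.val 1 0 * B 0 0 + m.val 1 1 * B 1 0)) -
            q * m.val 1 0 * (q * (m.val 0 0 * B 0 0 + m.val 0 1 * B 1 0)) = _
          ring
        · refine ⟨-B 0 1, ge_neg hv (hB 0 1), ?_⟩
          show q * m.val 0 1 * (q * (m.val 1 0 * B 0 1 + m.val 1 1 * B 1 1)) -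
            q * m.val 1 1 * (q * (m.val 0 0 * B 0 1 + m.val 0 1 * B 1 1)) = _
          ring
      obtain ⟨b, hb0, hb1⟩ := hb
      rw [hb1]
      have h5 : Ge v 1 (q * q * m.val.det) := by
        intro _
        rw [hv.mul _ _ (mul_ne_zero hq hq) hdet, hv.mul _ _ hq hq, hvq, h2']
        omega
      have := ge_mul hv h5 hb0
      rwa [add_zero] at this

/-- the trace -/
private theorem trace_aux {v : F → ℤ} (hv : IsDV v) {u : Fin 2 → F} {i : Fin 2} (hi : u i ≠ 0) (hvi : v (u i) = 0)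
    {g : M2 F} (hg : GeM v 0 g) (hd : g.det = 1) (h : Cg v (g.mulVec u) u) : Ge v 1 (g.trace - 2) := by
  -- Cayley Hamilton
  have hch : ∀ w : Fin 2 → F, g.mulVec (g.mulVec w) - g.trace • (g.mulVec w) + w = 0 := by
    intro w
    rw [Matrix.det_fin_two] at hd
    funext l
    rw [Matrix.trace_fin_two]
    fin_cases l
    · show (g 0 0 * (g 0 0 * w 0 + (g 0 1 * w 1 + 0)) + (g 0 1 * (g 1 0 * w 0 + (g 1 1 * w 1 + 0)) + 0)) -
          (g 0 0 + g 1 1) * (g 0 0 * w 0 + (g 0 1 * w 1 + 0)) + w 0 = 0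
      linear_combination (-(w 0)) * hd
    · show (g 1 0 * (g 0 0 * w 0 + (g 0 1 * w 1 + 0)) + (g 1 1 * (g 1 0 * w 0 + (g 1 1 * w 1 + 0)) + 0)) -
          (g 0 0 + g 1 1) * (g 1 0 * w 0 + (g 1 1 * w 1 + 0)) + w 1 = 0
      linear_combination (-(w 1)) * hd
  have ht : Ge v 0 g.trace := by
    rw [Matrix.trace_fin_two]
    exact ge_add hv (hg 0 0) (hg 1 1)
  have h1 : Cg v (g.mulVec (g.mulVec u)) u := cg_trans hv (cg_mulVec hv hg h) h
  have h2 : Cg v (g.trace • g.mulVec u) (g.trace • u) := cg_smul hv ht h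
  have h3 : (g.trace - 2) • u = (g.mulVec (g.mulVec u) - u) - (g.trace • g.mulVec u - g.trace • u) := by
    have := hch u
    have h4 : g.mulVec (g.mulVec u) = g.trace • (g.mulVec u) - u := by
      rw [← sub_eq_zero, ← this]
      abel
    rw [h4, sub_smul, two_smul]
    abel
  have h5 : GeV v 1 ((g.trace - 2) • u) := by
    rw [h3, sub_eq_add_neg]
    exact geV_add hv h1 (geV_neg hv h2)
  have h6 := ge_div hv (h5 i) hi hvi
  rw [sub_zero] at h6
  have h7 : ((g.trace - 2) • u) i * (u i)⁻¹ = g.trace - 2 := by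
    show (g.trace - 2) * u i * (u i)⁻¹ = _
    rw [mul_assoc, mul_inv_cancel₀ hi, mul_one]
  rwa [h7] at h6

/-- the group of the matrices which are unipotent modulo the maximal ideal with respect to the line of `u` -/
private def Nu {v : F → ℤ} (hv : IsDV v) (u : Fin 2 → F) : Subgroup (GL (Fin 2) F) where
  carrier := {g | GeM v 0 g.val ∧ GeM v 0 (g⁻¹).val ∧ g.val.det = 1 ∧ Cg v (g.val.mulVec u) u}
  mul_mem' := by
    rintro a b ⟨ha, ha', hda, hua⟩ ⟨hb, hb', hdb, hub⟩
    refine ⟨?_, ?_, ?_, ?_⟩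
    · have := geM_mul hv ha hb
      rwa [add_zero] at this
    · have := geM_mul hv hb' ha'
      rw [add_zero] at this
      rw [mul_inv_rev]
      exact this
    · rw [Units.val_mul, Matrix.det_mul, hda, hdb, mul_one]
    · rw [Units.val_mul, ← Matrix.mulVec_mulVec]
      exact cg_trans hv (cg_mulVec hv ha hub) hua
  one_mem' := by
    refine ⟨geM_one hv, ?_, ?_, ?_⟩
    · rw [inv_one]
      exact geM_one hv
    · rw [Units.val_one, Matrix.det_one]
    · rw [Units.val_one, Matrix.one_mulVec]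
      exact cg_refl u
  inv_mem' := by
    rintro a ⟨ha, ha', hda, hua⟩
    refine ⟨ha', ?_, ?_, ?_⟩
    · rw [inv_inv]
      exact ha
    · have h1 : (a⁻¹).val.det * a.val.det = 1 := by
        rw [← Matrix.det_mul, ← Units.val_mul, inv_mul_cancel, Units.val_one, Matrix.det_one]
      rwa [hda, mul_one] at h1
    · have h1 := cg_mulVec hv ha' hua
      rw [Matrix.mulVec_mulVec, ← Units.val_mul, inv_mul_cancel, Units.val_one, Matrix.one_mulVec] at h1
      exact cg_symm hv h1

/-- the normalised matrices -/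
private theorem exists_norm {v : F → ℤ} (hv : IsDV v) {a : GL (Fin 2) F} (ha : Ds v 0 a) :
    ∃ (s : F), s ≠ 0 ∧ GeM v 0 (s • a.val) ∧ GeM v 0 (s⁻¹ • (a⁻¹).val) ∧ vd v a = 2 * (- v s) := by
  obtain ⟨n, h1, h2⟩ := ha
  obtain ⟨s, hs, hvs⟩ := exists_val hv (-n)
  refine ⟨s, hs, ?_, ?_, by rw [h2, hvs]; ring⟩
  · intro i j
    have h3 : Ge v (-n) s := fun _ => hvs.ge
    have := ge_mul hv h3 (h1 i j)
    rwa [neg_add_cancel] at this
  · intro i j
    have h3 : Ge v n s⁻¹ := by
      intro _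
      rw [hv.inv hs, hvs, neg_neg]
    have h4 := geM_inv hv h1 i j
    have h5 : v a.det.val = 2 * n + 0 := h2
    have := ge_mul hv h3 h4
    rw [h5] at this
    rw [show n + (n - (2 * n + 0)) = 0 by ring] at this
    exact this

/-- Proof. There is `k` with `x = k x₀`, `y = k y₀` where `x₀` is the coset of `1` and `y₀` the coset of `ut p 0` or a similar
matrix (`p` a uniformiser): let `x` be the coset of `k`, `k⁻¹ y` is adjacent to `x₀`; by `exists_ut`, `ds_ut` it is the coset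
of `ut p a` with `v a ≥ 0` or of `ut p⁻¹ 0`; the matrices of `Zs` map these to each other. So up to conjugation `P` consists
of matrices `c (a, b; p c', d)` with `a, b, c', d` of valuation at least `0`, `a`, `d` of valuation `0` (up to transposition).
The quotient `a / d` modulo the maximal ideal is a homomorphism; for commutators `a = d = 1` modulo the maximal ideal up to
the scalar, which is a unit with square `1` times .. (normalise the generators of the commutator subgroup: for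
`g = c g₀` with `g₀` in the Iwahori group, `⁅g, h⁆ = ⁅g₀, h₀⁆`). So elements of `⁅P, P⁆` are in the Iwahori group with diagonal
entries congruent to `1`. -/
theorem trace_of_edge {P : Subgroup (GL (Fin 2) F)} {x y : Vx hv} (hxy : (Tv hv).Adj x y)
    (hx : ∀ g ∈ P, g • x = x) (hy : ∀ g ∈ P, g • y = y) : ∀ c ∈ ⁅P, P⁆, Ge v 1 (c.val.trace - 2) := by
  obtain ⟨k, rfl⟩ := QuotientGroup.mk_surjective x
  obtain ⟨h, rfl⟩ := QuotientGroup.mk_surjective y
  have hm : Ds v 1 (k⁻¹ * h) := (adj_iff hv).1 hxy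
  obtain ⟨u, hu, ⟨i, hi, hvi⟩, hu2⟩ := exists_vec hv hm
  -- stabilisers
  have hst : ∀ (g b : GL (Fin 2) F), g • (b : Vx hv) = (b : Vx hv) → Ds v 0 (b⁻¹ * g * b) := by
    intro g b hg
    have h1 : Ds v 0 ((g * b)⁻¹ * b) := (eq_iff hv).1 hg
    have h2 := Ds.inv hv h1
    rwa [mul_inv_rev, inv_inv, ← mul_assoc] at h2
  -- the normalised matrices of the elements of the group
  have key : ∀ a ∈ P, ∃ (s : F) (A A' : M2 F) (l l' : F), s ≠ 0 ∧ A = s • (k⁻¹ * a * k).val ∧
      A' = s⁻¹ • ((k⁻¹ * a * k)⁻¹).val ∧ GeM v 0 A ∧ GeM v 0 A' ∧ Ge v 0 l ∧ Ge v 0 l' ∧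
      Cg v (A.mulVec u) (l • u) ∧ Cg v (A'.mulVec u) (l' • u) := by
    intro a ha
    have h1 := hst a k (hx a ha)
    have h2 := hst a h (hy a ha)
    obtain ⟨s, hs, h3, h4, h5⟩ := exists_norm hv h1
    obtain ⟨t, ht, h6, h7, h8⟩ := exists_norm hv h2
    have hvst : v s = v t := by
      rw [vd_mul hv, vd_mul hv, vd_inv hv] at h5 h8
      omega
    -- the second matrix, with the scalar of the first
    have h9 : GeM v 0 (s • (h⁻¹ * a * h).val) := by
      intro p q
      have e1 : Ge v 0 (s * t⁻¹) := by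
        intro _
        rw [hv.mul _ _ hs (inv_ne_zero ht), hv.inv ht, hvst]
        omega
      have e2 := ge_mul hv e1 (h6 p q)
      rw [add_zero] at e2
      have e3 : s * t⁻¹ * (t • (h⁻¹ * a * h).val) p q = (s • (h⁻¹ * a * h).val) p q := by
        show s * t⁻¹ * (t * (h⁻¹ * a * h).val p q) = s * (h⁻¹ * a * h).val p q
        field_simp
      rwa [e3] at e2
    have h10 : GeM v 0 (s⁻¹ • ((h⁻¹ * a * h)⁻¹).val) := by
      intro p q
      have e1 : Ge v 0 (s⁻¹ * t) := by
        intro _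
        rw [hv.mul _ _ (inv_ne_zero hs) ht, hv.inv hs, hvst]
        omega
      have e2 := ge_mul hv e1 (h7 p q)
      rw [add_zero] at e2
      have e3 : s⁻¹ * t * (t⁻¹ • ((h⁻¹ * a * h)⁻¹).val) p q = (s⁻¹ • ((h⁻¹ * a * h)⁻¹).val) p q := by
        show s⁻¹ * t * (t⁻¹ * ((h⁻¹ * a * h)⁻¹).val p q) = s⁻¹ * ((h⁻¹ * a * h)⁻¹).val p q
        field_simp
      rwa [e3] at e2
    obtain ⟨l, hl, hl2⟩ := hu2 (s • (k⁻¹ * a * k).val) (s • (h⁻¹ * a * h).val) h3 h9 (by
      rw [Matrix.smul_mul, Matrix.mul_smul, ← Units.val_mul, ← Units.val_mul]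
      congr 2
      group)
    obtain ⟨l', hl', hl2'⟩ := hu2 (s⁻¹ • ((k⁻¹ * a * k)⁻¹).val) (s⁻¹ • ((h⁻¹ * a * h)⁻¹).val) h4 h10 (by
      rw [Matrix.smul_mul, Matrix.mul_smul, ← Units.val_mul, ← Units.val_mul]
      congr 2
      group)
    exact ⟨s, _, _, l, l', hs, rfl, rfl, h3, h4, hl, hl', hl2, hl2'⟩
  -- the commutators
  have hle : ⁅P, P⁆ ≤ (Nu hv u).comap (MulAut.conj k⁻¹).toMonoidHom := by
    refine comm_le ?_
    intro a ha b hb
    rw [Subgroup.mem_comap]
    obtain ⟨s, A, A', l, l', hs, eA, eA', hA, hA', hl, hl', hAu, hAu'⟩ := key a ha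
    obtain ⟨t, B, B', m, m', ht, eB, eB', hB, hB', hm0, hm0', hBu, hBu'⟩ := key b hb
    have e0 : (MulAut.conj k⁻¹).toMonoidHom (a * b * a⁻¹ * b⁻¹) = (k⁻¹ * a * k) * (k⁻¹ * b * k) * (k⁻¹ * a * k)⁻¹ *
        (k⁻¹ * b * k)⁻¹ := by
      show k⁻¹ * (a * b * a⁻¹ * b⁻¹) * (k⁻¹)⁻¹ = _
      group
    have e1 : ((MulAut.conj k⁻¹).toMonoidHom (a * b * a⁻¹ * b⁻¹)).val = A * B * A' * B' := by
      rw [e0, eA, eA', eB, eB']
      simp only [Units.val_mul, Matrix.smul_mul, Matrix.mul_smul, smul_smul]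
      rw [show t⁻¹ * (s⁻¹ * (t * s)) = 1 by field_simp, one_smul]
    have e2 : (((MulAut.conj k⁻¹).toMonoidHom (a * b * a⁻¹ * b⁻¹))⁻¹).val = B * A * B' * A' := by
      rw [e0, eA, eA', eB, eB']
      simp only [mul_inv_rev, inv_inv, Units.val_mul, Matrix.smul_mul, Matrix.mul_smul, smul_smul]
      rw [show s⁻¹ * (t⁻¹ * (s * t)) = 1 by field_simp, one_smul]
      simp only [mul_assoc]
    have hAA : A * A' = 1 := by
      rw [eA, eA', Matrix.smul_mul, Matrix.mul_smul, smul_smul, mul_inv_cancel₀ hs, one_smul, ← Units.val_mul,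
        mul_inv_cancel, Units.val_one]
    have hBB : B * B' = 1 := by
      rw [eB, eB', Matrix.smul_mul, Matrix.mul_smul, smul_smul, mul_inv_cancel₀ ht, one_smul, ← Units.val_mul,
        mul_inv_cancel, Units.val_one]
    have hll : Cg v u ((l' * l) • u) := by
      have h1 : Cg v (A.mulVec (A'.mulVec u)) (A.mulVec (l' • u)) := cg_mulVec hv hA hAu'
      rw [Matrix.mulVec_mulVec, hAA, Matrix.one_mulVec, Matrix.mulVec_smul] at h1
      have h2 := cg_trans hv h1 (cg_smul hv hl' hAu)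
      rwa [smul_smul] at h2
    have hmm : Cg v u ((m' * m) • u) := by
      have h1 : Cg v (B.mulVec (B'.mulVec u)) (B.mulVec (m' • u)) := cg_mulVec hv hB hBu'
      rw [Matrix.mulVec_mulVec, hBB, Matrix.one_mulVec, Matrix.mulVec_smul] at h1
      have h2 := cg_trans hv h1 (cg_smul hv hm0' hBu)
      rwa [smul_smul] at h2
    refine ⟨?_, ?_, ?_, ?_⟩
    · rw [e1]
      have := geM_mul hv (geM_mul hv (geM_mul hv hA hB) hA') hB'
      simpa using this
    · rw [e2]
      have := geM_mul hv (geM_mul hv (geM_mul hv hB hA) hB') hA'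
      simpa using this
    · rw [e0]
      have hk : ∀ g : GL (Fin 2) F, g.val.det = g.det.val := fun g => rfl
      rw [hk]
      simp only [map_mul, map_inv]
      rw [show (k.det)⁻¹ * a.det * k.det * ((k.det)⁻¹ * b.det * k.det) * ((k.det)⁻¹ * a.det * k.det)⁻¹ *
        ((k.det)⁻¹ * b.det * k.det)⁻¹ = 1 by
          simp only [mul_inv_rev, inv_inv]
          rw [mul_comm (k.det)⁻¹ a.det, mul_comm (k.det)⁻¹ b.det]
          simp only [inv_mul_cancel_right]
          rw [mul_comm a.det b.det]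
          simp]
      rfl
    · rw [e1, ← Matrix.mulVec_mulVec, ← Matrix.mulVec_mulVec, ← Matrix.mulVec_mulVec]
      have s1 : Cg v (A'.mulVec (B'.mulVec u)) ((m' * l') • u) := by
        have h1 := cg_mulVec hv hA' hBu'
        rw [Matrix.mulVec_smul] at h1
        have h2 := cg_trans hv h1 (cg_smul hv hm0' hAu')
        rwa [smul_smul] at h2
      have hml : Ge v 0 (m' * l') := by
        have := ge_mul hv hm0' hl'
        rwa [add_zero] at this
      have s2 : Cg v (B.mulVec (A'.mulVec (B'.mulVec u))) ((m' * l' * m) • u) := by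
        have h1 := cg_mulVec hv hB s1
        rw [Matrix.mulVec_smul] at h1
        have h2 := cg_trans hv h1 (cg_smul hv hml hBu)
        rwa [smul_smul] at h2
      have hmlm : Ge v 0 (m' * l' * m) := by
        have := ge_mul hv hml hm0
        rwa [add_zero] at this
      have s3 : Cg v (A.mulVec (B.mulVec (A'.mulVec (B'.mulVec u)))) ((m' * l' * m * l) • u) := by
        have h1 := cg_mulVec hv hA s2
        rw [Matrix.mulVec_smul] at h1
        have h2 := cg_trans hv h1 (cg_smul hv hmlm hAu)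
        rwa [smul_smul] at h2
      have hmm0 : Ge v 0 (m' * m) := by
        have := ge_mul hv hm0' hm0
        rwa [add_zero] at this
      have s4 : Cg v ((m' * m) • u) ((m' * l' * m * l) • u) := by
        have h1 := cg_smul hv hmm0 hll
        rw [smul_smul] at h1
        rwa [show m' * m * (l' * l) = m' * l' * m * l by ring] at h1
      exact cg_trans hv s3 (cg_trans hv (cg_symm hv s4) (cg_symm hv hmm))
  intro c hc
  obtain ⟨h1, h2, h3, h4⟩ := hle hc
  have h5 := trace_aux hv hi hvi h1 h3 h4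
  have h6 : ((MulAut.conj k⁻¹).toMonoidHom c).val.trace = c.val.trace := by
    show (k⁻¹ * c * (k⁻¹)⁻¹).val.trace = _
    rw [Units.val_mul, Matrix.trace_mul_comm, ← Units.val_mul, ← mul_assoc]
    simp
  rwa [h6] at h5

end Pool.Agent.H76.GT
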