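import Pool.Agent.H76.GT.PlD

/-!
# H76 GT, PlF: every element fixes almost all standard vertices
-/

set_option autoImplicit false

namespace Pool.Agent.H76.GT

open Pool.Agent.H54.TT

variable {F : Type} [Field F]

variable {ι : Type} {v : ι → F → ℤ} (h : PlaceSys F ι v)

/-- every element fixes the standard vertex of almost all trees: the entries and the determinant have valuation zero or are
zero, for almost all `i` -/
theorem fix_finite (g : GL (Fin 2) F) : {i | g • (((1 : GL (Fin 2) F) : Vx (h.dv i))) ≠ ((1 : GL (Fin 2) F) : Vx (h.dv i))}.Finite := by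
  have hdet : {i | v i g.det.val ≠ 0}.Finite := h.fin _ g.det.ne_zero
  have hent : ∀ a b : Fin 2, {i | g.val a b ≠ 0 ∧ v i (g.val a b) ≠ 0}.Finite := by
    intro a b
    by_cases h0 : g.val a b = 0
    · have h1 : {i | g.val a b ≠ 0 ∧ v i (g.val a b) ≠ 0} = ∅ := by
        ext i
        simp [h0]
      rw [h1]
      exact Set.finite_empty
    · exact (h.fin _ h0).subset fun i hi => hi.2
  have hall : (⋃ a : Fin 2, ⋃ b : Fin 2, {i | g.val a b ≠ 0 ∧ v i (g.val a b) ≠ 0}).Finite :=
    Set.finite_iUnion fun a => Set.finite_iUnion fun b => hent a b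
  refine (hdet.union hall).subset ?_
  intro i hi
  by_contra hcon
  apply hi
  rw [Set.mem_union, not_or] at hcon
  obtain ⟨h1, h2⟩ := hcon
  have h1' : v i g.det.val = 0 := by
    by_contra hc
    exact h1 hc
  have h3 : ∀ a b : Fin 2, g.val a b ≠ 0 → v i (g.val a b) = 0 := by
    intro a b hab
    by_contra hc
    exact h2 (Set.mem_iUnion.2 ⟨a, Set.mem_iUnion.2 ⟨b, hab, hc⟩⟩)
  have h4 : Ds (v i) 0 ((1 : GL (Fin 2) F)⁻¹ * g) := by
    rw [inv_one, one_mul]
    refine ⟨0, ?_, ?_⟩
    · intro a b hab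
      rw [h3 a b hab]
    · unfold vd
      rw [h1']
      ring
  have h5 : (((1 : GL (Fin 2) F) : Vx (h.dv i))) = ((g : GL (Fin 2) F) : Vx (h.dv i)) :=
    (eq_iff (h.dv i)).2 h4
  have h6 : g • (((1 : GL (Fin 2) F) : Vx (h.dv i))) = ((g * 1 : GL (Fin 2) F) : Vx (h.dv i)) := rfl
  rw [h6, mul_one]
  exact h5.symm

end Pool.Agent.H76.GT
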