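import Pool.Agent.H76.GT.Pg

/-!
# H76 GT, PlT: the trace of an element with a fixed vertex
-/

set_option autoImplicit false

namespace Pool.Agent.H76.GT

open Pool.Agent.H54.TT

variable {F : Type} [Field F]

variable {v : F → ℤ} (hv : IsDV v)

/-- Proof. `x` is the coset of `h`, and `h⁻¹ g h` is in `Zs hv`: its entries have valuation at least `n` and the valuation of
its determinant, which is zero, is `2 n`; so `n = 0` and the trace of `h⁻¹ g h`, which is the trace of `g`, has valuation at
least zero. -/
theorem trace_of_fix {g : GL (Fin 2) F} {x : Vx hv} (h : g • x = x) (hd : g.val.det = 1) : Ge v 0 g.val.trace := by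
  obtain ⟨a, rfl⟩ := QuotientGroup.mk_surjective x
  have h1 : ((a : GL (Fin 2) F) : Vx hv) = ((g * a : GL (Fin 2) F) : Vx hv) := h.symm
  obtain ⟨n, h2, h3⟩ := (eq_iff hv).1 h1
  have h4 : vd v g = 0 := by
    have h5 : g.det = 1 := Units.ext hd
    unfold vd
    rw [h5, Units.val_one]
    exact hv.one
  have h5 : vd v (a⁻¹ * (g * a)) = 0 := by
    rw [vd_mul hv, vd_mul hv, vd_inv hv, h4]
    ring
  have hn : n = 0 := by omega
  rw [hn] at h2
  have h6 : g.val.trace = (a⁻¹ * (g * a) : GL (Fin 2) F).val.trace := by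
    rw [Units.val_mul, Units.val_mul, Matrix.trace_mul_comm, Matrix.mul_assoc, Units.mul_inv, Matrix.mul_one]
  rw [h6, Matrix.trace_fin_two]
  exact ge_add hv (h2 0 0) (h2 1 1)

end Pool.Agent.H76.GT
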