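import Pool.Agent.H76.GT.AlgC
import Pool.Agent.H76.GT.PlT
import Pool.Agent.H76.GT.PlE
import Pool.Agent.H76.GT.PlF

/-!
# H76 GT, Pl: groups with a fixed vertex in every tree and a fixed edge
-/

set_option autoImplicit false

namespace Pool.Agent.H76.GT

open Pool.Agent.H54.TT

variable {F : Type} [Field F]

variable {ι : Type} {v : ι → F → ℤ} (h : PlaceSys F ι v)

/-- traces are constants -/
theorem trace_mem_kap {g : GL (Fin 2) F} (hg : ∀ i, ∃ x : Vx (h.dv i), g • x = x) (hd : g.val.det = 1) :
    g.val.trace ∈ kap h := by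
  intro i
  obtain ⟨x, hx⟩ := hg i
  exact trace_of_fix (h.dv i) hx hd

/-- Proof. Let `c ∈ ⁅P, P⁆`: the determinant is `1`, `c` fixes a vertex in every tree, so the trace is a constant, and
`trace c - 2` is a constant of valuation at least one at `i`, so it is zero. Then `finrank_spn_le_three`. -/
theorem finrank_le_of_edge {P : Subgroup (GL (Fin 2) F)} (hP : ∀ i, ∃ x : Vx (h.dv i), ∀ g ∈ P, g • x = x) {i : ι}
    {x y : Vx (h.dv i)} (hxy : (Tv (h.dv i)).Adj x y) (hx : ∀ g ∈ P, g • x = x) (hy : ∀ g ∈ P, g • y = y) :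
    Module.finrank F (spn P) ≤ 3 := by
  refine finrank_spn_le_three P fun c hc => ?_
  have hcP : c ∈ P := (Subgroup.commutator_le.2 (fun a ha b hb =>
    P.mul_mem (P.mul_mem (P.mul_mem ha hb) (P.inv_mem ha)) (P.inv_mem hb))) hc
  have hdk : ⁅P, P⁆ ≤ (Matrix.GeneralLinearGroup.det (n := Fin 2) (R := F)).ker :=
    Subgroup.commutator_le.2 (fun a _ b _ => by
      rw [MonoidHom.mem_ker, map_commutatorElement, commutatorElement_eq_one_iff_mul_comm]
      exact mul_comm _ _)
  have hd : c.val.det = 1 := by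
    have h1 : Matrix.GeneralLinearGroup.det c = 1 := hdk hc
    have h2 := congrArg (fun u : Fˣ => (u : F)) h1
    simpa using h2
  have ht : c.val.trace ∈ kap h := trace_mem_kap h
    (fun j => by
      obtain ⟨z, hz⟩ := hP j
      exact ⟨z, hz c hcP⟩) hd
  have ht2 : c.val.trace - 2 ∈ kap h := by
    have h2 : (2 : F) ∈ kap h := by
      have := (kap h).add_mem (kap h).one_mem (kap h).one_mem
      rwa [one_add_one_eq_two] at this
    exact (kap h).sub_mem ht h2
  have he := trace_of_edge (h.dv i) hxy hx hy c hc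
  by_contra hn
  have hne : c.val.trace - 2 ≠ 0 := fun h0 => hn (by rwa [sub_eq_zero] at h0)
  have h0 := h.const _ hne (fun j => ht2 j hne) i
  have h1 := he hne
  omega

end Pool.Agent.H76.GT
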