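import Pool.Agent.H76.GT.Quat
import Pool.Agent.H76.GT.PlN
import Pool.Agent.H76.GT.DefsT

/-!
# H76 GT, Base: groups with a fixed vertex in every tree are in the class
-/

set_option autoImplicit false

namespace Pool.Agent.H76.GT

open Pool.Agent.H54.TT Pool.Agent.H98.FJ
open scoped commutatorElement

variable {F : Type} [Field F] {ι : Type} {v : ι → F → ℤ} (h : PlaceSys F ι v)

private theorem bs_norm {P : Subgroup (GL (Fin 2) F)} {g : GL (Fin 2) F} (hg : g ∈ P) (x : GL (Fin 2) F) :
    x ∈ ⁅P, P⁆ ↔ g⁻¹ * x * g ∈ ⁅P, P⁆ := by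
  have key : ∀ a ∈ P, ∀ y ∈ ⁅P, P⁆, a * y * a⁻¹ ∈ ⁅P, P⁆ := by
    intro a ha y hy
    have hyP : y ∈ P := Subgroup.commutator_le_self P hy
    have h1 : ⁅a, y⁆ ∈ ⁅P, P⁆ := Subgroup.commutator_mem_commutator ha hyP
    have h2 : a * y * a⁻¹ = ⁅a, y⁆ * y := by
      rw [commutatorElement_def]
      group
    rw [h2]
    exact Subgroup.mul_mem _ h1 hy
  constructor
  · intro hx
    have := key g⁻¹ (P.inv_mem hg) x hx
    rwa [inv_inv] at this
  · intro hx
    have := key g hg _ hx
    have e : g * (g⁻¹ * x * g) * g⁻¹ = x := by group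
    rwa [e] at this

/-- Proof. `P = pre G`, `U = ⁅P, P⁆`; determinants one, traces in `kap h` (`trace_mem_kap`, the elements of `P` fix the same
vertices). `d = finrank (spn U)`. If `d = 4`: `exists_isQ`, `exists_hom` (`P` normalises `U`, so it normalises the `k`-span),
`hκ`. If `d = 2` or `3`: `P ≤ nz (spn U)`, and `G` is the image of `P`, solvable (`stab_solvable`). If `d ≤ 1`: all elements of
`U` are scalar, so `G` is commutative. -/
theorem base_mem {C : (G : Type) → [Group G] → Prop} (hC : Inherits C) (hsol : ∀ (G : Type) [Group G], IsSolvable G → C G)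
    (hκ : ∀ (K : Type) [Field K] [Algebra (kap h) K] [Module.Finite (kap h) K], Module.finrank (kap h) K ≤ 2 → C (PG K))
    (G : Subgroup (PG F)) (hG : ∀ i, ∃ x : Vx (h.dv i), ∀ g ∈ G, g • x = x) : C G := by
  classical
  obtain ⟨P, hP⟩ : ∃ P : Subgroup (GL (Fin 2) F), P = pre G := ⟨_, rfl⟩
  obtain ⟨U, hU⟩ : ∃ U : Subgroup (GL (Fin 2) F), U = ⁅P, P⁆ := ⟨_, rfl⟩
  have hUP : U ≤ P := by
    rw [hU]
    exact Subgroup.commutator_le_self P
  have hfix : ∀ g ∈ P, ∀ i, ∃ x : Vx (h.dv i), g • x = x := by
    intro g hg i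
    obtain ⟨x, hx⟩ := hG i
    refine ⟨x, ?_⟩
    have hg' : pr F g ∈ G := by
      rw [hP] at hg
      exact hg
    exact hx _ hg'
  have hdk : U ≤ (Matrix.GeneralLinearGroup.det (n := Fin 2) (R := F)).ker := by
    rw [hU]
    exact Subgroup.commutator_le.2 (fun a _ b _ => by
      rw [MonoidHom.mem_ker, map_commutatorElement, commutatorElement_eq_one_iff_mul_comm]
      exact mul_comm _ _)
  have hd : ∀ g ∈ U, g.val.det = 1 := by
    intro g hg
    have h1 : Matrix.GeneralLinearGroup.det g = 1 := hdk hg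
    have h2 := congrArg (fun u : Fˣ => (u : F)) h1
    simpa using h2
  have ht : ∀ g ∈ U, g.val.trace ∈ kap h := fun g hg => trace_mem_kap h (hfix g (hUP hg)) (hd g hg)
  have hconj : ∀ g ∈ P, ∀ x, x ∈ U ↔ g⁻¹ * x * g ∈ U := by
    intro g hg x
    rw [hU]
    exact bs_norm hg x
  have h4 := finrank_le_four (spn U)
  by_cases hd4 : Module.finrank F (spn U) = 4
  · have hs : spn U = ⊤ := by
      apply Submodule.eq_top_of_finrank_eq
      rw [hd4, Module.finrank_matrix]
      simp
    obtain ⟨L, hL, hLU⟩ := exists_isQ (kap h) U hd ht hs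
    have hn : ∀ g ∈ pre G, ∀ x ∈ L, cj g x ∈ L := by
      intro g hg x hx
      rw [← hP] at hg
      rw [hLU] at hx ⊢
      induction hx using Submodule.span_induction with
      | mem x hx =>
        obtain ⟨u, hu, rfl⟩ := hx
        refine Submodule.subset_span ⟨g * u * g⁻¹, ?_, ?_⟩
        · have := (hconj g⁻¹ (P.inv_mem hg) u).1 hu
          rwa [inv_inv] at this
        · unfold cj
          rw [Units.val_mul, Units.val_mul]
      | zero =>
        have e : cj g (0 : M2 F) = 0 := by
          unfold cj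
          rw [mul_zero, zero_mul]
        rw [e]
        exact Submodule.zero_mem _
      | add x y _ _ ihx ihy =>
        have e : cj g (x + y) = cj g x + cj g y := by
          unfold cj
          rw [mul_add, add_mul]
        rw [e]
        exact Submodule.add_mem _ ihx ihy
      | smul c x _ ihx =>
        have e : cj g (c • x) = c • cj g x := by
          unfold cj
          rw [Matrix.mul_smul, Matrix.smul_mul]
        rw [e]
        exact Submodule.smul_mem _ c ihx
    obtain ⟨K, i1, i2, i3, i4, f, hf⟩ := exists_hom hL G hn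
    have h5 : C (PG K) := hκ K i4
    have h6 : C f.range := hC.sub (PG K) f.range h5
    exact hC.iso f.range G (MonoidHom.ofInjective hf).symm h6
  by_cases hd2 : 2 ≤ Module.finrank F (spn U)
  · have hd3 : Module.finrank F (spn U) = 2 ∨ Module.finrank F (spn U) = 3 := by omega
    obtain ⟨A, hA⟩ : ∃ A : Sp F, A.sub = spn U := ⟨spn U, rfl⟩
    have hsv : Group.IsSolvable (MulAction.stabilizer (PG F) A) := by
      refine stab_solvable (A := A) ?_ ?_
      · rw [hA]
        exact spn_alg U
      · rw [hA]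
        exact hd3
    have h5 : C (MulAction.stabilizer (PG F) A) := hsol _ hsv
    have hle : G ≤ MulAction.stabilizer (PG F) A := by
      intro p hp
      obtain ⟨g, rfl⟩ := pr_surj p
      have hg : g ∈ P := by
        rw [hP]
        exact hp
      rw [MulAction.mem_stabilizer_iff, pr_smul_sp, hA, ← spn_conj g U U (hconj g hg), ← hA]
      rfl
    have h6 : C (G.subgroupOf (MulAction.stabilizer (PG F) A)) := hC.sub _ _ h5
    exact hC.iso _ _ (Subgroup.subgroupOfEquivOfLe hle) h6
  · have hsc : ∀ u ∈ U, ∃ c : F, u.val = c • (1 : M2 F) := by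
      intro u hu
      have h1 : Module.finrank F (spn U) ≤ 1 := by omega
      have h1U : (1 : M2 F) ∈ spn U := (spn_alg U).one
      have h10 : (⟨1, h1U⟩ : spn U) ≠ 0 := by
        intro e
        have := congrArg Subtype.val e
        exact one_ne_zero (α := M2 F) this
      have h2 : Module.finrank F (spn U) = 1 := by
        refine le_antisymm h1 ?_
        have : Nontrivial (spn U) := ⟨⟨_, _, h10⟩⟩
        exact Module.finrank_pos
      obtain ⟨c, hc⟩ := (finrank_eq_one_iff_of_nonzero' (⟨1, h1U⟩ : spn U) h10).1 h2 ⟨u.val, mem_spn hu⟩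
      exact ⟨c, (congrArg Subtype.val hc).symm⟩
    have hcomm : ∀ a b : G, a * b = b * a := by
      rintro ⟨a, ha⟩ ⟨b, hb⟩
      obtain ⟨x, rfl⟩ := pr_surj a
      obtain ⟨y, rfl⟩ := pr_surj b
      have hx : x ∈ P := by
        rw [hP]
        exact ha
      have hy : y ∈ P := by
        rw [hP]
        exact hb
      have h1 : ⁅x, y⁆ ∈ U := by
        rw [hU]
        exact Subgroup.commutator_mem_commutator hx hy
      have h2 : pr F ⁅x, y⁆ = 1 := pr_eq_one.2 (hsc _ h1)
      rw [map_commutatorElement, commutatorElement_eq_one_iff_mul_comm] at h2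
      exact Subtype.ext h2
    have hs : Group.IsSolvable G := Group.isSolvable_of_comm hcomm
    exact hsol G hs

end Pool.Agent.H76.GT
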