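import Pool.Agent.H76.GT.PlD

/-!
# H76 GT, Dk: the valuations of a Dedekind domain
-/

set_option autoImplicit false

namespace Pool.Agent.H76.GT

open Pool.Agent.H54.TT

variable (A F : Type) [CommRing A] [IsDedekindDomain A] [Field F] [Algebra A F] [IsFractionRing A F]

/-- the valuation of a prime ideal with values in the integers (zero at zero): `- toAdd` of the value of
`IsDedekindDomain.HeightOneSpectrum.valuation` -/
noncomputable def dkv (p : IsDedekindDomain.HeightOneSpectrum A) (x : F) : ℤ := - WithZero.log (p.valuation F x)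

private theorem dk_ne (p : IsDedekindDomain.HeightOneSpectrum A) {x : F} (hx : x ≠ 0) : p.valuation F x ≠ 0 :=
  (Valuation.ne_zero_iff _).mpr hx

theorem dkv_isDV (p : IsDedekindDomain.HeightOneSpectrum A) : IsDV (dkv A F p) where
  mul x y hx hy := by
    unfold dkv
    rw [map_mul, WithZero.log_mul (dk_ne A F p hx) (dk_ne A F p hy)]
    ring
  add x y hx hy hxy := by
    unfold dkv
    rcases le_total (p.valuation F x) (p.valuation F y) with h | h
    · have h1 : p.valuation F (x + y) ≤ p.valuation F y := by
        have := (p.valuation F).map_add x y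
        rwa [max_eq_right h] at this
      have h2 := (WithZero.log_le_log (dk_ne A F p hxy) (dk_ne A F p hy)).mpr h1
      exact (min_le_right _ _).trans (neg_le_neg h2)
    · have h1 : p.valuation F (x + y) ≤ p.valuation F x := by
        have := (p.valuation F).map_add x y
        rwa [max_eq_left h] at this
      have h2 := (WithZero.log_le_log (dk_ne A F p hxy) (dk_ne A F p hx)).mpr h1
      exact (min_le_left _ _).trans (neg_le_neg h2)
  unif := by
    obtain ⟨π, hπ⟩ := p.valuation_exists_uniformizer F
    refine ⟨π, ?_, ?_⟩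
    · intro h
      rw [h, map_zero] at hπ
      exact WithZero.exp_ne_zero hπ.symm
    · unfold dkv
      rw [hπ, WithZero.log_exp]
      ring

/-- Mathlib: the support is finite -/
theorem dkv_fin (x : F) (hx : x ≠ 0) : {p : IsDedekindDomain.HeightOneSpectrum A | dkv A F p x ≠ 0}.Finite := by
  have h1 := IsDedekindDomain.HeightOneSpectrum.Support.finite A x
  have h2 := IsDedekindDomain.HeightOneSpectrum.Support.finite A x⁻¹
  refine (h1.union h2).subset ?_
  intro p hp
  have h3 : p.valuation F x ≠ 1 := by
    intro h
    apply hp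
    unfold dkv
    rw [h]
    simp
  rcases lt_or_gt_of_ne h3 with h | h
  · right
    change 1 < p.valuation F x⁻¹
    rw [map_inv₀]
    exact (one_lt_inv₀ (zero_lt_iff.mpr (dk_ne A F p hx))).mpr h
  · left
    exact h

private theorem dk_le (p : IsDedekindDomain.HeightOneSpectrum A) {x : F} (hx : x ≠ 0) :
    0 ≤ dkv A F p x ↔ p.valuation F x ≤ 1 := by
  have h := WithZero.log_le_log (dk_ne A F p hx) (one_ne_zero (α := WithZero (Multiplicative ℤ)))
  unfold dkv
  rw [WithZero.log_one] at h
  rw [← h]
  constructor <;> intro h1 <;> linarith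

/-- Mathlib: `IsDedekindDomain.HeightOneSpectrum.mem_integers_of_valuation_le_one` -/
theorem dkv_int (x : F) (hx : x ≠ 0) (h : ∀ p : IsDedekindDomain.HeightOneSpectrum A, 0 ≤ dkv A F p x) :
    ∃ a : A, algebraMap A F a = x := by
  obtain ⟨a, ha⟩ := IsDedekindDomain.HeightOneSpectrum.mem_integers_of_valuation_le_one F x
    (fun p => (dk_le A F p hx).mp (h p))
  exact ⟨a, ha⟩

theorem dkv_nonneg (a : A) (ha : algebraMap A F a ≠ 0) (p : IsDedekindDomain.HeightOneSpectrum A) :
    0 ≤ dkv A F p (algebraMap A F a) :=
  (dk_le A F p ha).mpr (p.valuation_le_one a)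

end Pool.Agent.H76.GT
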