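import Pool.Agent.H76.GT.Pg
import Pool.Agent.H76.GT.DefsT

/-!
# H76 GT, FldN: number fields
-/

set_option autoImplicit false

namespace Pool.Agent.H76.GT

open Pool.Agent.H54.TT Pool.Agent.H98.FJ

/-- conjugation as a linear map over the rational numbers -/
private def cjL {F : Type} [Field F] [Algebra ℚ F] (g : GL (Fin 2) F) : M2 F →ₗ[ℚ] M2 F where
  toFun := cj g
  map_add' x y := by
    unfold cj
    rw [mul_add, add_mul]
  map_smul' c x := by
    unfold cj
    rw [Matrix.mul_smul, Matrix.smul_mul, RingHom.id_apply]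

private theorem cjL_apply {F : Type} [Field F] [Algebra ℚ F] (g : GL (Fin 2) F) (x : M2 F) : cjL g x = cj g x := rfl

private def cjH (F : Type) [Field F] [Algebra ℚ F] : GL (Fin 2) F →* Module.End ℚ (M2 F) where
  toFun := cjL
  map_one' := LinearMap.ext fun x => cj_one x
  map_mul' g h := LinearMap.ext fun x => cj_mul g h x

/-- Degree zero, characteristic zero. Proof. `PG F` acts on `M₂(F)` by conjugation: an injective homomorphism to `GL₄(F)`,
and `GL₄(F)` embeds in `GL_(4 r)(ℚ)`, `r = [F : ℚ]`. -/
theorem pg_number {C : (G : Type) → [Group G] → Prop} (hC : Inherits C) (hQ : ∀ n : ℕ, C (GL (Fin n) ℚ)) (F : Type)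
    [Field F] [Algebra ℚ F] [FiniteDimensional ℚ F] : C (PG F) := by
  have hfin : FiniteDimensional ℚ (M2 F) := inferInstance
  let b := Module.finBasis ℚ (M2 F)
  let ψ : GL (Fin 2) F →* GL (Fin (Module.finrank ℚ (M2 F))) ℚ :=
    (((LinearMap.toMatrixAlgEquiv b).toMulEquiv.toMonoidHom).comp (cjH F)).toHomUnits
  have hψ : ∀ g, ψ g = 1 ↔ g ∈ Subgroup.center (GL (Fin 2) F) := by
    intro g
    have h1 : ψ g = 1 ↔ cjL g = LinearMap.id := by
      constructor
      · intro h
        have h2 : LinearMap.toMatrixAlgEquiv b (cjL g) = 1 := congrArg Units.val h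
        rw [← map_one (LinearMap.toMatrixAlgEquiv b)] at h2
        exact (LinearMap.toMatrixAlgEquiv b).injective h2
      · intro h
        apply Units.ext
        show LinearMap.toMatrixAlgEquiv b (cjL g) = 1
        rw [h]
        exact map_one (LinearMap.toMatrixAlgEquiv b)
    rw [h1]
    constructor
    · intro h
      rw [Subgroup.mem_center_iff]
      intro k
      have h2 : cj g k.val = k.val := by
        rw [← cjL_apply, h]
        rfl
      apply Units.ext
      rw [Units.val_mul, Units.val_mul]
      unfold cj at h2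
      calc k.val * g.val = g.val * k.val * (g⁻¹).val * g.val := by rw [h2]
        _ = g.val * k.val := by rw [mul_assoc, Units.inv_mul, mul_one]
    · intro h
      obtain ⟨c, hc⟩ := mem_center_iff.1 h
      exact LinearMap.ext fun x => cj_scalar hc x
  refine hC.of_injective (QuotientGroup.lift (Subgroup.center (GL (Fin 2) F)) ψ fun g hg => (hψ g).2 hg) ?_ (hQ _)
  rw [injective_iff_map_eq_one]
  intro x hx
  obtain ⟨g, rfl⟩ := QuotientGroup.mk_surjective x
  rw [QuotientGroup.lift_mk] at hx
  exact (QuotientGroup.eq_one_iff g).2 ((hψ g).1 hx)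

end Pool.Agent.H76.GT
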