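import Pool.Agent.H76.GT.Th

/-!
# H76 GT, PTs: statement of the theorem on products of trees
-/

set_option autoImplicit false

namespace Pool.Agent.H76.GT

open Pool.Agent.H98.FJ

/-- `P` fixes an edge of the tree `T j` and a vertex of every tree -/
def FixEdge {G : Type} [Group G] {n : ℕ} {V : Fin n → Type} [∀ k, MulAction G (V k)] (T : ∀ k, SimpleGraph (V k))
    (P : Subgroup G) : Prop :=
  (∀ k, ∃ x : V k, ∀ g ∈ P, g • x = x) ∧ ∃ (k : Fin n) (x y : V k), (T k).Adj x y ∧ (∀ g ∈ P, g • x = x) ∧ ∀ g ∈ P, g • y = y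

/-- local rigidity of the action of `G` on the trees `T k`: `d P` is a rank and `O P` (if the rank is at least two) an object
attached to the subgroup `P`, `O' h` is an object attached to the element `h`. -/
structure Rigid (C : (G : Type) → [Group G] → Prop) {G : Type} [Group G] {n : ℕ} {V : Fin n → Type}
    [∀ k, MulAction G (V k)] (T : ∀ k, SimpleGraph (V k)) {Ω : Type} [MulAction G Ω] (d : Subgroup G → ℕ)
    (O : Subgroup G → Ω) (O' : G → Ω) : Prop where
  d_conj : ∀ (g : G) (P : Subgroup G), d (P.map (MulAut.conj g).toMonoidHom) = d P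
  O_conj : ∀ (g : G) (P : Subgroup G), O (P.map (MulAut.conj g).toMonoidHom) = g • O P
  mono : ∀ P Q : Subgroup G, P ≤ Q → d P ≤ d Q
  eq : ∀ P Q : Subgroup G, P ≤ Q → d P = d Q → O P = O Q
  three : ∀ P : Subgroup G, FixEdge T P → d P ≤ 3
  bot : ∀ P : Subgroup G, d P ≤ 1 → P = ⊥
  stab : ∀ P : Subgroup G, 2 ≤ d P → d P ≤ 3 → C (MulAction.stabilizer G (O P))
  O'_conj : ∀ g h : G, O' (g * h * g⁻¹) = g • O' h
  O'_eq : ∀ g h : G, Commute g h → g ^ 2 ≠ 1 → h ^ 2 ≠ 1 → O' g = O' h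
  stab' : ∀ h : G, h ^ 2 ≠ 1 → C (MulAction.stabilizer G (O' h))

end Pool.Agent.H76.GT
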