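import Pool.Agent.H76.GU.PTL
import Pool.Agent.H76.GU.RigL

/-!
# H76 GT, PT: the theorem on products of trees
-/

set_option autoImplicit false

namespace Pool.Agent.H76.GT

open Pool.Agent.H98.FJ

/-- A finitely generated group which acts on finitely many trees, with vertex stabilisers in the class and locally rigid, is
in the class. -/
theorem pt {C : (G : Type) → [Group G] → Prop} (hC : Inherits C) (hT : Transfer C) {G : Type} [Group G]
    (hfg : Group.FG G) {n : ℕ} (hn : 0 < n) {V : Fin n → Type} [∀ k, Countable (V k)] [∀ k, Nonempty (V k)]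
    [∀ k, MulAction G (V k)]
    (T : ∀ k, SimpleGraph (V k)) [∀ k, Pres G (T k)] (ht : ∀ k, (T k).IsTree)
    (hst : ∀ k (x : V k), C (MulAction.stabilizer G x)) {Ω : Type} [MulAction G Ω] {d : Subgroup G → ℕ}
    {O : Subgroup G → Ω} {O' : G → Ω} (hR : Rigid C T d O O') : C G :=
  pt_loc hC hT hfg hn T ht hst (rig_loc hn T hR)

end Pool.Agent.H76.GT
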