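import Pool.Agent.H76.GT.IndR
import Pool.Agent.H76.GT.Base
import Pool.Agent.H76.GT.PT

/-!
# H76 GT, Ind: the projective group over a field with a system of places
-/

set_option autoImplicit false

namespace Pool.Agent.H76.GT

open Pool.Agent.H54.TT Pool.Agent.H98.FJ

variable {F : Type} [Field F] {ι : Type} {v : ι → F → ℤ} (h : PlaceSys F ι v)

private theorem ind_fg {C : (G : Type) → [Group G] → Prop} (hC : Inherits C) (G : Type) [Group G]
    (h : ∀ H : Subgroup G, H.FG → C H) : C G := by
  classical
  refine hC.union (ι := Finset G) (fun s => Subgroup.closure (s : Set G)) ?_ ?_ ?_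
  · intro s t hst
    exact Subgroup.closure_mono (by exact_mod_cast hst)
  · intro g
    exact ⟨{g}, Subgroup.subset_closure (by simp)⟩
  · intro s
    exact h _ ⟨s, rfl⟩

/-- a subgroup of a subgroup of `PG F` -/
private theorem ind_sub {C : (G : Type) → [Group G] → Prop} (hC : Inherits C) (G : Subgroup (PG F)) (H : Subgroup G)
    (hH : C (H.map G.subtype)) : C H :=
  hC.iso _ _ (H.equivMapOfInjective G.subtype G.subtype_injective).symm hH

private theorem ind_map (G : Subgroup (PG F)) (H : Subgroup G) (hH : H.FG) : (H.map G.subtype).FG := by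
  classical
  obtain ⟨S, hS⟩ := hH
  refine ⟨S.image G.subtype, ?_⟩
  rw [Finset.coe_image, ← MonoidHom.map_closure, hS]

/-- Proof. Induction on the number of elements of the finite set `s` (for all `G`). It suffices to treat finitely generated
subgroups (`Inherits.colim`, there is a lemma for directed unions in H98/FJ or H93/TR). If `s = ∅`: `base_mem`. Otherwise
`pt` for the trees of the elements of `s`: the stabiliser of a vertex of the tree of `i ∈ s` is a subgroup of `G` which fixes a
vertex in all trees outside `s \ {i}`. -/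
theorem mem_of_fix {C : (G : Type) → [Group G] → Prop} (hC : Inherits C) (hT : Transfer C) [Countable F]
    (hsol : ∀ (G : Type) [Group G], IsSolvable G → C G)
    (hκ : ∀ (K : Type) [Field K] [Algebra (kap h) K] [Module.Finite (kap h) K], Module.finrank (kap h) K ≤ 2 → C (PG K))
    (s : Set ι) (hs : s.Finite) (G : Subgroup (PG F)) (hG : ∀ i, i ∉ s → ∃ x : Vx (h.dv i), ∀ g ∈ G, g • x = x) : C G := by
  obtain ⟨n, hn⟩ : ∃ n, n = s.ncard := ⟨_, rfl⟩
  induction n generalizing s G with
  | zero =>
    have hs0 : s = ∅ := (Set.ncard_eq_zero hs).1 hn.symm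
    exact base_mem h hC hsol hκ G fun i => hG i (by rw [hs0]; exact Set.notMem_empty i)
  | succ n ih =>
    -- finitely generated groups
    have hfg : ∀ G : Subgroup (PG F), G.FG → (∀ i, i ∉ s → ∃ x : Vx (h.dv i), ∀ g ∈ G, g • x = x) → C G := by
      intro G hGfg hG
      have : Finite s := hs
      obtain ⟨m, ⟨e⟩⟩ := Finite.exists_equiv_fin s
      obtain ⟨t, ht⟩ : ∃ t : Fin m → ι, t = fun k => (e.symm k : ι) := ⟨_, rfl⟩
      have hm : 0 < m := by
        rcases Nat.eq_zero_or_pos m with h0 | h0
        · exfalso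
          subst h0
          have : s = ∅ := by
            rw [Set.eq_empty_iff_forall_notMem]
            intro i hi
            exact (e ⟨i, hi⟩).elim0
          rw [this, Set.ncard_empty] at hn
          omega
        · exact h0
      have hts : ∀ k, t k ∈ s := fun k => by
        rw [ht]
        exact (e.symm k).2
      have hr : ∀ i, i ∉ Set.range t → ∃ x : Vx (h.dv i), ∀ g ∈ G, g • x = x := by
        intro i hi
        refine hG i fun his => hi ⟨e ⟨i, his⟩, ?_⟩
        rw [ht]
        simp
      have hfin : ∀ k, {j | j ∈ s ∧ j ≠ t k}.Finite := fun k => hs.subset fun j hj => hj.1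
      have hcard : ∀ k, n = {j | j ∈ s ∧ j ≠ t k}.ncard := by
        intro k
        have h1 : {j | j ∈ s ∧ j ≠ t k} = s \ {t k} := by
          ext j
          simp
        rw [h1, Set.ncard_sdiff_singleton_of_mem (hts k), ← hn]
        rfl
      have hst : ∀ (k : Fin m) (x : Vx (h.dv (t k))), C (MulAction.stabilizer G x) := by
        intro k x
        apply ind_sub hC G
        refine ih {j | j ∈ s ∧ j ≠ t k} (hfin k) _ ?_ (hcard k)
        intro i hi
        by_cases hik : i = t k
        · subst hik
          refine ⟨x, fun g hg => ?_⟩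
          rw [Subgroup.mem_map] at hg
          obtain ⟨g', hg', rfl⟩ := hg
          exact hg'
        · have his : i ∉ s := fun his => hi ⟨his, hik⟩
          obtain ⟨y, hy⟩ := hG i his
          refine ⟨y, fun g hg => hy g ?_⟩
          rw [Subgroup.mem_map] at hg
          obtain ⟨g', -, rfl⟩ := hg
          exact g'.2
      exact pt hC hT (G := G) ((Group.fg_iff_subgroup_fg G).2 hGfg) hm (V := fun k => Vx (h.dv (t k)))
        (fun k => Tv (h.dv (t k))) (fun k => isTree (h.dv (t k))) hst (rigid h hC hsol G t hr)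
    refine ind_fg hC G fun H hH => ind_sub hC G H (hfg _ (ind_map G H hH) ?_)
    intro i hi
    obtain ⟨y, hy⟩ := hG i hi
    refine ⟨y, fun g hg => hy g ?_⟩
    rw [Subgroup.mem_map] at hg
    obtain ⟨g', -, rfl⟩ := hg
    exact g'.2

/-- Proof. Directed union of finitely generated subgroups, `fix_finite`, `mem_of_fix`. -/
theorem pg_mem {C : (G : Type) → [Group G] → Prop} (hC : Inherits C) (hT : Transfer C) [Countable F]
    (hsol : ∀ (G : Type) [Group G], IsSolvable G → C G)
    (hκ : ∀ (K : Type) [Field K] [Algebra (kap h) K] [Module.Finite (kap h) K], Module.finrank (kap h) K ≤ 2 → C (PG K)) :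
    C (PG F) := by
  classical
  refine ind_fg hC (PG F) fun H hH => ?_
  obtain ⟨S, hS⟩ := hH
  choose l hl using fun g : PG F => pr_surj g
  have hfin : (⋃ g ∈ S, {i | l g • (((1 : GL (Fin 2) F) : Vx (h.dv i))) ≠ ((1 : GL (Fin 2) F) : Vx (h.dv i))}).Finite :=
    Set.Finite.biUnion S.finite_toSet fun g _ => fix_finite h (l g)
  refine mem_of_fix h hC hT hsol hκ _ hfin H fun i hi => ⟨((1 : GL (Fin 2) F) : Vx (h.dv i)), ?_⟩
  have h1 : ∀ g ∈ S, g • ((1 : GL (Fin 2) F) : Vx (h.dv i)) = ((1 : GL (Fin 2) F) : Vx (h.dv i)) := by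
    intro g hg
    by_contra hne
    apply hi
    rw [Set.mem_iUnion₂]
    refine ⟨g, hg, ?_⟩
    show l g • ((1 : GL (Fin 2) F) : Vx (h.dv i)) ≠ ((1 : GL (Fin 2) F) : Vx (h.dv i))
    rw [← pr_smul, hl]
    exact hne
  have h2 : H ≤ MulAction.stabilizer (PG F) ((1 : GL (Fin 2) F) : Vx (h.dv i)) := by
    rw [← hS, Subgroup.closure_le]
    intro g hg
    exact h1 g hg
  exact fun g hg => h2 hg

end Pool.Agent.H76.GT
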