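import Pool.Agent.H76.GT.Pg

/-!
# H76 GT, IndD: rank and objects
-/

set_option autoImplicit false

namespace Pool.Agent.H76.GT

variable {F : Type} [Field F]

/-- the rank of a subgroup of `G ≤ PG F` -/
noncomputable def rkP (G : Subgroup (PG F)) (P : Subgroup G) : ℕ := Module.finrank F (spn (pre (P.map G.subtype)))

/-- the object of a subgroup -/
def obP (G : Subgroup (PG F)) (P : Subgroup G) : Sp F := (spn (pre (P.map G.subtype)) : Submodule F (M2 F))

/-- the object of an element -/
noncomputable def obE (G : Subgroup (PG F)) (g : G) : Sp F := (sp1 (Function.surjInv pr_surj (g : PG F)) : Submodule F (M2 F))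

end Pool.Agent.H76.GT
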