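import Pool.Agent.H76.GT.IndD
import Pool.Agent.H76.GT.AlgB
import Pool.Agent.H76.GT.PlN
import Pool.Agent.H76.GT.PTs
import Pool.Agent.H76.GT.AlgA3
import Pool.Agent.H76.GT.DefsT

/-!
# H76 GT, IndR: rigidity
-/

set_option autoImplicit false

namespace Pool.Agent.H76.GT

open Pool.Agent.H54.TT Pool.Agent.H98.FJ

variable {F : Type} [Field F] {ι : Type} {v : ι → F → ℤ} (h : PlaceSys F ι v)

private theorem mem_pre_map {G : Subgroup (PG F)} {P : Subgroup G} {a : GL (Fin 2) F} :
    a ∈ pre (P.map G.subtype) ↔ ∃ p ∈ P, ((p : G) : PG F) = pr F a := by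
  unfold pre
  rw [Subgroup.mem_comap, Subgroup.mem_map]
  rfl

private theorem pre_conj (G : Subgroup (PG F)) (g : G) (a : GL (Fin 2) F) (ha : pr F a = (g : PG F)) (P : Subgroup G)
    (x : GL (Fin 2) F) :
    x ∈ pre ((P.map (MulAut.conj g).toMonoidHom).map G.subtype) ↔ a⁻¹ * x * a ∈ pre (P.map G.subtype) := by
  rw [mem_pre_map, mem_pre_map]
  constructor
  · rintro ⟨p, hp, hx⟩
    obtain ⟨q, hq, rfl⟩ := Subgroup.mem_map.1 hp
    refine ⟨q, hq, ?_⟩
    rw [map_mul, map_mul, map_inv, ha, ← hx]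
    show (q : PG F) = (g : PG F)⁻¹ * ((g * q * g⁻¹ : G) : PG F) * (g : PG F)
    push_cast
    group
  · rintro ⟨q, hq, hx⟩
    refine ⟨g * q * g⁻¹, Subgroup.mem_map.2 ⟨q, hq, rfl⟩, ?_⟩
    push_cast
    rw [hx, map_mul, map_mul, map_inv, ha]
    group

private theorem spn_conj' (G : Subgroup (PG F)) (g : G) (a : GL (Fin 2) F) (ha : pr F a = (g : PG F)) (P : Subgroup G) :
    spn (pre ((P.map (MulAut.conj g).toMonoidHom).map G.subtype)) = cjS a (spn (pre (P.map G.subtype))) :=
  spn_conj a _ _ (pre_conj G g a ha P)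

private theorem pre_mono {G : Subgroup (PG F)} {P Q : Subgroup G} (hPQ : P ≤ Q) :
    pre (P.map G.subtype) ≤ pre (Q.map G.subtype) :=
  Subgroup.comap_mono (Subgroup.map_mono hPQ)

private theorem stab_mem {C : (G : Type) → [Group G] → Prop} (hsol : ∀ (G : Type) [Group G], IsSolvable G → C G)
    (G : Subgroup (PG F)) (A : Sp F) (hA : IsAlg A.sub)
    (hd : Module.finrank F A.sub = 2 ∨ Module.finrank F A.sub = 3) : C (MulAction.stabilizer G A) := by
  apply hsol
  have h0 : Group.IsSolvable (MulAction.stabilizer (PG F) A) := stab_solvable hA hd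
  have h1 : ∀ g : MulAction.stabilizer G A, ((g : G) : PG F) ∈ MulAction.stabilizer (PG F) A := fun g => g.2
  let f : MulAction.stabilizer G A →* MulAction.stabilizer (PG F) A :=
    { toFun := fun g => ⟨((g : G) : PG F), h1 g⟩
      map_one' := rfl
      map_mul' := fun _ _ => rfl }
  have hf : Function.Injective f := by
    intro x y hxy
    exact Subtype.ext (Subtype.ext (congrArg (fun z : MulAction.stabilizer (PG F) A => (z : PG F)) hxy))
  exact Group.isSolvable_of_isSolvable_injective hf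

private theorem pr_sec (x : PG F) : pr F (Function.surjInv pr_surj x) = x := Function.surjInv_eq pr_surj x

private theorem not_scalar {g : GL (Fin 2) F} (hg : pr F g ≠ 1) : ¬ ∃ c : F, g.val = c • (1 : M2 F) :=
  fun hc => hg (pr_eq_one.2 hc)

private theorem ne_of_sq {G : Type*} [Group G] {g : G} (hg : g ^ 2 ≠ 1) : g ≠ 1 := by
  rintro rfl
  exact hg (one_pow 2)

/-- Proof. The lemmas of AlgA (`spn_conj`, `finrank_cjS`, `spn_mono`, `spn_alg`, `sp1_conj`, `sp1_eq_of_comm`, `finrank_sp1`),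
`finrank_le_of_edge` for `three` (outside `s` all elements of `G` fix a vertex), `stab_solvable` for `stab`, `stab'`
(the stabiliser in `G` is a subgroup of the stabiliser in `PG F`). `bot`: if the span of `pre P` has dimension at most one then
all elements are scalar. -/
theorem rigid {C : (G : Type) → [Group G] → Prop} (hC : Inherits C) (hsol : ∀ (G : Type) [Group G], IsSolvable G → C G)
    (G : Subgroup (PG F)) {n : ℕ} (s : Fin n → ι) (hG : ∀ i, i ∉ Set.range s → ∃ x : Vx (h.dv i), ∀ g ∈ G, g • x = x) :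
    Rigid C (G := G) (fun k => Tv (h.dv (s k))) (rkP G) (obP G) (obE G) where
  d_conj g P := by
    obtain ⟨a, ha⟩ := pr_surj (g : PG F)
    unfold rkP
    rw [spn_conj' G g a ha P, finrank_cjS]
  O_conj g P := by
    obtain ⟨a, ha⟩ := pr_surj (g : PG F)
    show (spn (pre ((P.map (MulAut.conj g).toMonoidHom).map G.subtype)) : Submodule F (M2 F)) =
      ((g : PG F) • obP G P : Sp F).sub
    rw [← ha, pr_smul_sp, spn_conj' G g a ha P]
    rfl
  mono P Q hPQ := by
    unfold rkP
    exact Submodule.finrank_mono (spn_mono (pre_mono hPQ))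
  eq P Q hPQ hd := by
    unfold rkP at hd
    exact Submodule.eq_of_le_of_finrank_eq (spn_mono (pre_mono hPQ)) hd
  three P hP := by
    obtain ⟨h1, k, x, y, hxy, hx, hy⟩ := hP
    unfold rkP
    refine finrank_le_of_edge h (i := s k) (x := x) (y := y) ?_ hxy ?_ ?_
    · intro i
      by_cases hi : i ∈ Set.range s
      · obtain ⟨j, rfl⟩ := hi
        obtain ⟨z, hz⟩ := h1 j
        refine ⟨z, fun a ha => ?_⟩
        obtain ⟨p, hp, hpa⟩ := mem_pre_map.1 ha
        rw [← pr_smul, ← hpa]
        exact hz p hp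
      · obtain ⟨z, hz⟩ := hG i hi
        refine ⟨z, fun a ha => ?_⟩
        obtain ⟨p, hp, hpa⟩ := mem_pre_map.1 ha
        rw [← pr_smul, ← hpa]
        exact hz p p.2
    · intro a ha
      obtain ⟨p, hp, hpa⟩ := mem_pre_map.1 ha
      rw [← pr_smul, ← hpa]
      exact hx p hp
    · intro a ha
      obtain ⟨p, hp, hpa⟩ := mem_pre_map.1 ha
      rw [← pr_smul, ← hpa]
      exact hy p hp
  bot P hd := by
    unfold rkP at hd
    rw [eq_bot_iff]
    intro g hg
    rw [Subgroup.mem_bot]
    obtain ⟨a, ha⟩ := pr_surj (g : PG F)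
    have h1 : a ∈ pre (P.map G.subtype) := mem_pre_map.2 ⟨g, hg, ha.symm⟩
    have h2 : a.val ∈ spn (pre (P.map G.subtype)) := mem_spn h1
    have h3 : (1 : M2 F) ∈ spn (pre (P.map G.subtype)) := (spn_alg _).one
    obtain ⟨w, hw⟩ := finrank_le_one_iff.1 hd
    obtain ⟨c1, hc1⟩ := hw ⟨1, h3⟩
    obtain ⟨c2, hc2⟩ := hw ⟨a.val, h2⟩
    have e1 : c1 • (w : M2 F) = 1 := congrArg Subtype.val hc1
    have e2 : c2 • (w : M2 F) = a.val := congrArg Subtype.val hc2
    have hc0 : c1 ≠ 0 := by
      rintro rfl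
      rw [zero_smul] at e1
      exact zero_ne_one e1
    have e3 : (w : M2 F) = c1⁻¹ • (1 : M2 F) := by
      rw [← e1, smul_smul, inv_mul_cancel₀ hc0, one_smul]
    have h4 : pr F a = 1 := pr_eq_one.2 ⟨c2 * c1⁻¹, by rw [← e2, e3, smul_smul]⟩
    rw [ha] at h4
    exact Subtype.ext h4
  stab P h2 h3 := by
    refine stab_mem hsol G _ (spn_alg _) ?_
    have h4 : Module.finrank F (obP G P).sub = rkP G P := rfl
    rw [h4]
    omega
  O'_conj g k := by
    obtain ⟨a, ha⟩ := pr_surj (g : PG F)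
    show (sp1 (Function.surjInv pr_surj ((g * k * g⁻¹ : G) : PG F)) : Submodule F (M2 F)) =
      ((g : PG F) • obE G k : Sp F).sub
    rw [← ha, pr_smul_sp]
    show _ = cjS a (sp1 (Function.surjInv pr_surj (k : PG F)))
    rw [← sp1_conj]
    apply sp1_of_pr
    rw [pr_sec, map_mul, map_mul, map_inv, pr_sec, ha]
    rfl
  O'_eq g k hc hg hk := by
    show sp1 (Function.surjInv pr_surj (g : PG F)) = sp1 (Function.surjInv pr_surj (k : PG F))
    apply sp1_eq_of_comm
    · rw [pr_sec, pr_sec]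
      exact hc.map G.subtype
    · rw [pr_sec]
      exact fun e => hg (Subtype.ext e)
    · rw [pr_sec]
      exact fun e => hk (Subtype.ext e)
  stab' k hk := by
    refine stab_mem hsol G _ (sp1_alg _) (Or.inl ?_)
    apply finrank_sp1
    apply not_scalar
    rw [pr_sec]
    exact fun e => ne_of_sq hk (Subtype.ext e)

end Pool.Agent.H76.GT
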