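import Pool.Agent.H76.GT.QuatD

/-!
# H76 GT, QuatR: a representation of degree two
-/

set_option autoImplicit false

namespace Pool.Agent.H76.GT

variable {F : Type} [Field F] {k : Subfield F}

private theorem qr_span {L : Subalgebra k (M2 F)} (hL : IsQ k L) {Om : Type} [Field Om] [Algebra F Om]
    (f : M2 Om →ₗ[Om] Om) (h : ∀ x ∈ L, f (x.map (algebraMap F Om)) = 0) (m : M2 Om) : f m = 0 := by
  obtain ⟨b, hb, hli, -⟩ := hL.basis
  have hfr : Module.finrank F (M2 F) = 4 := by
    rw [Module.finrank_matrix]
    simp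
  have hsp : Submodule.span F (Set.range b) = ⊤ :=
    hli.span_eq_top_of_card_eq_finrank (by rw [hfr]; simp)
  have h1 : ∀ m0 : M2 F, f (m0.map (algebraMap F Om)) = 0 := by
    intro m0
    have hm : m0 ∈ Submodule.span F (Set.range b) := by
      rw [hsp]
      exact Submodule.mem_top
    refine Submodule.span_induction (p := fun x _ => f (x.map (algebraMap F Om)) = 0) ?_ ?_ ?_ ?_ hm
    · rintro x ⟨i, rfl⟩
      exact h _ (hb i)
    · have h0 : (0 : M2 F).map (algebraMap F Om) = 0 := Matrix.map_zero _ (map_zero _)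
      show f ((0 : M2 F).map (algebraMap F Om)) = 0
      rw [h0, map_zero]
    · intro x y _ _ hx hy
      have h0 : (x + y).map (algebraMap F Om) = x.map (algebraMap F Om) + y.map (algebraMap F Om) :=
        Matrix.map_add _ (fun a c => map_add _ a c) x y
      show f ((x + y).map (algebraMap F Om)) = 0
      rw [h0, map_add, hx, hy, add_zero]
    · intro c x _ hx
      have h0 : (c • x).map (algebraMap F Om) = (algebraMap F Om c) • x.map (algebraMap F Om) := by
        ext i j
        simp
      show f ((c • x).map (algebraMap F Om)) = 0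
      rw [h0, map_smul, hx, smul_zero]
  have h2 : m = m 0 0 • (Matrix.single 0 0 (1 : F)).map (algebraMap F Om)
      + m 0 1 • (Matrix.single 0 1 (1 : F)).map (algebraMap F Om)
      + m 1 0 • (Matrix.single 1 0 (1 : F)).map (algebraMap F Om)
      + m 1 1 • (Matrix.single 1 1 (1 : F)).map (algebraMap F Om) := by
    ext i j
    fin_cases i <;> fin_cases j <;> simp
  rw [h2, map_add, map_add, map_add, map_smul, map_smul, map_smul, map_smul, h1, h1, h1, h1]
  simp

private theorem qr_scal {L : Subalgebra k (M2 F)} (hL : IsQ k L) {s : F} (h : s • (1 : M2 F) ∈ L) : s ∈ k := by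
  obtain ⟨b, hb, hli, hc⟩ := hL.basis
  obtain ⟨c, hc1⟩ := hc _ h
  obtain ⟨d, hd1⟩ := hc 1 L.one_mem
  have h1 : ∑ i, ((c i : F) - s * (d i : F)) • b i = 0 := by
    have h2 : s • (1 : M2 F) = ∑ i, (s * (d i : F)) • b i := by
      rw [hd1, Finset.smul_sum]
      exact Finset.sum_congr rfl fun i _ => smul_smul _ _ _
    simp only [sub_smul]
    rw [Finset.sum_sub_distrib, ← hc1, ← h2, sub_self]
  have h3 := Fintype.linearIndependent_iff.1 hli _ h1
  have h4 : ∃ i, d i ≠ 0 := by
    by_contra hcon
    push Not at hcon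
    have h5 : (1 : M2 F) = 0 := by
      rw [hd1]
      refine Finset.sum_eq_zero fun i _ => ?_
      rw [hcon i]
      simp
    exact one_ne_zero h5
  obtain ⟨i, hi⟩ := h4
  have h5 : s = (c i : F) / (d i : F) := by
    have h6 : (d i : F) ≠ 0 := fun h7 => hi (Subtype.ext h7)
    rw [eq_div_iff h6]
    exact (sub_eq_zero.1 (h3 i)).symm
  rw [h5]
  exact k.div_mem (c i).2 (d i).2

private theorem qr_ns {L : Subalgebra k (M2 F)} (hL : IsQ k L) :
    ∃ u ∈ L, ¬ ∃ c : F, u = c • (1 : M2 F) := by
  obtain ⟨b, hb, hli, -⟩ := hL.basis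
  by_contra hcon
  push Not at hcon
  obtain ⟨c0, hc0⟩ := hcon _ (hb 0)
  obtain ⟨c1, hc1⟩ := hcon _ (hb 1)
  have h1 : ∑ i, (![c1, -c0, 0, 0] : Fin 4 → F) i • b i = 0 := by
    rw [Fin.sum_univ_four]
    simp only [Matrix.cons_val_zero, Matrix.cons_val_one, Matrix.cons_val]
    rw [hc0, hc1, smul_smul, smul_smul, zero_smul, zero_smul, add_zero, add_zero, ← add_smul]
    have h2 : c1 * c0 + -c0 * c1 = 0 := by ring
    rw [h2, zero_smul]
  have h3 := Fintype.linearIndependent_iff.1 hli _ h1
  have h4 : c1 = 0 := h3 0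
  have h5 := hli.ne_zero 1
  rw [hc1, h4, zero_smul] at h5
  exact h5 rfl

private theorem qr_rk {Om : Type} [Field Om] {e : M2 Om} (h0 : e ≠ 0) (hd : e.det = 0) :
    ∃ w p : Fin 2 → Om, w ≠ 0 ∧ p ≠ 0 ∧ ∀ i j, e i j = w i * p j := by
  have h1 : ∃ i j, e i j ≠ 0 := by
    by_contra hcon
    push Not at hcon
    exact h0 (Matrix.ext fun i j => hcon i j)
  obtain ⟨i, j, hij⟩ := h1
  rw [Matrix.det_fin_two] at hd
  refine ⟨fun l => e l j, fun l => e i l / e i j, ?_, ?_, ?_⟩
  · intro h
    exact hij (congrFun h i)
  · intro h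
    have h2 : e i j / e i j = 0 := congrFun h j
    rw [div_self hij] at h2
    exact one_ne_zero h2
  · intro i' j'
    show e i' j' = e i' j * (e i j' / e i j)
    rw [← mul_div_assoc, eq_div_iff hij]
    fin_cases i <;> fin_cases j <;> fin_cases i' <;> fin_cases j' <;> simp only [Fin.zero_eta, Fin.mk_one] at * <;>
      first
        | ring1
        | linear_combination hd
        | linear_combination -hd

/-- A representation of `L` by two by two matrices over an extension `K` of degree at most two of `k`.
Proof. First case: there is `u ∈ L`, not scalar, whose characteristic polynomial is irreducible over `k`. Let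
`K = k[u] ⊆ L` (a field of degree two); `L` is a right vector space over `K` of dimension two, and `L` acts on it from the left.
Second case: every non scalar `u ∈ L` has an eigenvalue `a ∈ k` (a root of the characteristic polynomial). Take
`e = u - a ≠ 0`, `det e = 0`. The left ideal `L e` has dimension two over `k`: it spans `M2 F * e` over `F`, which has
dimension two. `L` acts on `L e`; faithful because `x L e = 0` implies `x M2(F) e = 0` and `x = 0`. `K = k`.
In both cases an element which acts as a scalar of `K` commutes with `L`, so it is in `k`: first case `x = c` (apply to `1`),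
and `x m = m x` for all `m ∈ L`; second case clear by faithfulness. -/
theorem exists_rep {L : Subalgebra k (M2 F)} (hL : IsQ k L) :
    ∃ (K : Type) (_ : Field K) (_ : Algebra k K) (_ : Module.Finite k K) (_ : Module.finrank k K ≤ 2)
      (ρ : L →+* M2 K), Function.Injective ρ ∧ ∀ x : L, (∃ c : K, ρ x = c • (1 : M2 K)) → ∃ c : k, (x : M2 F) = (c : F) • (1 : M2 F) := by
  classical
  obtain ⟨u, huL, hu⟩ := qr_ns hL
  let Om : Type := AlgebraicClosure F
  let al : F →+* Om := algebraMap F (AlgebraicClosure F)
  -- the eigenvalue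
  let t : k := ⟨u.trace, hL.trace u huL⟩
  let d : k := ⟨u.det, hL.det u huL⟩
  let q : Polynomial k := Polynomial.X ^ 2 - Polynomial.C t * Polynomial.X + Polynomial.C d
  have hq : q.natDegree = 2 := by
    show (Polynomial.X ^ 2 - Polynomial.C t * Polynomial.X + Polynomial.C d : Polynomial k).natDegree = 2
    compute_degree!
  have hqn : q ≠ 0 := by
    intro h
    rw [h] at hq
    simp at hq
  have hq0 : q.degree ≠ 0 := by
    rw [Polynomial.degree_eq_natDegree hqn, hq]
    decide
  obtain ⟨a, ha⟩ := IsAlgClosed.exists_aeval_eq_zero (AlgebraicClosure F) q hq0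
  have hint : IsIntegral k a := (isAlgebraic_iff_isIntegral).1 ⟨q, hqn, ha⟩
  have haq : a ^ 2 - al u.trace * a + al u.det = 0 := by
    have h1 : Polynomial.aeval a q = a ^ 2 - algebraMap k (AlgebraicClosure F) t * a + algebraMap k (AlgebraicClosure F) d := by
      simp [q]
    rw [ha] at h1
    exact h1.symm
  let K : IntermediateField k (AlgebraicClosure F) := IntermediateField.adjoin k {a}
  have haK : a ∈ K := IntermediateField.mem_adjoin_simple_self k a
  have hkK : ∀ c : F, c ∈ k → al c ∈ K := by
    intro c hc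
    exact K.algebraMap_mem ⟨c, hc⟩
  have hfin : FiniteDimensional k K := IntermediateField.adjoin.finiteDimensional hint
  have hrk : Module.finrank k K ≤ 2 := by
    have h1 : Module.finrank k K = (minpoly k a).natDegree := IntermediateField.adjoin.finrank hint
    rw [h1, ← hq]
    exact Polynomial.natDegree_le_of_dvd (minpoly.dvd k a ha) hqn
  -- the matrix of rank one
  let mp : M2 F → M2 Om := fun x => x.map al
  have mpm : ∀ x y : M2 F, mp (x * y) = mp x * mp y := fun x y => Matrix.map_mul
  let e : M2 Om := mp u - a • (1 : M2 Om)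
  have he0 : e ≠ 0 := by
    intro h
    have h1 : mp u = a • (1 : M2 Om) := sub_eq_zero.1 h
    have h01 : al (u 0 1) = 0 := by
      have := congrFun (congrFun h1 0) 1
      simpa [mp] using this
    have h10 : al (u 1 0) = 0 := by
      have := congrFun (congrFun h1 1) 0
      simpa [mp] using this
    have h00 : al (u 0 0) = a := by
      have := congrFun (congrFun h1 0) 0
      simpa [mp] using this
    have h11 : al (u 1 1) = a := by
      have := congrFun (congrFun h1 1) 1
      simpa [mp] using this
    refine hu ⟨u 0 0, ?_⟩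
    have h2 : u 1 1 = u 0 0 := al.injective (by rw [h11, h00])
    have h3 : u 0 1 = 0 := al.injective (by rw [h01, map_zero])
    have h4 : u 1 0 = 0 := al.injective (by rw [h10, map_zero])
    ext i j
    fin_cases i <;> fin_cases j <;> simp [h2, h3, h4]
  have hed : e.det = 0 := by
    have h1 : e.det = a ^ 2 - al u.trace * a + al u.det := by
      rw [Matrix.det_fin_two, Matrix.det_fin_two, Matrix.trace_fin_two]
      simp only [e, mp, Matrix.sub_apply, Matrix.map_apply, Matrix.smul_apply, map_add, map_sub, map_mul]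
      simp
      ring
    rw [h1, haq]
  obtain ⟨w, p, hw, hp, hwp⟩ := qr_rk he0 hed
  -- traces
  have htr : ∀ m ∈ L, (mp m * e).trace ∈ K := by
    intro m hm
    have h1 : (mp m * e).trace = al (m * u).trace - a * al m.trace := by
      have h2 : mp m * e = mp (m * u) - a • mp m := by
        show mp m * (mp u - a • (1 : M2 Om)) = mp (m * u) - a • mp m
        rw [mul_sub, mpm, Matrix.mul_smul, mul_one]
      have h3 : ∀ x : M2 F, (mp x).trace = al x.trace := by
        intro x
        rw [Matrix.trace_fin_two, Matrix.trace_fin_two, map_add]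
        rfl
      rw [h2, Matrix.trace_sub, Matrix.trace_smul, h3, h3, smul_eq_mul]
    rw [h1]
    exact K.sub_mem (hkK _ (hL.trace _ (L.mul_mem hm huL))) (K.mul_mem haK (hkK _ (hL.trace _ hm)))
  have hb : ∀ m : M2 Om, p 0 * (m 0 0 * w 0 + m 0 1 * w 1) + p 1 * (m 1 0 * w 0 + m 1 1 * w 1) = (m * e).trace := by
    intro m
    rw [Matrix.trace_fin_two, Matrix.mul_apply, Matrix.mul_apply, Fin.sum_univ_two, Fin.sum_univ_two, hwp, hwp, hwp, hwp]
    ring
  -- the vectors y and z
  obtain ⟨y, hyL, hy⟩ : ∃ y ∈ L, p 0 * (p 0 * mp y 0 1 + p 1 * mp y 1 1) - p 1 * (p 0 * mp y 0 0 + p 1 * mp y 1 0) ≠ 0 := by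
    by_contra hcon
    push Not at hcon
    let f : M2 Om →ₗ[Om] Om :=
      { toFun := fun m => p 0 * (p 0 * m 0 1 + p 1 * m 1 1) - p 1 * (p 0 * m 0 0 + p 1 * m 1 0)
        map_add' := by
          intro x y
          simp only [Matrix.add_apply]
          ring
        map_smul' := by
          intro c x
          simp only [Matrix.smul_apply, smul_eq_mul, RingHom.id_apply]
          ring }
    have h1 : ∀ m : M2 Om, f m = 0 := qr_span hL f hcon
    have h00 := h1 (Matrix.single 0 1 1)
    have h11 := h1 (Matrix.single 1 0 1)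
    have h2 : p 0 * p 0 = 0 := by simpa [f] using h00
    have h3 : p 1 * p 1 = 0 := by simpa [f] using h11
    refine hp (funext fun i => ?_)
    fin_cases i
    · exact mul_self_eq_zero.1 h2
    · exact mul_self_eq_zero.1 h3
  obtain ⟨z, hzL, hz⟩ : ∃ z ∈ L, w 0 * (mp z 1 0 * w 0 + mp z 1 1 * w 1) - w 1 * (mp z 0 0 * w 0 + mp z 0 1 * w 1) ≠ 0 := by
    by_contra hcon
    push Not at hcon
    let f : M2 Om →ₗ[Om] Om :=
      { toFun := fun m => w 0 * (m 1 0 * w 0 + m 1 1 * w 1) - w 1 * (m 0 0 * w 0 + m 0 1 * w 1)
        map_add' := by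
          intro x y
          simp only [Matrix.add_apply]
          ring
        map_smul' := by
          intro c x
          simp only [Matrix.smul_apply, smul_eq_mul, RingHom.id_apply]
          ring }
    have h1 : ∀ m : M2 Om, f m = 0 := qr_span hL f hcon
    have h00 := h1 (Matrix.single 1 0 1)
    have h11 := h1 (Matrix.single 0 1 1)
    have h2 : w 0 * w 0 = 0 := by simpa [f] using h00
    have h3 : w 1 * w 1 = 0 := by simpa [f] using h11
    refine hw (funext fun i => ?_)
    fin_cases i
    · exact mul_self_eq_zero.1 h2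
    · exact mul_self_eq_zero.1 h3
  let T : M2 Om := !![p 0, p 1; p 0 * mp y 0 0 + p 1 * mp y 1 0, p 0 * mp y 0 1 + p 1 * mp y 1 1]
  let W : M2 Om := !![w 0, mp z 0 0 * w 0 + mp z 0 1 * w 1; w 1, mp z 1 0 * w 0 + mp z 1 1 * w 1]
  have hT : T.det ≠ 0 := by
    rw [Matrix.det_fin_two]
    exact hy
  have hW : W.det ≠ 0 := by
    rw [Matrix.det_fin_two]
    intro h
    refine hz ?_
    rw [← h]
    show _ = w 0 * (mp z 1 0 * w 0 + mp z 1 1 * w 1) - (mp z 0 0 * w 0 + mp z 0 1 * w 1) * w 1
    ring
  let io : K →+* Om := algebraMap K (AlgebraicClosure F)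
  have hio : Function.Injective io := io.injective
  have hioM : Function.Injective (fun m : M2 K => m.map io) := Matrix.map_injective hio
  -- the matrices of the elements
  have hM : ∀ x : M2 F, x ∈ L → ∃ m : M2 K, m.map io = T * mp x * W := by
    intro x hx
    have e00 : (T * mp x * W) 0 0 = (mp x * e).trace := by
      rw [← hb]
      simp only [T, W, Matrix.mul_apply, Fin.sum_univ_two, Matrix.of_apply, Matrix.cons_val_zero, Matrix.cons_val_one]
      ring
    have e01 : (T * mp x * W) 0 1 = (mp (x * z) * e).trace := by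
      rw [← hb, mpm]
      simp only [T, W, Matrix.mul_apply, Fin.sum_univ_two, Matrix.of_apply, Matrix.cons_val_zero, Matrix.cons_val_one]
      ring
    have e10 : (T * mp x * W) 1 0 = (mp (y * x) * e).trace := by
      rw [← hb, mpm]
      simp only [T, W, Matrix.mul_apply, Fin.sum_univ_two, Matrix.of_apply, Matrix.cons_val_zero, Matrix.cons_val_one]
      ring
    have e11 : (T * mp x * W) 1 1 = (mp (y * x * z) * e).trace := by
      rw [← hb, mpm, mpm]
      simp only [T, W, Matrix.mul_apply, Fin.sum_univ_two, Matrix.of_apply, Matrix.cons_val_zero, Matrix.cons_val_one]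
      ring
    refine ⟨!![⟨_, htr x hx⟩, ⟨_, htr (x * z) (L.mul_mem hx hzL)⟩; ⟨_, htr (y * x) (L.mul_mem hyL hx)⟩,
      ⟨_, htr (y * x * z) (L.mul_mem (L.mul_mem hyL hx) hzL)⟩], ?_⟩
    ext i j
    fin_cases i <;> fin_cases j
    · exact e00.symm
    · exact e01.symm
    · exact e10.symm
    · exact e11.symm
  obtain ⟨N, hN⟩ := hM 1 L.one_mem
  have hN1 : N.map io = T * W := by
    rw [hN]
    have h1 : mp 1 = 1 := Matrix.map_one _ (map_zero _) (map_one _)
    rw [h1, mul_one]
  have hNd : N.det ≠ 0 := by
    intro h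
    have h1 : (N.map io).det = io N.det := (RingHom.map_det io N).symm
    rw [hN1, Matrix.det_mul, h, map_zero] at h1
    exact mul_ne_zero hT hW h1
  have hNu : IsUnit N.det := isUnit_iff_ne_zero.2 hNd
  let S : M2 Om := W * (N⁻¹).map io
  have hTS : T * S = 1 := by
    show T * (W * (N⁻¹).map io) = 1
    rw [← mul_assoc, ← hN1, ← Matrix.map_mul, Matrix.mul_nonsing_inv _ hNu]
    exact Matrix.map_one _ (map_zero _) (map_one _)
  have hST : S * T = 1 := mul_eq_one_comm.1 hTS
  choose M hMm using fun x : L => hM x.1 x.2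
  have hR : ∀ x : L, (M x * N⁻¹).map io = T * mp x.1 * S := by
    intro x
    rw [Matrix.map_mul, hMm x, mul_assoc]
  have hinj : ∀ m m' : M2 K, m.map io = m'.map io → m = m' := fun m m' h => hioM h
  let R : L →+* M2 K :=
    { toFun := fun x => M x * N⁻¹
      map_one' := by
        apply hinj
        rw [hR, Matrix.map_one _ (map_zero _) (map_one _)]
        have h1 : mp (1 : L).1 = 1 := Matrix.map_one _ (map_zero _) (map_one _)
        rw [h1, mul_one, hTS]
      map_mul' := by
        intro x x'
        apply hinj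
        rw [hR, Matrix.map_mul, hR, hR]
        have h1 : mp (x * x' : L).1 = mp x.1 * mp x'.1 := mpm _ _
        rw [h1]
        calc T * (mp x.1 * mp x'.1) * S = T * mp x.1 * (1 : M2 Om) * mp x'.1 * S := by
              rw [mul_one, mul_assoc T (mp x.1) (mp x'.1)]
          _ = T * mp x.1 * (S * T) * mp x'.1 * S := by rw [hST]
          _ = T * mp x.1 * S * (T * mp x'.1 * S) := by simp only [mul_assoc]
      map_zero' := by
        apply hinj
        rw [hR, Matrix.map_zero _ (map_zero _)]
        have h1 : mp (0 : L).1 = 0 := Matrix.map_zero _ (map_zero _)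
        rw [h1, mul_zero, zero_mul]
      map_add' := by
        intro x x'
        apply hinj
        rw [hR, Matrix.map_add _ (fun a b => map_add io a b), hR, hR]
        have h1 : mp (x + x' : L).1 = mp x.1 + mp x'.1 := Matrix.map_add _ (fun a b => map_add al a b) _ _
        rw [h1, mul_add, add_mul] }
  have hRR : ∀ x : L, (R x).map io = T * mp x.1 * S := hR
  refine ⟨K, inferInstance, inferInstance, hfin, hrk, R, ?_, ?_⟩
  · intro x x' h
    have h1 : T * mp x.1 * S = T * mp x'.1 * S := by rw [← hRR, ← hRR, h]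
    have h2 : mp x.1 = mp x'.1 := by
      calc mp x.1 = (S * T) * mp x.1 * (S * T) := by rw [hST, one_mul, mul_one]
        _ = S * (T * mp x.1 * S) * T := by simp only [mul_assoc]
        _ = S * (T * mp x'.1 * S) * T := by rw [h1]
        _ = (S * T) * mp x'.1 * (S * T) := by simp only [mul_assoc]
        _ = mp x'.1 := by rw [hST, one_mul, mul_one]
    exact Subtype.ext (Matrix.map_injective al.injective h2)
  · rintro x ⟨c, hc⟩
    have h1 : T * mp x.1 * S = (io c) • (1 : M2 Om) := by
      rw [← hRR, hc]
      ext i j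
      fin_cases i <;> fin_cases j <;> simp
    have h2 : mp x.1 = (io c) • (1 : M2 Om) := by
      calc mp x.1 = (S * T) * mp x.1 * (S * T) := by rw [hST, one_mul, mul_one]
        _ = S * (T * mp x.1 * S) * T := by simp only [mul_assoc]
        _ = (io c) • (1 : M2 Om) := by rw [h1, Matrix.mul_smul, mul_one, Matrix.smul_mul, hST]
    have h01 : al (x.1 0 1) = 0 := by
      have := congrFun (congrFun h2 0) 1
      simpa [mp] using this
    have h10 : al (x.1 1 0) = 0 := by
      have := congrFun (congrFun h2 1) 0
      simpa [mp] using this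
    have h00 : al (x.1 0 0) = io c := by
      have := congrFun (congrFun h2 0) 0
      simpa [mp] using this
    have h11 : al (x.1 1 1) = io c := by
      have := congrFun (congrFun h2 1) 1
      simpa [mp] using this
    have h3 : x.1 = (x.1 0 0) • (1 : M2 F) := by
      have g2 : x.1 1 1 = x.1 0 0 := al.injective (by rw [h11, h00])
      have g3 : x.1 0 1 = 0 := al.injective (by rw [h01, map_zero])
      have g4 : x.1 1 0 = 0 := al.injective (by rw [h10, map_zero])
      ext i j
      fin_cases i <;> fin_cases j <;> simp [g2, g3, g4]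
    have h4 : x.1 0 0 ∈ k := qr_scal hL (by rw [← h3]; exact x.2)
    exact ⟨⟨x.1 0 0, h4⟩, h3⟩

end Pool.Agent.H76.GT
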