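import Pool.Agent.H76.GT.QuatD

/-!
# H76 GT, QuatS: elements which normalise the algebra
-/

set_option autoImplicit false

namespace Pool.Agent.H76.GT

variable {F : Type} [Field F] {k : Subfield F}

/-- Proof. Write `g = ∑ c i • b i` and expand the `c i ∈ F` in a `k`-basis of `F`: `g = ∑ f j • u j` with `u j ∈ L` and `f j`
linearly independent over `k`. For `x ∈ L`: `g x g⁻¹ ∈ L` and `(g x g⁻¹) g = g x`, so `(g x g⁻¹) u j = u j x` for all `j`
(coefficients of the `f j`: elements of `L` are linearly independent over `F` if they are over `k`). So `g⁻¹ u j` commutes with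
`L`, hence with `M2 F`, and is a scalar. Take `j` with `u j ≠ 0`. -/
theorem exists_scalar {L : Subalgebra k (M2 F)} (hL : IsQ k L) {g : GL (Fin 2) F}
    (hg : ∀ x ∈ L, cj g x ∈ L) : ∃ c : F, c ≠ 0 ∧ c • g.val ∈ L := by
  obtain ⟨b, hbL, hb, hco⟩ := hL.basis
  have hfr : Fintype.card (Fin 4) = Module.finrank F (M2 F) := by
    rw [Module.finrank_matrix, Module.finrank_self]
    simp
  obtain ⟨B, hB⟩ : ∃ B : Module.Basis (Fin 4) F (M2 F), ∀ i, B i = b i :=
    ⟨basisOfLinearIndependentOfCardEqFinrank hb hfr, fun i => by simp⟩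
  have hspan : ∀ z : M2 F, ∃ c : Fin 4 → F, z = ∑ i, c i • b i := by
    intro z
    refine ⟨fun i => B.repr z i, ?_⟩
    have h := B.sum_repr z
    simp only [hB] at h
    exact h.symm
  obtain ⟨c, hc⟩ := hspan g.val
  have hinv : (g⁻¹).val * g.val = 1 := Units.inv_mul g
  have hinv' : g.val * (g⁻¹).val = 1 := Units.mul_inv g
  have hg0 : g.val ≠ 0 := by
    intro h
    rw [h, mul_zero] at hinv
    exact zero_ne_one hinv
  obtain ⟨i0, hi0⟩ : ∃ i, c i ≠ 0 := by
    by_contra h
    push Not at h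
    apply hg0
    rw [hc]
    exact Finset.sum_eq_zero fun i _ => by rw [h i, zero_smul]
  obtain ⟨φ, hφ⟩ : ∃ φ : Module.Dual k F, φ (c i0) ≠ 0 := by
    by_contra h
    push Not at h
    exact hi0 ((Module.forall_dual_apply_eq_zero_iff k (c i0)).1 h)
  obtain ⟨u, hu⟩ : ∃ u : M2 F, u = ∑ i, ((φ (c i) : k) : F) • b i := ⟨_, rfl⟩
  have huL : u ∈ L := by
    rw [hu]
    exact L.sum_mem fun i _ => L.smul_mem (hbL i) (φ (c i))
  have hu0 : u ≠ 0 := by
    intro h
    rw [hu] at h
    have h1 := Fintype.linearIndependent_iff.1 hb (fun i => ((φ (c i) : k) : F)) h i0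
    exact hφ (by exact_mod_cast h1)
  have key : ∀ x ∈ L, cj g x * u = u * x := by
    intro x hx
    have hy := hg x hx
    have h1 : cj g x * g.val = g.val * x := by
      unfold cj
      rw [mul_assoc, hinv, mul_one]
    obtain ⟨y, hyy⟩ : ∃ y, y = cj g x := ⟨_, rfl⟩
    rw [← hyy] at h1 hy ⊢
    have hA : ∀ i, ∃ a : Fin 4 → k, y * b i = ∑ j, (a j : F) • b j := fun i =>
      hco _ (L.mul_mem hy (hbL i))
    have hC : ∀ i, ∃ a : Fin 4 → k, b i * x = ∑ j, (a j : F) • b j := fun i =>
      hco _ (L.mul_mem (hbL i) hx)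
    choose A hA using hA
    choose C hC using hC
    have hl : ∀ e : Fin 4 → F, y * ∑ i, e i • b i = ∑ j, (∑ i, e i * (A i j : F)) • b j := by
      intro e
      rw [Finset.mul_sum]
      simp only [Matrix.mul_smul, hA, Finset.smul_sum, smul_smul, Finset.sum_smul]
      exact Finset.sum_comm
    have hr : ∀ e : Fin 4 → F, (∑ i, e i • b i) * x = ∑ j, (∑ i, e i * (C i j : F)) • b j := by
      intro e
      rw [Finset.sum_mul]
      simp only [Matrix.smul_mul, hC, Finset.smul_sum, smul_smul, Finset.sum_smul]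
      exact Finset.sum_comm
    have h2 : ∀ j, ∑ i, c i * (A i j : F) = ∑ i, c i * (C i j : F) := by
      rw [hc, hl, hr, ← sub_eq_zero, ← Finset.sum_sub_distrib] at h1
      simp only [← sub_smul] at h1
      intro j
      exact sub_eq_zero.1 (Fintype.linearIndependent_iff.1 hb _ h1 j)
    have h3 : ∀ j, ∑ i, ((φ (c i) : k) : F) * (A i j : F) =
        ∑ i, ((φ (c i) : k) : F) * (C i j : F) := by
      intro j
      have h4 := congrArg φ (h2 j)
      rw [map_sum, map_sum] at h4
      have h5 : ∀ (a : F) (r : k), φ (a * (r : F)) = φ a * r := by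
        intro a r
        have h6 : a * (r : F) = r • a := by
          rw [Subfield.smul_def, smul_eq_mul, mul_comm]
        rw [h6, map_smul, smul_eq_mul, mul_comm]
      simp only [h5] at h4
      exact_mod_cast congrArg (fun z : k => (z : F)) h4
    rw [hu, hl, hr]
    exact Finset.sum_congr rfl fun j _ => by rw [h3 j]
  have hcom : ∀ z : M2 F, z * ((g⁻¹).val * u) = ((g⁻¹).val * u) * z := by
    intro z
    have hcomL : ∀ x ∈ L, x * ((g⁻¹).val * u) = ((g⁻¹).val * u) * x := by
      intro x hx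
      have h1 := key x hx
      have h2 : (g⁻¹).val * (cj g x * u) = (g⁻¹).val * (u * x) := by rw [h1]
      have h3 : (g⁻¹).val * (cj g x * u) = x * ((g⁻¹).val * u) := by
        unfold cj
        calc (g⁻¹).val * (g.val * x * (g⁻¹).val * u) =
            ((g⁻¹).val * g.val) * x * ((g⁻¹).val * u) := by simp only [mul_assoc]
          _ = _ := by rw [hinv, one_mul]
      rw [← h3, h2, mul_assoc]
    obtain ⟨e, he⟩ := hspan z
    rw [he, Finset.sum_mul, Finset.mul_sum]
    refine Finset.sum_congr rfl fun i _ => ?_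
    rw [Matrix.smul_mul, Matrix.mul_smul, hcomL _ (hbL i)]
  obtain ⟨s, hs⟩ : ∃ s : F, (g⁻¹).val * u = s • (1 : M2 F) := by
    have h1 : (g⁻¹).val * u ∈ Set.range (Matrix.scalar (Fin 2) : F →+* M2 F) := by
      apply Matrix.mem_range_scalar_of_commute_single
      intro i j _
      exact hcom _
    obtain ⟨s, hs⟩ := h1
    refine ⟨s, ?_⟩
    rw [← hs, Matrix.scalar_apply, Matrix.smul_one_eq_diagonal]
  have hus : u = s • g.val := by
    have h1 : g.val * ((g⁻¹).val * u) = g.val * (s • (1 : M2 F)) := by rw [hs]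
    rw [← mul_assoc, hinv', one_mul, Matrix.mul_smul, mul_one] at h1
    exact h1
  refine ⟨s, ?_, ?_⟩
  · intro h
    rw [h, zero_smul] at hus
    exact hu0 hus
  · rw [← hus]
    exact huL

end Pool.Agent.H76.GT
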