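import Pool.Agent.H76.GT.QuatL
import Pool.Agent.H76.GT.QuatS
import Pool.Agent.H76.GT.QuatR

/-!
# H76 GT, Quat: the homomorphism to the projective group over an extension of the constants
-/

set_option autoImplicit false

namespace Pool.Agent.H76.GT

variable {F : Type} [Field F] {k : Subfield F}

/-- two matrices which commute with a matrix that is not scalar commute -/
private theorem qt_comm {K : Type} [Field K] {A B C : M2 K} (hA : ¬ ∃ c : K, A = c • (1 : M2 K)) (hB : A * B = B * A)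
    (hC : A * C = C * A) : B * C = C * B := by
  have e : ∀ X : M2 K, A * X = X * A → A 0 1 * X 1 0 = A 1 0 * X 0 1 ∧
      (A 0 0 - A 1 1) * X 0 1 = A 0 1 * (X 0 0 - X 1 1) ∧ (A 0 0 - A 1 1) * X 1 0 = A 1 0 * (X 0 0 - X 1 1) := by
    intro X hX
    have h00 := congrFun (congrFun hX 0) 0
    have h01 := congrFun (congrFun hX 0) 1
    have h10 := congrFun (congrFun hX 1) 0
    simp only [Matrix.mul_apply, Fin.sum_univ_two] at h00 h01 h10
    refine ⟨by linear_combination h00, by linear_combination h01, by linear_combination -h10⟩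
  obtain ⟨b1, b2, b3⟩ := e B hB
  obtain ⟨c1, c2, c3⟩ := e C hC
  have key : B 0 1 * C 1 0 = B 1 0 * C 0 1 ∧ (B 0 0 - B 1 1) * C 0 1 = B 0 1 * (C 0 0 - C 1 1) ∧
      (B 0 0 - B 1 1) * C 1 0 = B 1 0 * (C 0 0 - C 1 1) := by
    by_cases h01 : A 0 1 = 0
    · by_cases h10 : A 1 0 = 0
      · have hd : A 0 0 - A 1 1 ≠ 0 := by
          intro hd
          refine hA ⟨A 0 0, ?_⟩
          ext i j
          fin_cases i <;> fin_cases j
          · simp
          · simpa using h01
          · simpa using h10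
          · have : A 1 1 = A 0 0 := (sub_eq_zero.mp hd).symm
            simpa using this
        rw [h01, zero_mul] at b2 c2
        rw [h10, zero_mul] at b3 c3
        have b2' := (mul_eq_zero.mp b2).resolve_left hd
        have b3' := (mul_eq_zero.mp b3).resolve_left hd
        have c2' := (mul_eq_zero.mp c2).resolve_left hd
        have c3' := (mul_eq_zero.mp c3).resolve_left hd
        rw [b2', b3', c2', c3']
        exact ⟨by ring, by ring, by ring⟩
      · refine ⟨mul_left_cancel₀ h10 ?_, mul_left_cancel₀ h10 ?_, mul_left_cancel₀ h10 ?_⟩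
        · linear_combination (-C 1 0) * b1 + B 1 0 * c1
        · linear_combination (-C 0 1) * b3 + (C 0 0 - C 1 1) * b1 + (B 1 0) * c2
        · linear_combination (-C 1 0) * b3 + B 1 0 * c3
    · refine ⟨mul_left_cancel₀ h01 ?_, mul_left_cancel₀ h01 ?_, mul_left_cancel₀ h01 ?_⟩
      · linear_combination (-C 0 1) * b1 + B 0 1 * c1
      · linear_combination (-C 0 1) * b2 + B 0 1 * c2
      · linear_combination (-C 1 0) * b2 + B 0 1 * c3 - (C 0 0 - C 1 1) * b1
  obtain ⟨k1, k2, k3⟩ := key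
  ext i j
  rw [Matrix.mul_apply, Matrix.mul_apply, Fin.sum_univ_two, Fin.sum_univ_two]
  fin_cases i <;> fin_cases j
  · simp only [Fin.zero_eta]
    linear_combination k1
  · simp only [Fin.zero_eta, Fin.mk_one]
    linear_combination k2
  · simp only [Fin.zero_eta, Fin.mk_one]
    linear_combination -k3
  · simp only [Fin.mk_one]
    linear_combination -k1

/-- the algebra is not commutative -/
private theorem qt_nc {L : Subalgebra k (M2 F)} (hL : IsQ k L) : ∃ x ∈ L, ∃ y ∈ L, x * y ≠ y * x := by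
  by_contra hcon
  push Not at hcon
  obtain ⟨b, hb, hli, _⟩ := hL.basis
  have hspan : Submodule.span F (Set.range b) = ⊤ := by
    refine hli.span_eq_top_of_card_eq_finrank ?_
    rw [Fintype.card_fin, Module.finrank_matrix]
    simp
  have h1 : ∀ i, ∀ X : M2 F, b i * X = X * b i := by
    intro i X
    have hX : X ∈ Submodule.span F (Set.range b) := by
      rw [hspan]
      exact Submodule.mem_top
    induction hX using Submodule.span_induction with
    | mem x hx =>
        obtain ⟨j, rfl⟩ := hx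
        exact hcon _ (hb i) _ (hb j)
    | zero => rw [mul_zero, zero_mul]
    | add x y _ _ hx hy => rw [mul_add, add_mul, hx, hy]
    | smul c x _ hx => rw [Matrix.mul_smul, Matrix.smul_mul, hx]
  have h2 : ∀ X Y : M2 F, X * Y = Y * X := by
    intro X Y
    have hX : X ∈ Submodule.span F (Set.range b) := by
      rw [hspan]
      exact Submodule.mem_top
    induction hX using Submodule.span_induction with
    | mem x hx =>
        obtain ⟨j, rfl⟩ := hx
        exact h1 j Y
    | zero => rw [mul_zero, zero_mul]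
    | add x y _ _ hx hy => rw [mul_add, add_mul, hx, hy]
    | smul c x _ hx => rw [Matrix.mul_smul, Matrix.smul_mul, hx]
  have h3 := congrFun (congrFun (h2 !![0, 1; 0, 0] !![0, 0; 1, 0]) 0) 0
  simp [Matrix.mul_apply, Fin.sum_univ_two] at h3

/-- inverses in the algebra -/
private theorem qt_inv {L : Subalgebra k (M2 F)} (hL : IsQ k L) {X : M2 F} (hX : X ∈ L) (hd : X.det ≠ 0) :
    ∃ Y ∈ L, X * Y = 1 ∧ Y * X = 1 := by
  have ht := hL.trace X hX
  have hdk := hL.det X hX
  have hk : ∀ (c : F), c ∈ k → ∀ Z ∈ L, c • Z ∈ L := fun c hc Z hZ => L.smul_mem hZ (⟨c, hc⟩ : k)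
  have hch : X * (X.trace • (1 : M2 F) - X) = X.det • (1 : M2 F) := by
    ext i j
    rw [Matrix.mul_apply, Fin.sum_univ_two]
    fin_cases i <;> fin_cases j <;>
      simp [Matrix.trace, Matrix.det_fin_two, Fin.sum_univ_two] <;> ring
  have hch' : (X.trace • (1 : M2 F) - X) * X = X.det • (1 : M2 F) := by
    ext i j
    rw [Matrix.mul_apply, Fin.sum_univ_two]
    fin_cases i <;> fin_cases j <;>
      simp [Matrix.trace, Matrix.det_fin_two, Fin.sum_univ_two] <;> ring
  refine ⟨X.det⁻¹ • (X.trace • (1 : M2 F) - X), hk _ (k.inv_mem hdk) _ (L.sub_mem (hk _ ht _ L.one_mem) hX), ?_, ?_⟩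
  · rw [Matrix.mul_smul, hch, smul_smul, inv_mul_cancel₀ hd, one_smul]
  · rw [Matrix.smul_mul, hch', smul_smul, inv_mul_cancel₀ hd, one_smul]

/-- the relation which is the homomorphism -/
private def QR {K : Type} [Field K] {L : Subalgebra k (M2 F)} (ρ : L →+* M2 K) (p : PG F) (q : PG K) : Prop :=
  ∃ (g : GL (Fin 2) F) (c : F) (x : L) (u : GL (Fin 2) K), pr F g = p ∧ c ≠ 0 ∧ (x : M2 F) = c • g.val ∧ u.val = ρ x ∧
    pr K u = q

private theorem qt_ex {K : Type} [Field K] {L : Subalgebra k (M2 F)} (hL : IsQ k L) (ρ : L →+* M2 K) {g : GL (Fin 2) F}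
    (hg : ∀ x ∈ L, cj g x ∈ L) : ∃ q, QR ρ (pr F g) q := by
  obtain ⟨c, hc, hcg⟩ := exists_scalar hL hg
  have hd : (c • g.val).det ≠ 0 := by
    rw [Matrix.det_smul]
    refine mul_ne_zero (pow_ne_zero _ hc) ?_
    have := (Matrix.isUnit_iff_isUnit_det g.val).mp g.isUnit
    exact this.ne_zero
  obtain ⟨Y, hY, h1, h2⟩ := qt_inv hL hcg hd
  refine ⟨_, g, c, ⟨c • g.val, hcg⟩, ⟨ρ ⟨c • g.val, hcg⟩, ρ ⟨Y, hY⟩, ?_, ?_⟩, rfl, hc, rfl, rfl, rfl⟩
  · rw [← map_mul, show (⟨c • g.val, hcg⟩ : L) * ⟨Y, hY⟩ = 1 from Subtype.ext h1, map_one]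
  · rw [← map_mul, show (⟨Y, hY⟩ : L) * ⟨c • g.val, hcg⟩ = 1 from Subtype.ext h2, map_one]

private theorem qt_mul {K : Type} [Field K] {L : Subalgebra k (M2 F)} {ρ : L →+* M2 K} {p p' : PG F} {q q' : PG K}
    (h : QR ρ p q) (h' : QR ρ p' q') : QR ρ (p * p') (q * q') := by
  obtain ⟨g, c, x, u, rfl, hc, hx, hu, rfl⟩ := h
  obtain ⟨g', c', x', u', rfl, hc', hx', hu', rfl⟩ := h'
  refine ⟨g * g', c * c', x * x', u * u', map_mul _ _ _, mul_ne_zero hc hc', ?_, ?_, map_mul _ _ _⟩
  · rw [Subalgebra.coe_mul, hx, hx', Units.val_mul, Matrix.smul_mul, Matrix.mul_smul, smul_smul]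
  · rw [Units.val_mul, hu, hu', map_mul]

private theorem qt_uniq {K : Type} [Field K] {L : Subalgebra k (M2 F)} (hL : IsQ k L) {ρ : L →+* M2 K}
    (hinj : Function.Injective ρ) {p : PG F} {q q' : PG K} (h : QR ρ p q) (h' : QR ρ p q') : q = q' := by
  obtain ⟨g, c, x, u, hp, hc, hx, hu, rfl⟩ := h
  obtain ⟨g', c', x', u', hp', hc', hx', hu', rfl⟩ := h'
  have h1 : pr F (g⁻¹ * g') = 1 := by
    rw [map_mul, map_inv, hp, hp', inv_mul_cancel]
  obtain ⟨s, hs⟩ := pr_eq_one.mp h1
  have hg' : g'.val = s • g.val := by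
    have : g' = g * (g⁻¹ * g') := by group
    rw [this, Units.val_mul, hs, Matrix.mul_smul, mul_one]
  have hd : (x : M2 F).det ≠ 0 := by
    rw [hx, Matrix.det_smul]
    refine mul_ne_zero (pow_ne_zero _ hc) ?_
    exact ((Matrix.isUnit_iff_isUnit_det g.val).mp g.isUnit).ne_zero
  obtain ⟨Y, hY, h2, h3⟩ := qt_inv hL x.2 hd
  have hxx : (x' : M2 F) = (c' * s * c⁻¹) • (x : M2 F) := by
    rw [hx, hx', hg', smul_smul, smul_smul]
    congr 1
    field_simp
  have hz : (x' : M2 F) * Y = (c' * s * c⁻¹) • (1 : M2 F) := by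
    rw [hxx, Matrix.smul_mul, h2]
  have hcomm : ∀ w : L, ρ (x' * ⟨Y, hY⟩) * ρ w = ρ w * ρ (x' * ⟨Y, hY⟩) := by
    intro w
    rw [← map_mul, ← map_mul]
    congr 1
    refine Subtype.ext ?_
    rw [Subalgebra.coe_mul, Subalgebra.coe_mul, Subalgebra.coe_mul]
    show (x' : M2 F) * Y * (w : M2 F) = (w : M2 F) * ((x' : M2 F) * Y)
    rw [hz, Matrix.smul_mul, Matrix.mul_smul, one_mul, mul_one]
  have hsc : ∃ e : K, ρ (x' * ⟨Y, hY⟩) = e • (1 : M2 K) := by
    by_contra hno
    obtain ⟨a, ha, b, hb, hab⟩ := qt_nc hL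
    have h4 := qt_comm hno (hcomm ⟨a, ha⟩) (hcomm ⟨b, hb⟩)
    rw [← map_mul, ← map_mul] at h4
    exact hab (congrArg Subtype.val (hinj h4))
  obtain ⟨e, he⟩ := hsc
  have h5 : x' = x' * ⟨Y, hY⟩ * x := by
    refine Subtype.ext ?_
    rw [Subalgebra.coe_mul, Subalgebra.coe_mul]
    show (x' : M2 F) = (x' : M2 F) * Y * (x : M2 F)
    rw [mul_assoc, h3, mul_one]
  have h6 : u'.val = e • u.val := by
    rw [hu', hu, h5, map_mul, he, Matrix.smul_mul, one_mul]
  have h7 : pr K (u⁻¹ * u') = 1 := by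
    rw [pr_eq_one]
    refine ⟨e, ?_⟩
    rw [Units.val_mul, h6, Matrix.mul_smul, ← Units.val_mul, inv_mul_cancel, Units.val_one]
  rw [map_mul, map_inv] at h7
  exact inv_mul_eq_one.mp h7

/-- Proof. `g ↦ ρ (c • g)` with `exists_scalar`, modulo scalars: well defined since two multiples of `g` in `L` differ by
`c ∈ F` with `c • 1 ∈ L` (units of `L`: an element of `L` which is invertible in `M2 F` is invertible in `L`, as
`x⁻¹ = (det x)⁻¹ (trace x - x)`), i.e. `c ∈ k`; multiplicative; injective by the last property of `ρ`. -/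
theorem exists_hom {L : Subalgebra k (M2 F)} (hL : IsQ k L) (G : Subgroup (PG F))
    (hG : ∀ g ∈ pre G, ∀ x ∈ L, cj g x ∈ L) :
    ∃ (K : Type) (_ : Field K) (_ : Algebra k K) (_ : Module.Finite k K) (_ : Module.finrank k K ≤ 2) (f : G →* PG K),
      Function.Injective f := by
  obtain ⟨K, i1, i2, i3, i4, ρ, hinj, hρ⟩ := exists_rep hL
  have hex : ∀ p : G, ∃ q, QR ρ (p : PG F) q := by
    intro p
    obtain ⟨g, hg⟩ := pr_surj (p : PG F)
    rw [← hg]
    exact qt_ex hL ρ (hG g (by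
      show pr F g ∈ G
      rw [hg]
      exact p.2))
  choose f hf using hex
  refine ⟨K, i1, i2, i3, i4, MonoidHom.mk' f fun a b => qt_uniq hL hinj (hf (a * b)) (qt_mul (hf a) (hf b)), ?_⟩
  rw [injective_iff_map_eq_one]
  intro p hp
  have h1 : f p = 1 := hp
  have h2 := hf p
  rw [h1] at h2
  obtain ⟨g, c, x, u, hg, hc, hx, hu, hq⟩ := h2
  obtain ⟨e, he⟩ := pr_eq_one.mp hq
  obtain ⟨d, hd⟩ := hρ x ⟨e, by rw [← hu, he]⟩
  refine Subtype.ext ?_
  show (p : PG F) = 1
  rw [← hg, pr_eq_one]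
  refine ⟨c⁻¹ * (d : F), ?_⟩
  rw [mul_smul, ← hd, hx, smul_smul, inv_mul_cancel₀ hc, one_smul]

end Pool.Agent.H76.GT
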