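import Pool.Agent.H76.GT.AlgA

/-!
# H76 GT, QuatD: definition
-/

set_option autoImplicit false

namespace Pool.Agent.H76.GT

variable {F : Type} [Field F] (k : Subfield F)

/-- a `k`-subalgebra of dimension four of `M₂(F)` which spans `M₂(F)` over `F` -/
structure IsQ (L : Subalgebra k (M2 F)) : Prop where
  trace : ∀ x ∈ L, x.trace ∈ k
  det : ∀ x ∈ L, x.det ∈ k
  basis : ∃ b : Fin 4 → M2 F, (∀ i, b i ∈ L) ∧ LinearIndependent F b ∧ ∀ x ∈ L, ∃ c : Fin 4 → k, x = ∑ i, (c i : F) • b i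

end Pool.Agent.H76.GT
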