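import Pool.Agent.H76.GT.QuatD
import Pool.Agent.H76.GT.AlgB

/-!
# H76 GT, QuatL: the algebra of a group with traces in a subfield
-/

set_option autoImplicit false

namespace Pool.Agent.H76.GT

variable {F : Type} [Field F] (k : Subfield F)

private theorem ql_nd {y : M2 F} (h : ∀ z : M2 F, (y * z).trace = 0) : y = 0 := by
  have h00 := h !![1, 0; 0, 0]
  have h01 := h !![0, 1; 0, 0]
  have h10 := h !![0, 0; 1, 0]
  have h11 := h !![0, 0; 0, 1]
  simp only [Matrix.trace_fin_two, Matrix.mul_apply, Fin.sum_univ_two, Matrix.of_apply, Matrix.cons_val', Matrix.cons_val_zero,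
    Matrix.cons_val_one, Matrix.empty_val', Matrix.cons_val_fin_one, mul_one, mul_zero, add_zero, zero_add] at h00 h01 h10 h11
  ext i j
  fin_cases i <;> fin_cases j
  · exact h00
  · exact h10
  · exact h01
  · exact h11

private theorem ql_det (x y : M2 F) : (x + y).det = x.det + y.det + x.trace * y.trace - (x * y).trace := by
  simp only [Matrix.det_fin_two, Matrix.trace_fin_two, Matrix.mul_apply, Fin.sum_univ_two, Matrix.add_apply]
  ring

private theorem ql_span {b : Fin 4 → M2 F} (hb : Submodule.span F (Set.range b) = ⊤) {y : M2 F}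
    (h : ∀ j, (y * b j).trace = 0) : y = 0 := by
  refine ql_nd fun z => ?_
  have hz : z ∈ Submodule.span F (Set.range b) := by
    rw [hb]
    exact Submodule.mem_top
  induction hz using Submodule.span_induction with
  | mem z hz =>
    obtain ⟨j, rfl⟩ := hz
    exact h j
  | zero => rw [mul_zero, Matrix.trace_zero]
  | add z w _ _ ihz ihw => rw [mul_add, Matrix.trace_add, ihz, ihw, add_zero]
  | smul c z _ ihz => rw [Matrix.mul_smul, Matrix.trace_smul, ihz, smul_zero]

private theorem ql_basis {A : Set (M2 F)} (hA : Submodule.span F A = ⊤) :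
    ∃ b : Fin 4 → M2 F, (∀ i, b i ∈ A) ∧ LinearIndependent F b ∧ Submodule.span F (Set.range b) = ⊤ := by
  obtain ⟨B, hB1, hB2, hB3⟩ := exists_linearIndependent F A
  rw [hA] at hB2
  have hB4 : ⊤ ≤ Submodule.span F (Set.range ((↑) : B → M2 F)) := by
    rw [Subtype.range_coe, hB2]
  have e := Module.Basis.mk hB3 hB4
  have hf : Fintype B := FiniteDimensional.fintypeBasisIndex e
  have hc : Fintype.card B = 4 := by
    rw [← Module.finrank_eq_card_basis e, Module.finrank_matrix]
    simp
  have f : Fin 4 ≃ B := (Fintype.equivFinOfCardEq hc).symm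
  refine ⟨fun i => (f i : M2 F), fun i => hB1 (f i).2, hB3.comp f f.injective, ?_⟩
  rw [← hB2]
  congr 1
  ext x
  constructor
  · rintro ⟨i, rfl⟩
    exact (f i).2
  · intro hx
    exact ⟨f.symm ⟨x, hx⟩, by simp⟩

/-- Proof. `L` is the `k`-span of `U` (closed under multiplication). Choose `b i ∈ U` which form an `F`-basis of `M2 F`
(`spn U = ⊤`). The matrix `trace (b i * b j)` is invertible with entries in `k` (the trace form is nondegenerate), so is its
inverse; for `x ∈ L`, `x = ∑ c i • b i` with `c i ∈ F`, and the numbers `trace (x * b j) ∈ k` give `c i ∈ k`. Determinants: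
`det (x + y) = det x + det y + trace x * trace y - trace (x * y)`. -/
theorem exists_isQ (U : Subgroup (GL (Fin 2) F)) (hd : ∀ g ∈ U, g.val.det = 1) (ht : ∀ g ∈ U, g.val.trace ∈ k)
    (hs : spn U = ⊤) : ∃ L : Subalgebra k (M2 F), IsQ k L ∧ ∀ x : M2 F, x ∈ L ↔ x ∈ Submodule.span k {x | ∃ g ∈ U, x = g.val} := by
  obtain ⟨A, hA⟩ : ∃ A : Set (M2 F), A = {x | ∃ g ∈ U, x = g.val} := ⟨_, rfl⟩
  rw [← hA]
  have hA1 : (1 : M2 F) ∈ A := by
    rw [hA]
    exact ⟨1, U.one_mem, by simp⟩
  have hAm : ∀ x ∈ A, ∀ y ∈ A, x * y ∈ A := by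
    intro x hx y hy
    rw [hA] at hx hy ⊢
    obtain ⟨g, hg, rfl⟩ := hx
    obtain ⟨h, hh, rfl⟩ := hy
    exact ⟨g * h, U.mul_mem hg hh, by rw [Units.val_mul]⟩
  have hmul : ∀ x ∈ Submodule.span k A, ∀ y ∈ Submodule.span k A, x * y ∈ Submodule.span k A := by
    intro x hx
    induction hx using Submodule.span_induction with
    | mem x hx =>
      intro y hy
      induction hy using Submodule.span_induction with
      | mem y hy => exact Submodule.subset_span (hAm x hx y hy)
      | zero => rw [mul_zero]; exact Submodule.zero_mem _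
      | add y z _ _ ihy ihz => rw [mul_add]; exact Submodule.add_mem _ ihy ihz
      | smul c y _ ihy => rw [Matrix.mul_smul]; exact Submodule.smul_mem _ c ihy
    | zero => intro y _; rw [zero_mul]; exact Submodule.zero_mem _
    | add x z _ _ ihx ihz => intro y hy; rw [add_mul]; exact Submodule.add_mem _ (ihx y hy) (ihz y hy)
    | smul c x _ ihx => intro y hy; rw [Matrix.smul_mul]; exact Submodule.smul_mem _ c (ihx y hy)
  have htr : ∀ x ∈ Submodule.span k A, x.trace ∈ k := by
    intro x hx
    induction hx using Submodule.span_induction with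
    | mem x hx =>
      rw [hA] at hx
      obtain ⟨g, hg, rfl⟩ := hx
      exact ht g hg
    | zero => rw [Matrix.trace_zero]; exact k.zero_mem
    | add x y _ _ ihx ihy => rw [Matrix.trace_add]; exact k.add_mem ihx ihy
    | smul c x _ ihx =>
      rw [Matrix.trace_smul]
      exact k.mul_mem c.2 ihx
  have hdet : ∀ x ∈ Submodule.span k A, x.det ∈ k := by
    intro x hx
    induction hx using Submodule.span_induction with
    | mem x hx =>
      rw [hA] at hx
      obtain ⟨g, hg, rfl⟩ := hx
      rw [hd g hg]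
      exact k.one_mem
    | zero =>
      have h0 : (0 : M2 F).det = 0 := by
        rw [Matrix.det_fin_two]
        simp
      rw [h0]
      exact k.zero_mem
    | add x y hx hy ihx ihy =>
      rw [ql_det]
      exact k.sub_mem (k.add_mem (k.add_mem ihx ihy) (k.mul_mem (htr x hx) (htr y hy))) (htr _ (hmul x hx y hy))
    | smul c x _ ihx =>
      have h1 : (c • x).det = (c : F) ^ 2 * x.det := by
        have h2 : c • x = (c : F) • x := rfl
        rw [h2, Matrix.det_smul]
        simp
      rw [h1]
      exact k.mul_mem (k.pow_mem c.2 2) ihx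
  obtain ⟨b, hb1, hb2, hb3⟩ := ql_basis (A := A) (by
    rw [hA]
    exact hs)
  let L : Subalgebra k (M2 F) :=
    { carrier := Submodule.span k A
      mul_mem' := fun {x y} hx hy => hmul x hx y hy
      add_mem' := fun {x y} hx hy => Submodule.add_mem _ hx hy
      algebraMap_mem' := fun c => by
        have h1 : algebraMap k (M2 F) c = c • (1 : M2 F) := Algebra.algebraMap_eq_smul_one c
        rw [h1]
        exact Submodule.smul_mem _ c (Submodule.subset_span hA1) }
  refine ⟨L, ⟨htr, hdet, b, fun i => Submodule.subset_span (hb1 i), hb2, ?_⟩, fun x => Iff.rfl⟩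
  intro x hx
  have hbm : ∀ i j, (b i * b j).trace ∈ k := fun i j =>
    htr _ (hmul _ (Submodule.subset_span (hb1 i)) _ (Submodule.subset_span (hb1 j)))
  obtain ⟨G, hG⟩ : ∃ G : Matrix (Fin 4) (Fin 4) k, ∀ i j, ((G i j : k) : F) = (b i * b j).trace :=
    ⟨fun i j => ⟨_, hbm i j⟩, fun i j => rfl⟩
  obtain ⟨t, htt⟩ : ∃ t : Fin 4 → k, ∀ j, ((t j : k) : F) = (x * b j).trace :=
    ⟨fun j => ⟨_, htr _ (hmul x hx _ (Submodule.subset_span (hb1 j)))⟩, fun j => rfl⟩
  have key : ∀ v : Fin 4 → k, ∀ j, (((Matrix.vecMul v G) j : k) : F) = ((∑ i, (v i : F) • b i) * b j).trace := by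
    intro v j
    rw [Finset.sum_mul, Matrix.trace_sum]
    simp only [Matrix.vecMul, dotProduct]
    push_cast
    refine Finset.sum_congr rfl fun i _ => ?_
    rw [hG, Matrix.smul_mul, Matrix.trace_smul, smul_eq_mul]
  have hGd : G.det ≠ 0 := by
    intro h0
    obtain ⟨v, hv, hv0⟩ := Matrix.exists_vecMul_eq_zero_iff.2 h0
    have h1 : ∑ i, (v i : F) • b i = 0 := by
      refine ql_span hb3 fun j => ?_
      rw [← key v j, hv0]
      simp
    have h2 := Fintype.linearIndependent_iff.1 hb2 (fun i => (v i : F)) h1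
    apply hv
    ext i
    simpa using h2 i
  have hGu : IsUnit G.det := isUnit_iff_ne_zero.2 hGd
  refine ⟨Matrix.vecMul t G⁻¹, ?_⟩
  have h3 : Matrix.vecMul (Matrix.vecMul t G⁻¹) G = t := by
    rw [Matrix.vecMul_vecMul, Matrix.nonsing_inv_mul G hGu, Matrix.vecMul_one]
  have h4 : x - ∑ i, (((Matrix.vecMul t G⁻¹) i : k) : F) • b i = 0 := by
    refine ql_span hb3 fun j => ?_
    rw [sub_mul, Matrix.trace_sub, ← key (Matrix.vecMul t G⁻¹) j, h3, htt, sub_self]
  exact sub_eq_zero.1 h4

end Pool.Agent.H76.GT
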