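import Pool.Agent.H76.GT.Th

/-!
# H76 GT, Up: the direction away from a vertex of a tree

`Up T o u v`: `u` and `v` are adjacent and `v` is farther from `o` than `u`.
-/

set_option autoImplicit false

namespace Pool.Agent.H76.GT

variable {V : Type} {T : SimpleGraph V}

/-- `(u, v)` is a dart which points away from `o` -/
def Up (T : SimpleGraph V) (o u v : V) : Prop := T.Adj u v ∧ T.dist o v = T.dist o u + 1

theorem Up.adj {o u v : V} (h : Up T o u v) : T.Adj u v := h.1

theorem Up.dist {o u v : V} (h : Up T o u v) : T.dist o v = T.dist o u + 1 := h.2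

theorem Up.ne {o u v : V} (h : Up T o u v) : v ≠ o := by
  rintro rfl
  have := h.2
  rw [SimpleGraph.dist_self] at this
  omega

theorem Up.asymm {o u v : V} (h : Up T o u v) : ¬ Up T o v u := fun h' => by
  have := h.2
  have := h'.2
  omega

theorem up_self {o v : V} (h : T.Adj o v) : Up T o o v := by
  refine ⟨h, ?_⟩
  rw [SimpleGraph.dist_self, zero_add]
  exact SimpleGraph.dist_eq_one_iff_adj.2 h

/-- Proof. In a tree the distances of adjacent vertices to `o` differ by exactly one (the path from `o` to `v` either passes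
through `u` or is prolonged by `u`). Mathlib: `SimpleGraph.IsTree.existsUnique_path`, `dist` = length of the path. -/
theorem up_or (hT : T.IsTree) (o : V) {u v : V} (h : T.Adj u v) : Up T o u v ∨ Up T o v u := by
  rcases hT.dist_eq_dist_add_one_of_adj o h with h1 | h1
  · exact Or.inr ⟨h.symm, h1⟩
  · exact Or.inl ⟨h, h1⟩

private theorem exists_path_concat (hT : T.IsTree) {o u v : V} (h : Up T o u v) :
    ∃ p : T.Walk o u, (p.concat h.1).IsPath := by
  classical
  obtain ⟨p, hp, hl⟩ := hT.connected.exists_path_of_dist o u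
  refine ⟨p, hp.concat (fun hv => ?_) h.1⟩
  have h1 : T.dist o v ≤ (p.takeUntil v hv).length := SimpleGraph.dist_le _
  have h2 : (p.takeUntil v hv).length ≤ p.length := p.length_takeUntil_le_length hv
  have h3 := h.2
  omega

/-- Proof. Otherwise there are two paths from `o` to `v`. -/
theorem up_unique (hT : T.IsTree) {o u u' v : V} (h : Up T o u v) (h' : Up T o u' v) : u = u' := by
  obtain ⟨p, hp⟩ := exists_path_concat hT h
  obtain ⟨q, hq⟩ := exists_path_concat hT h'
  have h1 : p.concat h.1 = q.concat h'.1 := (hT.existsUnique_path o v).unique hp hq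
  have h2 := congrArg SimpleGraph.Walk.penultimate h1
  rwa [SimpleGraph.Walk.penultimate_concat, SimpleGraph.Walk.penultimate_concat] at h2

theorem exists_up (hT : T.IsTree) {o v : V} (h : v ≠ o) : ∃ u, Up T o u v := by
  obtain ⟨p, hl⟩ := hT.connected.exists_walk_length_eq_dist v o
  cases p with
  | nil => exact absurd rfl h
  | cons a q =>
    rename_i u
    refine ⟨u, ?_⟩
    have h1 : T.dist u o ≤ q.length := SimpleGraph.dist_le _
    rw [SimpleGraph.Walk.length_cons] at hl
    rw [SimpleGraph.dist_comm] at h1
    rw [SimpleGraph.dist_comm (u := v)] at hl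
    rcases up_or hT o a with h2 | h2
    · have := h2.2
      omega
    · exact h2

/-- Change of the base point to a neighbour. Proof. If `Up T o u v` and the edge is not `{o, o'}`: the path from `o'` to `v`
is the path from `o` to `v` prolonged by `o'` or shortened by `o`, and it ends with `u, v`. -/
theorem up_change (hT : T.IsTree) {o o' : V} (ho : T.Adj o o') {u v : V} (h : Up T o u v) (hn : ¬ (u = o ∧ v = o')) :
    Up T o' u v := by
  rcases up_or hT o' h.1 with h1 | h1
  · exact h1
  have e1 : T.dist o o' = 1 := SimpleGraph.dist_eq_one_iff_adj.2 ho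
  have e2 : T.dist o' o = 1 := SimpleGraph.dist_eq_one_iff_adj.2 ho.symm
  have a1 := h.2
  have a2 := h1.2
  by_cases hv : v = o'
  · refine absurd ⟨?_, hv⟩ hn
    rw [hv, e1] at a1
    have a3 : T.dist o u = 0 := by omega
    exact ((hT.connected.dist_eq_zero_iff).1 a3).symm
  · obtain ⟨w, hw⟩ := exists_up hT hv
    have a3 := hw.2
    have t1 : T.dist o' u ≤ T.dist o' o + T.dist o u := hT.connected.dist_triangle
    have t2 : T.dist o w ≤ T.dist o o' + T.dist o' w := hT.connected.dist_triangle
    rcases up_or hT o hw.1 with h2 | h2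
    · rw [up_unique hT h h2]
      exact hw
    · have := h2.2
      omega

/-- Automorphisms preserve the distance (map walks, in both directions). -/
theorem dist_smul {G : Type} [Group G] [MulAction G V] [Pres G T] (hT : T.IsTree) (g : G) (u v : V) :
    T.dist (g • u) (g • v) = T.dist u v := by
  have key : ∀ (g : G) (u v : V), T.dist (g • u) (g • v) ≤ T.dist u v := by
    intro g u v
    obtain ⟨p, hl⟩ := hT.connected.exists_walk_length_eq_dist u v
    let f : T →g T := ⟨fun x => g • x, fun {a b} h => Pres.adj g a b h⟩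
    have h1 : T.dist (f u) (f v) ≤ (p.map f).length := SimpleGraph.dist_le _
    rw [SimpleGraph.Walk.length_map, hl] at h1
    exact h1
  refine le_antisymm (key g u v) ?_
  have h1 := key g⁻¹ (g • u) (g • v)
  rwa [inv_smul_smul, inv_smul_smul] at h1

theorem up_smul {G : Type} [Group G] [MulAction G V] [Pres G T] (hT : T.IsTree) (g : G) (o u v : V) :
    Up T (g • o) (g • u) (g • v) ↔ Up T o u v := by
  unfold Up
  rw [Pres.iff, dist_smul hT, dist_smul hT]

/-- `Y` is a finite subtree which contains `o` -/
structure Cvx (T : SimpleGraph V) (o : V) (Y : Set V) : Prop where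
  fin : Y.Finite
  mem : o ∈ Y
  up : ∀ u v, Up T o u v → v ∈ Y → u ∈ Y

/-- Proof. By `up_change` and connectedness: it is enough to treat `o'` adjacent to `o` (the vertices between `o` and `o'`
are in `Y` by `Cvx.up`, induction on the distance). -/
theorem Cvx.change (hT : T.IsTree) {o : V} {Y : Set V} (h : Cvx T o Y) {o' : V} (ho : o' ∈ Y) : Cvx T o' Y := by
  have step : ∀ {a b : V}, Cvx T a Y → T.Adj a b → b ∈ Y → Cvx T b Y := by
    intro a b ha hab hb
    refine ⟨ha.fin, hb, fun u v huv hv => ?_⟩
    by_cases hc : u = b ∧ v = a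
    · rw [hc.1]
      exact hb
    · exact ha.up u v (up_change hT hab.symm huv hc) hv
  have key : ∀ (n : ℕ) (x : V), T.dist o x = n → x ∈ Y → Cvx T x Y := by
    intro n
    induction n with
    | zero =>
      intro x hx _
      rw [← (hT.connected.dist_eq_zero_iff).1 hx]
      exact h
    | succ n ih =>
      intro x hx hxY
      have hne : x ≠ o := by
        rintro rfl
        rw [SimpleGraph.dist_self] at hx
        omega
      obtain ⟨w, hw⟩ := exists_up hT hne
      have hwY := h.up w x hw hxY
      have e := hw.2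
      exact step (ih w (by omega) hwY) hw.1 hxY
  exact key _ o' rfl ho

theorem Cvx.smul {G : Type} [Group G] [MulAction G V] [Pres G T] (hT : T.IsTree) (g : G) {o : V} {Y : Set V}
    (h : Cvx T o Y) : Cvx T (g • o) ((fun x => g • x) '' Y) := by
  refine ⟨h.fin.image _, ⟨o, h.mem, rfl⟩, ?_⟩
  rintro u v huv ⟨y, hy, rfl⟩
  refine ⟨g⁻¹ • u, h.up _ y ?_ hy, smul_inv_smul g u⟩
  rw [← up_smul hT g, smul_inv_smul]
  exact huv

theorem Cvx.union {o : V} {Y Y' : Set V} (h : Cvx T o Y) (h' : Cvx T o Y') : Cvx T o (Y ∪ Y') where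
  fin := h.fin.union h'.fin
  mem := Or.inl h.mem
  up u v hu hv := hv.imp (h.up u v hu) (h'.up u v hu)

/-- every finite set is contained in a finite subtree. Proof: add the supports of the paths from `o` -/
theorem exists_cvx (hT : T.IsTree) (o : V) {F : Set V} (hF : F.Finite) : ∃ Y, Cvx T o Y ∧ F ⊆ Y := by
  have h0 : Cvx T o {o} := by
    refine ⟨Set.finite_singleton o, rfl, ?_⟩
    rintro u v huv hv
    exact absurd hv huv.ne
  have key : ∀ (n : ℕ) (x : V), T.dist o x = n → ∃ Y, Cvx T o Y ∧ x ∈ Y := by
    intro n
    induction n with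
    | zero =>
      intro x hx
      exact ⟨{o}, h0, ((hT.connected.dist_eq_zero_iff).1 hx).symm⟩
    | succ n ih =>
      intro x hx
      have hne : x ≠ o := by
        rintro rfl
        rw [SimpleGraph.dist_self] at hx
        omega
      obtain ⟨w, hw⟩ := exists_up hT hne
      have e := hw.2
      obtain ⟨Y, hY, hwY⟩ := ih w (by omega)
      refine ⟨insert x Y, ⟨hY.fin.insert x, Or.inr hY.mem, ?_⟩, Or.inl rfl⟩
      rintro u v huv (hv | hv)
      · rw [hv] at huv
        rw [up_unique hT huv hw]
        exact Or.inr hwY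
      · exact Or.inr (hY.up u v huv hv)
  induction F, hF using Set.Finite.induction_on with
  | empty => exact ⟨{o}, h0, Set.empty_subset _⟩
  | @insert a s _ _ ih =>
    obtain ⟨Y, hY, hs⟩ := ih
    obtain ⟨Z, hZ, ha⟩ := key _ a rfl
    exact ⟨Y ∪ Z, hY.union hZ, Set.insert_subset (Or.inr ha) (hs.trans Set.subset_union_left)⟩

end Pool.Agent.H76.GT
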